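import Pool.Agent.LibHM79.Defs

/-! B1 (SHORT). Points of schemes over an algebraically closed field. Plan: Mathlib
AlgebraicGeometry.AlgClosed.Basic: pointEquivClosedPoint, pointOfClosedPoint, ext_of_apply_closedPoint_eq,
ext_of_apply_eq, LocallyOfFiniteType.jacobsonSpace, nonempty_inter_closedPoints. A point t : 𝟙_ ⟶ T is
Over.homMk of a section of T.hom. (𝟙_ (SchK k)).left = Spec k by definition. -/

namespace LibHM79

open AlgebraicGeometry CategoryTheory MonoidalCategory CartesianMonoidalCategory MonObj Limits TopologicalSpace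

variable {k : Type} [Field k] [IsAlgClosed k]

omit [IsAlgClosed k] in
private theorem B1_w {T : SchK k} (t : 𝟙_ (SchK k) ⟶ T) : t.left ≫ T.hom = 𝟙 (Spec (CommRingCat.of k)) :=
  Over.w t

theorem ev_closed {T : SchK k} [LocallyOfFiniteType T.hom] (t : 𝟙_ (SchK k) ⟶ T) :
    IsClosed {ev t} :=
  (pointEquivClosedPoint T.hom ⟨t.left, B1_w t⟩).2

theorem ev_inj {T : SchK k} [LocallyOfFiniteType T.hom] {t t' : 𝟙_ (SchK k) ⟶ T}
    (h : ev t = ev t') : t = t' := by
  ext1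
  exact ext_of_apply_closedPoint_eq (K := k) T.hom (B1_w t) (B1_w t') h

theorem pt_of_closed {T : SchK k} [LocallyOfFiniteType T.hom] (x : T.left) (hx : IsClosed {x}) :
    ∃ t : 𝟙_ (SchK k) ⟶ T, ev t = x := by
  refine ⟨Over.homMk (pointOfClosedPoint T.hom x hx) (pointOfClosedPoint_comp T.hom x hx), ?_⟩
  exact pointOfClosedPoint_apply T.hom x hx _

theorem exists_pt {T : SchK k} [LocallyOfFiniteType T.hom] (A : Set T.left)
    (hA : IsLocallyClosed A) (hne : A.Nonempty) : ∃ t : 𝟙_ (SchK k) ⟶ T, ev t ∈ A := by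
  have hJ : JacobsonSpace T.left := LocallyOfFiniteType.jacobsonSpace T.hom
  obtain ⟨x, hx, hxc⟩ := nonempty_inter_closedPoints hne hA
  obtain ⟨t, rfl⟩ := pt_of_closed x hxc
  exact ⟨t, hx⟩

omit [IsAlgClosed k] in
theorem ev_comp {T T' : SchK k} (t : 𝟙_ (SchK k) ⟶ T) (f : T ⟶ T') :
    ev (t ≫ f) = f.left (ev t) :=
  Scheme.Hom.comp_apply t.left f.left _

theorem pt_ext {T Z : SchK k} [IsReduced T.left] [LocallyOfFiniteType T.hom]
    [IsSeparated Z.hom] [LocallyOfFiniteType Z.hom] {f g : T ⟶ Z} (A : Set T.left)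
    (hA : IsLocallyClosed A) (hA' : Dense A)
    (h : ∀ t : 𝟙_ (SchK k) ⟶ T, ev t ∈ A → t ≫ f = t ≫ g) : f = g := by
  ext1
  have hlf : LocallyOfFiniteType (f.left ≫ Z.hom) := by rw [Over.w]; infer_instance
  refine ext_of_apply_eq (K := k) Z.hom A hA hA' (fun x hx hxc => ?_) (by rw [Over.w, Over.w])
  obtain ⟨t, rfl⟩ := pt_of_closed x hxc
  rw [← ev_comp, ← ev_comp, h t hx]

/-- surjectivity on k-points of a surjective morphism -/
theorem lift_pt {T T' : SchK k} [LocallyOfFiniteType T.hom] [LocallyOfFiniteType T'.hom]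
    (f : T ⟶ T') [Surjective f.left] (t' : 𝟙_ (SchK k) ⟶ T') :
    ∃ t : 𝟙_ (SchK k) ⟶ T, t ≫ f = t' := by
  obtain ⟨x, hx⟩ := f.left.surjective (ev t')
  obtain ⟨t, ht⟩ := exists_pt (f.left ⁻¹' {ev t'})
    ((ev_closed t').preimage f.left.continuous).isLocallyClosed ⟨x, hx⟩
  exact ⟨t, ev_inj ((ev_comp t f).trans ht)⟩

end LibHM79
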