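import Pool.Agent.LibHM79.Defs

/-! B2 (SHORT). Factoring through an open immersion. Plan: IsOpenImmersion.lift; for the last two use
that the map lift (toUnit Q ≫ zpt k) (𝟙 Q) : Q ⟶ Dk k ⊗ Q is surjective on points: its left part is a base
change of Spec k → Spec k[ε] (nilpotent thickening, surjective), and composed with snd it is the identity;
so every point of (Dk k ⊗ Q).left is in its range. -/

namespace LibHM79

open AlgebraicGeometry CategoryTheory MonoidalCategory CartesianMonoidalCategory MonObj Limits TopologicalSpace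

variable {k : Type} [Field k]

theorem fac {Ω T A : SchK k} (j : Ω ⟶ T) [IsOpenImmersion j.left] (f : A ⟶ T)
    (h : ∀ a : A.left, f.left a ∈ Set.range j.left) : ∃ f' : A ⟶ Ω, f' ≫ j = f := by
  have hr : Set.range f.left ⊆ Set.range j.left := by
    rintro _ ⟨a, rfl⟩
    exact h a
  refine ⟨Over.homMk (IsOpenImmersion.lift j.left f.left hr) ?_, ?_⟩
  · rw [← Over.w j, ← Category.assoc, IsOpenImmersion.lift_fac, Over.w]
  · ext1
    exact IsOpenImmersion.lift_fac _ _ _

instance mono_of_open {Ω T : SchK k} (j : Ω ⟶ T) [IsOpenImmersion j.left] : Mono j := by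
  have : Mono ((Over.forget (Spec (CommRingCat.of k))).map j) := by
    show Mono j.left
    infer_instance
  exact (Over.forget (Spec (CommRingCat.of k))).mono_of_mono_map this

private theorem B2_zpt_surj : Surjective (zpt k).left := by
  constructor
  intro x
  have hs : Subsingleton (Dk k).left := by
    show Subsingleton (PrimeSpectrum (DualNumber k))
    have : IsLocalRing (DualNumber k) := inferInstance
    constructor
    intro p q
    have hm : ∀ p : PrimeSpectrum (DualNumber k), p.asIdeal = IsLocalRing.maximalIdeal (DualNumber k) := by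
      intro p
      refine le_antisymm (IsLocalRing.le_maximalIdeal p.2.ne_top) ?_
      intro a ha
      have h1 : a ^ 2 = 0 := by
        have h2 : a.fst = 0 := by
          by_contra hne
          exact ha (TrivSqZeroExt.isUnit_iff_isUnit_fst.2 (isUnit_iff_ne_zero.2 hne))
        ext
        · simp [h2, pow_two]
        · simp [h2, pow_two]
      exact p.2.mem_of_pow_mem 2 (by rw [h1]; exact p.asIdeal.zero_mem)
    exact PrimeSpectrum.ext ((hm p).trans (hm q).symm)
  exact ⟨IsLocalRing.closedPoint k, Subsingleton.elim _ _⟩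

theorem zero_surj (Q : SchK k) :
    Function.Surjective (lift (toUnit Q ≫ zpt k) (𝟙 Q) : Q ⟶ Dk k ⊗ Q).left := by
  have h1 : (lift (toUnit Q ≫ zpt k) (𝟙 Q) : Q ⟶ Dk k ⊗ Q) = (λ_ Q).inv ≫ (zpt k ▷ Q) := by
    apply CartesianMonoidalCategory.hom_ext
    · simp
    · simp
  have h2 : Surjective (zpt k ▷ Q).left := by
    rw [Over.whiskerRight_left]
    have h5 := B2_zpt_surj (k := k)
    have : MorphismProperty.IsStableUnderComposition (@Surjective.{0}) :=
      MorphismProperty.IsMultiplicative.toIsStableUnderComposition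
    exact MorphismProperty.pullbackMap (P := @Surjective.{0}) h5
      (inferInstanceAs (Surjective (𝟙 Q.left))) (Over.w (zpt k)).symm (Category.id_comp _).symm
  have h3 : IsIso (λ_ Q).inv.left :=
    inferInstanceAs (IsIso ((Over.forget (Spec (CommRingCat.of k))).map (λ_ Q).inv))
  rw [h1, Over.comp_left]
  have h4 : Surjective ((λ_ Q).inv.left ≫ (zpt k ▷ Q).left) := inferInstance
  exact h4.surj

theorem facD {Ω T Q : SchK k} (j : Ω ⟶ T) [IsOpenImmersion j.left] (m : Dk k ⊗ Q ⟶ T) (m₀ : Q ⟶ Ω)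
    (h : lift (toUnit Q ≫ zpt k) (𝟙 Q) ≫ m = m₀ ≫ j) :
    ∃ m' : Dk k ⊗ Q ⟶ Ω, m' ≫ j = m ∧ lift (toUnit Q ≫ zpt k) (𝟙 Q) ≫ m' = m₀ := by
  obtain ⟨m', hm'⟩ := fac j m (by
    intro a
    obtain ⟨b, rfl⟩ := zero_surj Q a
    rw [← Scheme.Hom.comp_apply, ← Over.comp_left, h, Over.comp_left, Scheme.Hom.comp_apply]
    exact ⟨_, rfl⟩)
  refine ⟨m', hm', ?_⟩
  rw [← cancel_mono j, Category.assoc, hm', h]

theorem facd {Ω T : SchK k} (j : Ω ⟶ T) [IsOpenImmersion j.left] (d : Dk k ⟶ T)
    (t : 𝟙_ (SchK k) ⟶ Ω) (h : zpt k ≫ d = t ≫ j) :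
    ∃ d' : Dk k ⟶ Ω, d' ≫ j = d ∧ zpt k ≫ d' = t := by
  obtain ⟨d', hd'⟩ := fac j d (by
    intro a
    obtain ⟨b, rfl⟩ := B2_zpt_surj.surj a
    rw [← Scheme.Hom.comp_apply, ← Over.comp_left, h, Over.comp_left, Scheme.Hom.comp_apply]
    exact ⟨_, rfl⟩)
  refine ⟨d', hd', ?_⟩
  rw [← cancel_mono j, Category.assoc, hd', h]

end LibHM79
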