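import Pool.Agent.LibHM79.Defs

/-! B3 (SHORT). The group acts by automorphisms. Plan: functor of points: Hom.mulAction, ModObj.comp_smul
(Mathlib CategoryTheory.Monoidal.Cartesian.Mod), MonObj.comp_mul; act g ≫ act g⁻¹ = 𝟙. -/

namespace LibHM79

open AlgebraicGeometry CategoryTheory MonoidalCategory CartesianMonoidalCategory MonObj Limits TopologicalSpace

variable {k : Type} [Field k] {G X : SchK k} [GrpObj G] [ModObj G X]

theorem comp_act {A : SchK k} (x : A ⟶ X) (g : 𝟙_ (SchK k) ⟶ G) :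
    x ≫ act g = (toUnit A ≫ g) • x := by
  rw [act, ModObj.comp_smul, Category.comp_id, ← Category.assoc, comp_toUnit]

theorem comp_orb {A : SchK k} (u : A ⟶ G) (x₀ : 𝟙_ (SchK k) ⟶ X) :
    u ≫ orb x₀ = u • (toUnit A ≫ x₀) := by
  rw [orb, ModObj.comp_smul, Category.comp_id, ← Category.assoc, comp_toUnit]

theorem act_one : (act (1 : 𝟙_ (SchK k) ⟶ G) : X ⟶ X) = 𝟙 X := by
  rw [act, MonObj.comp_one, one_smul]

instance act_iso (g : 𝟙_ (SchK k) ⟶ G) : IsIso (act g : X ⟶ X) := by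
  refine ⟨act g⁻¹, ?_, ?_⟩
  · rw [comp_act, act, smul_smul, ← MonObj.comp_mul, inv_mul_cancel, MonObj.comp_one, one_smul]
  · rw [comp_act, act, smul_smul, ← MonObj.comp_mul, mul_inv_cancel, MonObj.comp_one, one_smul]

end LibHM79
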