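import Mathlib

/-! C1 (MEDIUM, algebra, ONLY MATHLIB). A finite injective extension A → B of domains, A integrally closed and of
finite type over an algebraically closed field of characteristic 0, with at most one prime of B over
each of a dense set of maximal ideals of A, is an isomorphism.
Plan: let b ∈ B not in the image of A. Its minimal polynomial over K = Frac A has degree n ≥ 2 (if b ∈ K then b ∈ A
by integral closure) and coefficients in A (A integrally closed: minpoly.isIntegrallyClosed_eq_field_fractions).
Its discriminant d ∈ A is nonzero (char 0, irreducible so separable). Take m ∈ D with d ∉ m: modulo m the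
polynomial has n ≥ 2 distinct roots c₁ ≠ c₂ in A/m = k; A[b] = A[T]/(minpoly) (A integrally closed) has two distinct
maximal ideals over m ((m, b - c₁), (m, b - c₂)), each is the contraction of a prime of B (B integral over
A[b]): two distinct primes of B over m. Alternative for the discriminant: a Bezout relation u f + v f' = d in A[T]. -/

namespace LibHM79

open Polynomial

private theorem C1_point {k A : Type} [Field k] [IsAlgClosed k] [CommRing A] [Algebra k A]
    [Algebra.FiniteType k A] (m : Ideal A) (hm : m.IsMaximal) :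
    ∃ π : A →+* k, Function.Surjective π ∧ RingHom.ker π = m := by
  let _ : Field (A ⧸ m) := Ideal.Quotient.field m
  have hft : Algebra.FiniteType k (A ⧸ m) :=
    Algebra.FiniteType.of_surjective (Ideal.Quotient.mkₐ k m) (Ideal.Quotient.mkₐ_surjective k m)
  have hfin : Module.Finite k (A ⧸ m) := finite_of_finite_type_of_isJacobsonRing k (A ⧸ m)
  have hbij : Function.Bijective (algebraMap k (A ⧸ m)) :=
    IsAlgClosed.algebraMap_bijective_of_isIntegral
  let e : k ≃+* (A ⧸ m) := RingEquiv.ofBijective _ hbij
  refine ⟨(e.symm : (A ⧸ m) →+* k).comp (Ideal.Quotient.mk m),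
    e.symm.surjective.comp Ideal.Quotient.mk_surjective, ?_⟩
  ext a
  rw [RingHom.mem_ker, RingHom.comp_apply]
  constructor
  · intro h
    have h1 : e.symm (Ideal.Quotient.mk m a) = 0 := h
    rw [map_eq_zero_iff _ e.symm.injective] at h1
    exact Ideal.Quotient.eq_zero_iff_mem.1 h1
  · intro h
    have h1 : Ideal.Quotient.mk m a = 0 := Ideal.Quotient.eq_zero_iff_mem.2 h
    rw [h1, map_zero]

private theorem C1_bezout {A : Type} [CommRing A] [IsDomain A] [IsIntegrallyClosed A] [CharZero A]
    (f : A[X]) (hf : f.Monic) (hirr : Irreducible f) :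
    ∃ (u v : A[X]) (d : A), d ≠ 0 ∧ u * f + v * derivative f = C d := by
  let K := FractionRing A
  have hKinj : Function.Injective (algebraMap A K) := IsFractionRing.injective A K
  have : CharZero K := charZero_of_injective_algebraMap hKinj
  have h1 : Irreducible (f.map (algebraMap A K)) :=
    (hf.irreducible_iff_irreducible_map_fraction_map (K := K)).1 hirr
  have h2 : (f.map (algebraMap A K)).Separable := h1.separable
  obtain ⟨u, v, huv⟩ := h2
  obtain ⟨s, hs0, hs⟩ := IsLocalization.integerNormalization_spec (nonZeroDivisors A) u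
  obtain ⟨t, ht0, ht⟩ := IsLocalization.integerNormalization_spec (nonZeroDivisors A) v
  set u' := IsLocalization.integerNormalization (nonZeroDivisors A) u
  set v' := IsLocalization.integerNormalization (nonZeroDivisors A) v
  refine ⟨C t * u', C s * v', s * t,
    mul_ne_zero (nonZeroDivisors.ne_zero hs0) (nonZeroDivisors.ne_zero ht0), ?_⟩
  apply Polynomial.map_injective _ hKinj
  rw [Polynomial.map_add, Polynomial.map_mul, Polynomial.map_mul, Polynomial.map_mul,
    Polynomial.map_mul, map_C, map_C, map_C, hs, ht, ← derivative_map]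
  have e1 : ∀ (a : A) (p : K[X]), a • p = C (algebraMap A K a) * p := by
    intro a p
    rw [← smul_eq_C_mul, algebraMap_smul]
  rw [e1, e1, map_mul, map_mul]
  calc C (algebraMap A K t) * (C (algebraMap A K s) * u) * map (algebraMap A K) f
      + C (algebraMap A K s) * (C (algebraMap A K t) * v) * derivative (map (algebraMap A K) f)
      = C (algebraMap A K s) * C (algebraMap A K t) * (u * map (algebraMap A K) f
        + v * derivative (map (algebraMap A K) f)) := by ring
    _ = C (algebraMap A K s) * C (algebraMap A K t) := by rw [huv, mul_one]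

theorem degree_one {k A B : Type} [Field k] [IsAlgClosed k] [CharZero k] [CommRing A] [IsDomain A]
    [IsIntegrallyClosed A] [Algebra k A] [Algebra.FiniteType k A] [CommRing B] [IsDomain B]
    [Algebra A B] [Module.Finite A B] (hinj : Function.Injective (algebraMap A B))
    (D : Set (PrimeSpectrum A))
    (hD : ∀ a : A, a ≠ 0 → ∃ m ∈ D, m.asIdeal.IsMaximal ∧ a ∉ m.asIdeal)
    (hD1 : ∀ m ∈ D, {q : PrimeSpectrum B | PrimeSpectrum.comap (algebraMap A B) q = m}.Subsingleton) :
    Function.Bijective (algebraMap A B) := by
  classical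
  have : FaithfulSMul A B := (faithfulSMul_iff_algebraMap_injective A B).2 hinj
  have : CharZero A := charZero_of_injective_algebraMap (algebraMap k A).injective
  refine ⟨hinj, fun b => ?_⟩
  have hint : IsIntegral A b := Algebra.IsIntegral.isIntegral b
  set f := minpoly A b with hf
  have hmon : f.Monic := minpoly.monic hint
  have hirr : Irreducible f := minpoly.irreducible hint
  by_cases hn : f.natDegree ≤ 1
  · have hdeg : f.natDegree = 1 := le_antisymm hn (minpoly.natDegree_pos hint)
    have h1 : f = X + C (f.coeff 0) := hmon.eq_X_add_C hdeg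
    have h2 : aeval b f = 0 := minpoly.aeval A b
    rw [h1, map_add, aeval_X, aeval_C] at h2
    refine ⟨-(f.coeff 0), ?_⟩
    rw [map_neg]
    exact (eq_neg_of_add_eq_zero_left h2).symm
  · exfalso
    push Not at hn
    obtain ⟨u, v, d, hd, huv⟩ := C1_bezout f hmon hirr
    obtain ⟨m, hmD, hmax, hdm⟩ := hD d hd
    obtain ⟨π, hsurj, hπ⟩ := C1_point (k := k) m.asIdeal hmax
    have hπd : π d ≠ 0 := by
      intro h
      apply hdm
      rw [← hπ]
      exact h
    have hsep : (f.map π).Separable := by
      have h1 := congrArg (Polynomial.map π) huv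
      rw [Polynomial.map_add, Polynomial.map_mul, Polynomial.map_mul, map_C, ← derivative_map] at h1
      refine ⟨C (π d)⁻¹ * u.map π, C (π d)⁻¹ * v.map π, ?_⟩
      calc C (π d)⁻¹ * map π u * map π f + C (π d)⁻¹ * map π v * derivative (map π f)
          = C (π d)⁻¹ * (map π u * map π f + map π v * derivative (map π f)) := by ring
        _ = 1 := by rw [h1, ← C_mul, inv_mul_cancel₀ hπd, C_1]
    have hcard : 1 < (f.map π).roots.toFinset.card := by
      rw [Multiset.toFinset_card_of_nodup (nodup_roots hsep),
        ← (IsAlgClosed.splits (f.map π)).natDegree_eq_card_roots, hmon.natDegree_map]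
      exact hn
    obtain ⟨c₁, hc₁, c₂, hc₂, hne⟩ := Finset.one_lt_card.1 hcard
    have hroot : ∀ c, c ∈ (f.map π).roots.toFinset → f.eval₂ π c = 0 := by
      intro c hc
      rw [Multiset.mem_toFinset, mem_roots'] at hc
      rw [← eval_map]
      exact hc.2
    letI : Algebra A[X] B := (aeval b : A[X] →ₐ[A] B).toRingHom.toAlgebra
    have halg : ∀ p : A[X], algebraMap A[X] B p = aeval b p := fun p => rfl
    haveI : IsScalarTower A A[X] B := IsScalarTower.of_algebraMap_eq fun a => by
      rw [halg, algebraMap_eq, aeval_C]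
    haveI : Algebra.IsIntegral A[X] B := Algebra.IsIntegral.tower_top A
    -- lying over
    have hQ : ∀ c, f.eval₂ π c = 0 → ∃ Q : PrimeSpectrum B,
        PrimeSpectrum.comap (algebraMap A B) Q = m ∧
        ∀ a : A, (b - algebraMap A B a ∈ Q.asIdeal ↔ c = π a) := by
      intro c hc
      let P : Ideal A[X] := RingHom.ker (eval₂RingHom π c)
      haveI : P.IsPrime := RingHom.ker_isPrime _
      have hle : (⊥ : Ideal B).comap (algebraMap A[X] B) ≤ P := by
        intro p hp
        rw [Ideal.mem_comap, Ideal.mem_bot, halg] at hp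
        obtain ⟨q, rfl⟩ := minpoly.isIntegrallyClosed_dvd hint hp
        rw [RingHom.mem_ker, map_mul, coe_eval₂RingHom, ← hf, hc, zero_mul]
      obtain ⟨Q, _, hQp, hQ⟩ := Ideal.exists_ideal_over_prime_of_isIntegral P ⊥ hle
      have hmem : ∀ p : A[X], aeval b p ∈ Q ↔ p.eval₂ π c = 0 := by
        intro p
        rw [← halg, ← Ideal.mem_comap, hQ, RingHom.mem_ker, coe_eval₂RingHom]
      refine ⟨⟨Q, hQp⟩, ?_, ?_⟩
      · apply PrimeSpectrum.ext
        ext a
        rw [PrimeSpectrum.comap_asIdeal, Ideal.mem_comap]
        have h1 := hmem (C a)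
        rw [aeval_C, eval₂_C] at h1
        rw [h1, ← hπ, RingHom.mem_ker]
      · intro a
        have h1 := hmem (X - C a)
        rw [map_sub, aeval_X, aeval_C, eval₂_sub, eval₂_X, eval₂_C, sub_eq_zero] at h1
        exact h1
    obtain ⟨Q₁, hQ₁, h₁⟩ := hQ c₁ (hroot c₁ hc₁)
    obtain ⟨Q₂, hQ₂, h₂⟩ := hQ c₂ (hroot c₂ hc₂)
    have heq : Q₁ = Q₂ := hD1 m hmD hQ₁ hQ₂
    obtain ⟨a, ha⟩ := hsurj c₁
    apply hne
    rw [← ha]
    rw [heq] at h₁
    exact ((h₂ a).1 ((h₁ a).2 ha.symm)).symm

end LibHM79
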