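import Pool.Agent.LibHM79.C1

/-! C2 (MEDIUM). The scheme version of C1. Plan: IsIso is local on the target (affine open cover of U): for an
affine open V = Spec A of U, f ⁻¹ V = Spec B with A → B finite; injective since f is dominant and U reduced; A is
integrally closed since all its localizations at primes are (stalks); Set D ∩ V. -/

namespace LibHM79

open AlgebraicGeometry CategoryTheory MonoidalCategory CartesianMonoidalCategory MonObj Limits TopologicalSpace

private theorem C2_intClosed (U : Scheme.{0}) [IsIntegral U]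
    (hU : ∀ u : U, IsIntegrallyClosed (U.presheaf.stalk u)) (V : U.Opens) (hV : IsAffineOpen V)
    [Nonempty V] : IsIntegrallyClosed Γ(U, V) := by
  refine IsIntegrallyClosed.of_localization_maximal fun P _ hP => ?_
  let y : Spec Γ(U, V) := (⟨P, hP.isPrime⟩ : PrimeSpectrum Γ(U, V))
  let alg : Algebra Γ(U, V) (U.presheaf.stalk (hV.fromSpec y)) :=
    TopCat.Presheaf.algebra_section_stalk U.presheaf ⟨hV.fromSpec y, (hV.isoSpec.inv _).2⟩
  have hloc : @IsLocalization.AtPrime (R := Γ(U, V))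
      (S := U.presheaf.stalk (hV.fromSpec y)) _ _ alg P hP.isPrime :=
    hV.isLocalization_stalk' ⟨P, hP.isPrime⟩ (hV.isoSpec.inv _).2
  have hs := hU (hV.fromSpec y)
  exact IsIntegrallyClosed.of_equiv (IsLocalization.algEquiv P.primeCompl
    (U.presheaf.stalk (hV.fromSpec y)) (Localization.AtPrime P)).toRingEquiv

private theorem C2_app {k : Type} [Field k] [IsAlgClosed k] [CharZero k] (Γ' U : Scheme.{0})
    (s : U ⟶ Spec (CommRingCat.of k)) [LocallyOfFiniteType s] [IsIntegral U] [IsIntegral Γ']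
    (hU : ∀ u : U, IsIntegrallyClosed (U.presheaf.stalk u)) (f : Γ' ⟶ U) [IsFinite f]
    [Surjective f] (D : Set U)
    (hD : ∀ V : U.Opens, (V : Set U).Nonempty → ∃ d ∈ D, d ∈ V ∧ IsClosed {d})
    (hD1 : ∀ d ∈ D, (f ⁻¹' {d}).Subsingleton) (V : U.Opens) (hV : IsAffineOpen V)
    (hVn : (V : Set U).Nonempty) : IsIso (f.app V) := by
  have hne : Nonempty V := hVn.to_subtype
  have hW : IsAffineOpen (f ⁻¹ᵁ V) := hV.preimage f
  have hneW : Nonempty (f ⁻¹ᵁ V : Γ'.Opens) := by
    obtain ⟨v, hv⟩ := hVn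
    obtain ⟨w, hw⟩ := f.surjective v
    exact ⟨⟨w, show f w ∈ V by rw [hw]; exact hv⟩⟩
  have hle : V ≤ s ⁻¹ᵁ ⊤ := le_top
  have hic := C2_intClosed U hU V hV
  have hft : (s.appLE ⊤ V hle).hom.FiniteType :=
    s.finiteType_appLE (isAffineOpen_top _) hV hle
  have hfin : (f.app V).hom.Finite := f.finite_app V hV
  letI : Algebra k Γ(U, V) :=
    ((s.appLE ⊤ V hle).hom.comp (Scheme.ΓSpecIso (CommRingCat.of k)).inv.hom).toAlgebra
  letI : Algebra Γ(U, V) Γ(Γ', f ⁻¹ᵁ V) := (f.app V).hom.toAlgebra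
  haveI : Algebra.FiniteType k Γ(U, V) := by
    have h1 : ((s.appLE ⊤ V hle).hom.comp (Scheme.ΓSpecIso (CommRingCat.of k)).inv.hom).FiniteType :=
      hft.comp (RingHom.FiniteType.of_surjective _
        (ConcreteCategory.bijective_of_isIso (Scheme.ΓSpecIso (CommRingCat.of k)).inv).2)
    exact h1
  haveI : Module.Finite Γ(U, V) Γ(Γ', f ⁻¹ᵁ V) := hfin
  have hinj : Function.Injective (algebraMap Γ(U, V) Γ(Γ', f ⁻¹ᵁ V)) := by
    rw [injective_iff_map_eq_zero]
    intro a ha
    have ha' : f.app V a = 0 := ha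
    have h1 : f ⁻¹ᵁ U.basicOpen a = ⊥ := by
      rw [Scheme.preimage_basicOpen, ha', Scheme.basicOpen_zero]
    rw [← basicOpen_eq_bot_iff, eq_bot_iff]
    intro x hx
    obtain ⟨w, hw⟩ := f.surjective x
    have h2 : w ∈ f ⁻¹ᵁ U.basicOpen a := by
      show f w ∈ U.basicOpen a
      rw [hw]; exact hx
    rw [h1] at h2
    exact absurd h2 (by simp)
  have hcomm : Spec.map (f.app V) ≫ hV.fromSpec = hW.fromSpec ≫ f := by
    have := hV.SpecMap_appLE_fromSpec f hW le_rfl
    rwa [← Scheme.Hom.app_eq_appLE] at this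
  have hbij := degree_one (k := k) (A := Γ(U, V)) (B := Γ(Γ', f ⁻¹ᵁ V)) hinj
    {m | hV.fromSpec m ∈ D ∧ m.asIdeal.IsMaximal} (by
      intro a ha
      have h1 : ((U.basicOpen a : U.Opens) : Set U).Nonempty := by
        by_contra hcon
        rw [Set.not_nonempty_iff_eq_empty] at hcon
        apply ha
        rw [← basicOpen_eq_bot_iff]
        exact TopologicalSpace.Opens.ext hcon
      obtain ⟨d, hdD, hda, hdc⟩ := hD _ h1
      have hdV : d ∈ V := U.basicOpen_le a hda
      have h2 : d ∈ Set.range hV.fromSpec := by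
        rw [hV.range_fromSpec]; exact hdV
      obtain ⟨m, rfl⟩ := h2
      have hmax : m.asIdeal.IsMaximal := by
        have h3 : ({m} : Set (Spec Γ(U, V))) = hV.fromSpec ⁻¹' {hV.fromSpec m} := by
          ext x
          constructor
          · rintro rfl; rfl
          · intro hx; exact hV.fromSpec.isOpenEmbedding.injective hx
        refine (PrimeSpectrum.isClosed_singleton_iff_isMaximal
          (m : PrimeSpectrum Γ(U, V))).1 ?_
        have h4 : IsClosed ({m} : Set (Spec Γ(U, V))) := by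
          rw [h3]
          exact hdc.preimage hV.fromSpec.continuous
        exact h4
      refine ⟨m, ⟨hdD, hmax⟩, hmax, ?_⟩
      have h4 : m ∈ hV.fromSpec ⁻¹ᵁ U.basicOpen a := hda
      rw [hV.fromSpec_preimage_basicOpen] at h4
      exact h4)
    (by
      intro m hm q1 hq1 q2 hq2
      have key : ∀ q : PrimeSpectrum Γ(Γ', f ⁻¹ᵁ V),
          PrimeSpectrum.comap (algebraMap Γ(U, V) Γ(Γ', f ⁻¹ᵁ V)) q = m →
          f (hW.fromSpec q) = hV.fromSpec m := by
        intro q hq
        have h1 : (Spec.map (f.app V) ≫ hV.fromSpec) q = (hW.fromSpec ≫ f) q := by rw [hcomm]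
        rw [Scheme.Hom.comp_apply, Scheme.Hom.comp_apply] at h1
        rw [← h1, ← hq]
        rfl
      have h2 := hD1 _ hm.1 (show hW.fromSpec q1 ∈ f ⁻¹' {hV.fromSpec m} from key q1 hq1)
        (show hW.fromSpec q2 ∈ f ⁻¹' {hV.fromSpec m} from key q2 hq2)
      exact hW.fromSpec.isOpenEmbedding.injective h2)
  exact (ConcreteCategory.isIso_iff_bijective (f.app V)).2 hbij

theorem degree_one_scheme {k : Type} [Field k] [IsAlgClosed k] [CharZero k] (Γ' U : Scheme.{0})
    (s : U ⟶ Spec (CommRingCat.of k)) [LocallyOfFiniteType s] [IsIntegral U] [IsIntegral Γ']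
    (hU : ∀ u : U, IsIntegrallyClosed (U.presheaf.stalk u)) (f : Γ' ⟶ U) [IsFinite f]
    [Surjective f] (D : Set U)
    (hD : ∀ V : U.Opens, (V : Set U).Nonempty → ∃ d ∈ D, d ∈ V ∧ IsClosed {d})
    (hD1 : ∀ d ∈ D, (f ⁻¹' {d}).Subsingleton) : IsIso f := by
  refine IsZariskiLocalAtTarget.of_iSup_eq_top (P := MorphismProperty.isomorphisms Scheme)
    (fun V : {V : U.Opens // IsAffineOpen V ∧ (V : Set U).Nonempty} => V.1) ?_ fun V => ?_
  · rw [eq_top_iff]
    intro x _
    obtain ⟨V, hV, hxV, -⟩ := TopologicalSpace.Opens.isBasis_iff_nbhd.1 U.isBasis_affineOpens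
      (show x ∈ (⊤ : U.Opens) from trivial)
    exact TopologicalSpace.Opens.mem_iSup.2 ⟨⟨V, hV, ⟨x, hxV⟩⟩, hxV⟩
  · exact (isIso_morphismRestrict_iff_isIso_app f V.2.1).2
      (C2_app Γ' U s hU f D hD hD1 V.1 V.2.1 V.2.2)

end LibHM79
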