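import Mathlib

namespace LibHM79

open AlgebraicGeometry CategoryTheory MonoidalCategory CartesianMonoidalCategory MonObj Limits TopologicalSpace

set_option backward.isDefEq.respectTransparency.types false in
private theorem C3_ri : MorphismProperty.RespectsIso (@IsFinite.{0}) := inferInstance

set_option backward.isDefEq.respectTransparency.types false in
private theorem C3_loc : IsZariskiLocalAtTarget (@IsFinite.{0}) := inferInstance

theorem finite_nhd (Γ' W : Scheme.{0}) [JacobsonSpace W] (f : Γ' ⟶ W) [IsProper f] (C : Set W)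
    (hC : IsClosed C) (hC1 : ∀ w ∈ C, IsClosed {w} → (f ⁻¹' {w}).Finite) :
    ∃ U : W.Opens, C ⊆ U ∧ IsFinite (f ∣_ U) := by
  have h1 : ∀ w : {w : W // w ∈ C ∧ IsClosed {w}}, ∃ V : W.Opens, w.1 ∈ V ∧ IsFinite (f ∣_ V) :=
    fun w => exists_isFinite_morphismRestrict_of_finite_preimage_singleton f w.1
      (hC1 w.1 w.2.1 w.2.2)
  choose V hV hfin using h1
  refine ⟨⨆ w, V w, ?_, ?_⟩
  · rw [← Set.sdiff_eq_empty, ← Set.not_nonempty_iff_eq_empty]
    intro hne
    obtain ⟨x, hx, hxc⟩ := nonempty_inter_closedPoints hne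
      (hC.isLocallyClosed.inter (⨆ w, V w).isOpen.isClosed_compl.isLocallyClosed)
    exact hx.2 (Opens.mem_iSup.2 ⟨⟨x, hx.1, hxc⟩, hV _⟩)
  · have hloc := C3_loc
    refine IsZariskiLocalAtTarget.of_forall_exists_morphismRestrict (P := @IsFinite) (fun x => ?_)
    obtain ⟨w, hw⟩ := Opens.mem_iSup.1 x.2
    refine ⟨(⨆ w, V w).ι ⁻¹ᵁ V w, hw, ?_⟩
    have hri := C3_ri
    refine (MorphismProperty.arrow_mk_iso_iff (@IsFinite)
      (morphismRestrictRestrict f (⨆ w, V w) ((⨆ w, V w).ι ⁻¹ᵁ V w))).2 ?_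
    have h2 : (⨆ w, V w).ι ''ᵁ ((⨆ w, V w).ι ⁻¹ᵁ V w) = V w := by
      rw [Scheme.Hom.image_preimage_eq_opensRange_inf, Scheme.Opens.opensRange_ι,
        inf_eq_right.2 (le_iSup V w)]
    rw [h2]
    exact hfin w

end LibHM79
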