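import Pool.Agent.LibHM79.B1
import Pool.Agent.LibHM79.B2
import Pool.Agent.LibHM79.C2
import Pool.Agent.LibHM79.C3

/-! C4 (STRONG). The rigidity lemma. Plan: f := τ.left : Q → W × Z (schemes), Γ := scheme theoretic image
f.image with closed immersion f.imageι, whose range is closure (range f) = range f; Γ is integral (Q integral);
γ := f.imageι ≫ (fst W Z).left is proper (Z proper, W separated is not needed: fst is a base change of Z.hom). The fibre γ⁻¹{w} is
range f ∩ fst⁻¹{w} (via the injective imageι). By finite_nhd there is an open U ⊇ C with γ|U finite; γ is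
surjective. For d ∈ D ∩ U closed the fibre is finite (γ|U finite) and preconnected, its points are closed: it
has at most one point. By degree_one_scheme γ|U is an isomorphism (U integral, locally of finite type over k, stalks as
those of W). If C is empty U may be empty: treat separately (Ω = empty scheme / or U := ⊥ works as well:
then any t' : T → Ω = ∅ makes T empty). Ω := U as a scheme over k, α := inv (γ|U) ≫ (Γ|U → Γ → W × Z → Z).
The last property: t ≫ τ : T → W × Z factors through Γ (f.toImage), its first component lies in U, so it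
factors through Γ|U and its image under γ|U is t'. -/

namespace LibHM79

open AlgebraicGeometry CategoryTheory MonoidalCategory CartesianMonoidalCategory MonObj Limits TopologicalSpace

variable {k : Type} [Field k] [IsAlgClosed k] [CharZero k]

omit [IsAlgClosed k] [CharZero k] in
/-- the scheme theoretic image of a reduced scheme is reduced -/
private theorem c4_reduced {X Y : Scheme.{0}} (f : X ⟶ Y) [QuasiCompact f] [IsReduced X] :
    IsReduced f.image := by
  let V : Y.affineOpens → f.image.Opens := fun U => f.imageι ⁻¹ᵁ U.1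
  have hV : IsOpenCover V := by
    have h := iSup_affineOpens_eq_top Y
    rw [IsOpenCover]
    ext x
    have hx : f.imageι x ∈ (⨆ U : Y.affineOpens, (U : Y.Opens)) := by rw [h]; trivial
    obtain ⟨U, hU⟩ := Opens.mem_iSup.mp hx
    simp only [Opens.coe_iSup, Opens.coe_top, Set.mem_iUnion, Set.mem_univ, iff_true]
    exact ⟨U, hU⟩
  refine @IsReduced.of_openCover _ (f.image.openCoverOfIsOpenCover V hV) ?_
  intro U
  change IsReduced (V U).toScheme
  have hA : IsAffineOpen (V U) := U.2.preimage f.imageι
  have : IsAffine (V U).toScheme := hA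
  have h1 : _root_.IsReduced Γ(f.image, V U) := by
    have hinj := f.toImage_app_injective U
    exact isReduced_of_injective (f.toImage.app (V U)).hom hinj
  have h2 : _root_.IsReduced Γ((V U).toScheme, ⊤) := by
    have e := (V U).topIso
    exact isReduced_of_injective e.hom.hom
      (ConcreteCategory.bijective_of_isIso e.hom).injective
  exact isReduced_of_isAffine_isReduced _

omit [IsAlgClosed k] [CharZero k] in
private theorem c4_toImage_surj {X Y : Scheme.{0}} (f : X ⟶ Y) [QuasiCompact f]
    (hcl : IsClosed (Set.range f)) : Function.Surjective f.toImage := by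
  intro x
  have h1 : f.imageι x ∈ Set.range f := by
    have : f.imageι x ∈ Set.range f.imageι := ⟨x, rfl⟩
    rw [Scheme.IdealSheafData.range_subschemeι, Scheme.Hom.support_ker, hcl.closure_eq] at this
    exact this
  obtain ⟨q, hq⟩ := h1
  refine ⟨q, ?_⟩
  apply f.imageι.isEmbedding.injective
  rw [← hq, ← Scheme.Hom.comp_apply, f.toImage_imageι]

omit [IsAlgClosed k] [CharZero k] in
private theorem c4_integral {X Y : Scheme.{0}} (f : X ⟶ Y) [QuasiCompact f] [IsIntegral X]
    (hcl : IsClosed (Set.range f)) : IsIntegral f.image := by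
  have h1 := c4_reduced f
  have h2 : IrreducibleSpace f.image := by
    have hs := c4_toImage_surj f hcl
    have h3 : IsIrreducible (Set.range f.toImage) := by
      rw [← Set.image_univ]
      exact (IrreducibleSpace.isIrreducible_univ X).image _ f.toImage.continuous.continuousOn
    rw [hs.range_eq] at h3
    exact irreducibleSpace_def _ |>.mpr h3
  exact isIntegral_of_irreducibleSpace_of_isReduced _

theorem rig (W Q Z : SchK k) [IsIntegral W.left] [LocallyOfFiniteType W.hom]
    (hW : ∀ x : W.left, IsIntegrallyClosed (W.left.presheaf.stalk x)) [IsIntegral Q.left]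
    [QuasiCompact Q.hom] [IsProper Z.hom] [IsSeparated W.hom] (τ : Q ⟶ W ⊗ Z)
    (hcl : IsClosed (Set.range τ.left)) (hs : Function.Surjective (τ ≫ fst W Z).left)
    (C : Set W.left) (hC : IsClosed C)
    (hC1 : ∀ w ∈ C, IsClosed {w} → (Set.range τ.left ∩ (fst W Z).left ⁻¹' {w}).Finite)
    (D : Set W.left)
    (hD : ∀ V : W.left.Opens, (V : Set W.left).Nonempty → ∃ d ∈ D, d ∈ V ∧ IsClosed {d})
    (hD1 : ∀ d ∈ D, _root_.IsPreconnected (Set.range τ.left ∩ (fst W Z).left ⁻¹' {d})) :
    ∃ (Ω : SchK k) (j : Ω ⟶ W) (α : Ω ⟶ Z), IsOpenImmersion j.left ∧ C ⊆ Set.range j.left ∧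
      ∀ (T : SchK k) (t : T ⟶ Q) (t' : T ⟶ Ω), t' ≫ j = t ≫ τ ≫ fst W Z →
        t ≫ τ ≫ snd W Z = t' ≫ α := by
  -- the image
  have hqs : IsSeparated (W ⊗ Z).hom := by dsimp; infer_instance
  have hqc : QuasiCompact τ.left := by
    have h1 : QuasiCompact (τ.left ≫ (W ⊗ Z).hom) := by rw [Over.w]; infer_instance
    exact .of_comp τ.left (W ⊗ Z).hom
  have hpr : IsProper (fst W Z).left := by dsimp; infer_instance
  let f : Q.left ⟶ (W ⊗ Z).left := τ.left
  let gm : f.image ⟶ W.left := f.imageι ≫ (fst W Z).left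
  have hgmp : IsProper gm := by
    change IsProper (f.imageι ≫ (fst W Z).left)
    infer_instance
  have hgmi : IsIntegral f.image := c4_integral f hcl
  have hjac : JacobsonSpace W.left := LocallyOfFiniteType.jacobsonSpace (Y := Spec _) W.hom
  have hrange : Set.range f.imageι = Set.range τ.left := by
    rw [Scheme.IdealSheafData.range_subschemeι, Scheme.Hom.support_ker]
    exact hcl.closure_eq
  have hpre : ∀ w : W.left, f.imageι '' (gm ⁻¹' {w}) = Set.range τ.left ∩ (fst W Z).left ⁻¹' {w} := by
    intro w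
    have : gm ⁻¹' {w} = f.imageι ⁻¹' ((fst W Z).left ⁻¹' {w}) := by
      ext x
      simp only [gm, Set.mem_preimage, Scheme.Hom.comp_apply]
    rw [this, Set.image_preimage_eq_inter_range, hrange, Set.inter_comm]
  have hinj : Function.Injective f.imageι := f.imageι.isEmbedding.injective
  obtain ⟨U, hCU, hfin⟩ := finite_nhd f.image W.left gm C hC (by
    intro w hw hw'
    have h1 := hC1 w hw hw'
    rw [← hpre w] at h1
    exact h1.of_finite_image hinj.injOn)
  have hgms : Function.Surjective gm := by
    intro w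
    obtain ⟨q, hq⟩ := hs w
    refine ⟨f.toImage q, ?_⟩
    have h : f.imageι (f.toImage q) = τ.left q := by
      rw [← Scheme.Hom.comp_apply, f.toImage_imageι]
    change (f.imageι ≫ (fst W Z).left) (f.toImage q) = w
    rw [Scheme.Hom.comp_apply, h, ← hq, Over.comp_left, Scheme.Hom.comp_apply]
  by_cases hU : Nonempty U
  · -- the main case
    have hUi : IsIntegral U.toScheme := inferInstance
    obtain ⟨u₀⟩ := hU
    obtain ⟨x₀, hx₀⟩ := hgms u₀.1
    have hne : Nonempty (gm ⁻¹ᵁ U : f.image.Opens) := ⟨⟨x₀, by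
      change gm x₀ ∈ U
      rw [hx₀]; exact u₀.2⟩⟩
    have hVi : IsIntegral (gm ⁻¹ᵁ U).toScheme := inferInstance
    have hsurj : Surjective (gm ∣_ U) := by
      constructor
      rw [morphismRestrict_base]
      exact hgms.restrictPreimage _
    have hiso : IsIso (gm ∣_ U) := by
      refine degree_one_scheme (gm ⁻¹ᵁ U).toScheme U.toScheme (U.ι ≫ W.hom) ?_ (gm ∣_ U)
        {u | U.ι u ∈ D ∧ IsClosed {U.ι u}} ?_ ?_
      · intro u
        have e := asIso (U.ι.stalkMap u)
        have := hW (U.ι u)
        exact IsIntegrallyClosed.of_equiv e.commRingCatIsoToRingEquiv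
      · intro V hV
        obtain ⟨v, hv⟩ := hV
        obtain ⟨d, hd, hdV, hdc⟩ := hD (U.ι ''ᵁ V) ⟨U.ι v, ⟨v, hv, rfl⟩⟩
        obtain ⟨v', hv', rfl⟩ := hdV
        refine ⟨v', ⟨hd, hdc⟩, hv', ?_⟩
        have : ({v'} : Set U) = U.ι ⁻¹' {U.ι v'} := by
          ext x
          simp only [Set.mem_singleton_iff, Set.mem_preimage]
          exact ⟨fun h => by rw [h], fun h => U.ι.isOpenEmbedding.injective h⟩
        rw [this]
        exact hdc.preimage U.ι.continuous
      · rintro d ⟨hd, hdc⟩
        have h1 : _root_.IsDiscrete ((gm ∣_ U) ⁻¹' {d}) := (gm ∣_ U).isDiscrete_preimage_singleton d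
        have h2 : _root_.IsPreconnected ((gm ∣_ U) ⁻¹' {d}) := by
          have h3 := hD1 _ hd
          rw [← hpre, f.imageι.isEmbedding.toIsInducing.isPreconnected_image] at h3
          have h4 : (gm ⁻¹ᵁ U).ι '' ((gm ∣_ U) ⁻¹' {d}) = gm ⁻¹' {U.ι d} := by
            have h5 : (gm ∣_ U) ⁻¹' {d} = (gm ⁻¹ᵁ U).ι ⁻¹' (gm ⁻¹' {U.ι d}) := by
              ext x
              simp only [Set.mem_preimage, Set.mem_singleton_iff]
              rw [← Scheme.Hom.comp_apply, ← morphismRestrict_ι, Scheme.Hom.comp_apply]
              exact ⟨fun h => by rw [h], fun h => U.ι.isOpenEmbedding.injective h⟩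
            rw [h5, Set.image_preimage_eq_inter_range, Set.inter_eq_left]
            intro x hx
            rw [Scheme.Opens.range_ι]
            change gm x ∈ U
            rw [show gm x = U.ι d from hx]
            exact d.2
          rw [← h4, (gm ⁻¹ᵁ U).ι.isOpenEmbedding.isInducing.isPreconnected_image] at h3
          exact h3
        have h6 : DiscreteTopology ((gm ∣_ U) ⁻¹' {d}) := isDiscrete_iff_discreteTopology.mp h1
        have h7 : PreconnectedSpace ((gm ∣_ U) ⁻¹' {d}) := isPreconnected_iff_preconnectedSpace.mp h2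
        rw [← Set.subsingleton_coe]
        exact (PreconnectedSpace.trivial_of_discrete)
    let Ω : SchK k := Over.mk (U.ι ≫ W.hom)
    let j : Ω ⟶ W := Over.homMk U.ι
    let α : Ω ⟶ Z := Over.homMk (inv (gm ∣_ U) ≫ (gm ⁻¹ᵁ U).ι ≫ f.imageι ≫ (snd W Z).left) (by
      have h1 : (snd W Z).left ≫ Z.hom = (fst W Z).left ≫ W.hom := by
        rw [Over.w, Over.w]
      change (inv (gm ∣_ U) ≫ (gm ⁻¹ᵁ U).ι ≫ f.imageι ≫ (snd W Z).left) ≫ Z.hom = U.ι ≫ W.hom
      rw [Category.assoc, Category.assoc, Category.assoc, h1, IsIso.inv_comp_eq,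
        ← Category.assoc (gm ∣_ U), morphismRestrict_ι]
      simp only [gm, Category.assoc])
    refine ⟨Ω, j, α, inferInstanceAs (IsOpenImmersion U.ι), ?_, ?_⟩
    · change C ⊆ Set.range U.ι
      rw [Scheme.Opens.range_ι]
      exact hCU
    · intro T t t' ht
      apply Over.OverMorphism.ext
      have h1 : t'.left ≫ U.ι = t.left ≫ τ.left ≫ (fst W Z).left := congrArg CommaMorphism.left ht
      have h2 : (t.left ≫ f.toImage) ≫ gm = t'.left ≫ U.ι := by
        rw [h1]
        simp only [gm, Category.assoc]
        rw [f.toImage_imageι_assoc]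
      have hP := isPullback_morphismRestrict gm U
      let s : T.left ⟶ (gm ⁻¹ᵁ U).toScheme := hP.lift t'.left (t.left ≫ f.toImage) h2.symm
      have hs1 : s ≫ (gm ∣_ U) = t'.left := hP.lift_fst _ _ _
      have hs2 : s ≫ (gm ⁻¹ᵁ U).ι = t.left ≫ f.toImage := hP.lift_snd _ _ _
      change t.left ≫ τ.left ≫ (snd W Z).left =
        t'.left ≫ inv (gm ∣_ U) ≫ (gm ⁻¹ᵁ U).ι ≫ f.imageι ≫ (snd W Z).left
      rw [← hs1, Category.assoc, IsIso.hom_inv_id_assoc, ← Category.assoc s, hs2,
        Category.assoc, f.toImage_imageι_assoc]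
  · -- the empty case
    have hUe : IsEmpty U := not_nonempty_iff.mp hU
    have hUe' : IsEmpty U.toScheme := hUe
    let Ω : SchK k := Over.mk (U.ι ≫ W.hom)
    let j : Ω ⟶ W := Over.homMk U.ι
    let α : Ω ⟶ Z := Over.homMk ((isInitialOfIsEmpty (X := U.toScheme)).to Z.left)
      ((isInitialOfIsEmpty (X := U.toScheme)).hom_ext _ _)
    refine ⟨Ω, j, α, inferInstanceAs (IsOpenImmersion U.ι), ?_, ?_⟩
    · change C ⊆ Set.range U.ι
      rw [Scheme.Opens.range_ι]
      exact hCU
    · intro T t t' ht
      apply Over.OverMorphism.ext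
      have : IsEmpty T.left := Function.isEmpty (β := U.toScheme) t'.left
      exact (isInitialOfIsEmpty (X := T.left)).hom_ext _ _

end LibHM79
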