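import Pool.Agent.LibHM79.B3

namespace LibHM79

open AlgebraicGeometry CategoryTheory MonoidalCategory CartesianMonoidalCategory MonObj Limits TopologicalSpace

variable {k : Type} [Field k]

private theorem D1_pb {A B C : SchK k} (f : A ⟶ C) (g : B ⟶ C) :
    ∃ (E : SchK k) (a : E ⟶ A) (b : E ⟶ B), IsPullback a b f g ∧
      ∃ e : E.left ≅ pullback f.left g.left, a.left = e.hom ≫ pullback.fst _ _ ∧
        b.left = e.hom ≫ pullback.snd _ _ := by
  let p₁ : pullback f.left g.left ⟶ A.left := pullback.fst _ _
  let p₂ : pullback f.left g.left ⟶ B.left := pullback.snd _ _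
  have hw : p₂ ≫ B.hom = p₁ ≫ A.hom := by
    rw [← Over.w f, ← Over.w g, ← Category.assoc, ← pullback.condition, Category.assoc]
  refine ⟨Over.mk (p₁ ≫ A.hom), Over.homMk p₁ rfl, Over.homMk p₂ hw, ?_, Iso.refl _, ?_, ?_⟩
  · refine IsPullback.of_map (Over.forget _) ?_ ?_
    · ext1
      exact pullback.condition
    · exact IsPullback.of_hasPullback _ _
  · exact (Category.id_comp _).symm
  · exact (Category.id_comp _).symm

theorem exists_E {G X Y P : SchK k} [GrpObj G] [ModObj G X] (i : Y ⟶ X)
    [IsClosedImmersion i.left] (x₀ : 𝟙_ (SchK k) ⟶ X) (jP : P ⟶ G) (oP : P ⟶ Y)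
    (hP : IsPullback jP oP (orb x₀) i) [Surjective oP.left] :
    ∃ (E : SchK k) (e : P ⊗ P ⟶ E) (a : E ⟶ G ⊗ Y) (b : E ⟶ Y), Surjective e.left ∧
      IsClosedImmersion a.left ∧
      e ≫ a = lift ((snd P P ≫ jP) / (fst P P ≫ jP)) (fst P P ≫ oP) ∧ e ≫ b = snd P P ≫ oP ∧
      IsPullback a b (fst G Y • (snd G Y ≫ i) : G ⊗ Y ⟶ X) i := by
  obtain ⟨E, a, b, hE, u, hua, hub⟩ := D1_pb (fst G Y • (snd G Y ≫ i) : G ⊗ Y ⟶ X) i
  have hcond : ∀ {A : SchK k} (p : A ⟶ P), (p ≫ jP) • (toUnit A ≫ x₀) = p ≫ oP ≫ i := by
    intro A p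
    rw [← hP.w, ← Category.assoc, comp_orb]
  have hw : lift ((snd P P ≫ jP) / (fst P P ≫ jP)) (fst P P ≫ oP) ≫
      (fst G Y • (snd G Y ≫ i) : G ⊗ Y ⟶ X) = (snd P P ≫ oP) ≫ i := by
    rw [ModObj.comp_smul, lift_fst, ← Category.assoc (lift _ _) (snd G Y), lift_snd, Category.assoc,
      Category.assoc, ← hcond, ← hcond, smul_smul, div_mul_cancel]
  let e : P ⊗ P ⟶ E := hE.lift _ _ hw
  have he₁ : e ≫ a = _ := hE.lift_fst _ _ hw
  have he₂ : e ≫ b = _ := hE.lift_snd _ _ hw
  refine ⟨E, e, a, b, ?_, ?_, he₁, he₂, hE⟩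
  · -- e is a base change of oP
    have hsq : IsPullback e (fst P P) (a ≫ snd G Y) oP := by
      refine IsPullback.of_isLimit' ⟨?_⟩ ?_
      · rw [← Category.assoc, he₁, lift_snd]
      · have hmi : Mono i := by
          have : Mono ((Over.forget (Spec (CommRingCat.of k))).map i) := by
            show Mono i.left
            infer_instance
          exact (Over.forget (Spec (CommRingCat.of k))).mono_of_mono_map this
        have hcompat : ∀ s : PullbackCone (a ≫ snd G Y) oP,
            ((s.fst ≫ a ≫ fst G Y) * (s.snd ≫ jP)) ≫ orb x₀ = (s.fst ≫ b) ≫ i := by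
          intro s
          have hc : s.fst ≫ a ≫ snd G Y = s.snd ≫ oP := s.condition
          have h1 : s.fst ≫ a ≫ (fst G Y • (snd G Y ≫ i) : G ⊗ Y ⟶ X) = s.fst ≫ b ≫ i := by
            rw [hE.w]
          rw [ModObj.comp_smul, ModObj.comp_smul] at h1
          rw [comp_orb, mul_smul, hcond, Category.assoc, ← h1, ← Category.assoc s.snd, ← hc,
            Category.assoc, Category.assoc]
        refine PullbackCone.IsLimit.mk _
          (fun s => lift s.snd (hP.lift ((s.fst ≫ a ≫ fst G Y) * (s.snd ≫ jP)) (s.fst ≫ b)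
            (hcompat s))) ?_ ?_ ?_
        · intro s
          have hc : s.fst ≫ a ≫ snd G Y = s.snd ≫ oP := s.condition
          have hl₁ := hP.lift_fst _ _ (hcompat s)
          have hl₂ := hP.lift_snd _ _ (hcompat s)
          generalize hP.lift _ _ (hcompat s) = l at hl₁ hl₂
          apply hE.hom_ext
          · rw [Category.assoc, he₁]
            apply CartesianMonoidalCategory.hom_ext
            · rw [Category.assoc, lift_fst, GrpObj.comp_div, ← Category.assoc, ← Category.assoc,
                lift_snd, lift_fst, hl₁, mul_div_cancel_right, Category.assoc]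
            · rw [Category.assoc, lift_snd, ← Category.assoc, lift_fst, ← hc, Category.assoc]
          · rw [Category.assoc, he₂, ← Category.assoc, lift_snd, hl₂]
        · intro s
          exact lift_fst _ _
        · intro s m hm₁ hm₂
          apply CartesianMonoidalCategory.hom_ext
          · rw [lift_fst, hm₂]
          · rw [lift_snd]
            apply hP.hom_ext
            · rw [hP.lift_fst, ← hm₁, ← hm₂]
              have h2 : (m ≫ e) ≫ a ≫ fst G Y = m ≫ (e ≫ a) ≫ fst G Y := by
                simp only [Category.assoc]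
              rw [h2, he₁, lift_fst, GrpObj.comp_div]
              simp only [Category.assoc]
              rw [div_mul_cancel]
            · rw [hP.lift_snd, ← hm₁, Category.assoc, Category.assoc, he₂]
    have := MorphismProperty.of_isPullback (P := @Surjective.{0})
      (hsq.map (Over.forget (Spec (CommRingCat.of k)))).flip (by
        show Surjective oP.left
        infer_instance)
    exact this
  · rw [hua]
    infer_instance

end LibHM79
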