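import Pool.Agent.LibHM79.D1
import Pool.Agent.LibHM79.B1

namespace LibHM79

open AlgebraicGeometry CategoryTheory MonoidalCategory CartesianMonoidalCategory MonObj Limits TopologicalSpace

variable {k : Type} [Field k]

theorem tau_closed {G X Y Z P : SchK k} [GrpObj G] [ModObj G X] [IsProper Y.hom]
    [IsSeparated Z.hom] [LocallyOfFiniteType Z.hom] (i : Y ⟶ X)
    [IsClosedImmersion i.left] (x₀ : 𝟙_ (SchK k) ⟶ X) (jP : P ⟶ G) (oP : P ⟶ Y)
    (hP : IsPullback jP oP (orb x₀) i) [Surjective oP.left] (π : Y ⟶ Z) :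
    IsClosed (Set.range (tau jP (oP ≫ π)).left) := by
  obtain ⟨E, e, a, b, he, ha, hea, heb, -⟩ := exists_E i x₀ jP oP hP
  let κ : E ⟶ (G ⊗ Z) ⊗ Z := lift (a ≫ (G ◁ π)) (b ≫ π)
  have hκ : tau jP (oP ≫ π) = e ≫ κ := by
    rw [tau]
    apply CartesianMonoidalCategory.hom_ext
    · rw [lift_fst, Category.assoc, lift_fst, ← Category.assoc, ← Category.assoc, hea,
        lift_whiskerLeft]
    · rw [lift_snd, Category.assoc, lift_snd, ← Category.assoc, ← Category.assoc, heb]
  have hr : Set.range (tau jP (oP ≫ π)).left = Set.range κ.left := by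
    rw [hκ, Over.comp_left]
    ext x
    constructor
    · rintro ⟨p, rfl⟩
      exact ⟨e.left p, (Scheme.Hom.comp_apply _ _ _).symm⟩
    · rintro ⟨p, rfl⟩
      obtain ⟨q, rfl⟩ := he.surj p
      exact ⟨q, Scheme.Hom.comp_apply _ _ _⟩
  rw [hr]
  have h1 : κ ≫ fst (G ⊗ Z) Z ≫ fst G Z = a ≫ fst G Y := by
    rw [← Category.assoc, lift_fst, Category.assoc, whiskerLeft_fst]
  have h2 : IsProper (a ≫ fst G Y).left := by
    rw [Over.comp_left]
    have : IsProper (fst G Y).left := by
      rw [Over.fst_left]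
      infer_instance
    infer_instance
  have h3 : IsSeparated (fst (G ⊗ Z) Z ≫ fst G Z).left := by
    have h4 : IsSeparated (fst G Z).left := by
      rw [Over.fst_left]
      infer_instance
    have h5 : IsSeparated (fst (G ⊗ Z) Z).left := by
      rw [Over.fst_left]
      infer_instance
    rw [Over.comp_left]
    infer_instance
  have h6 : IsProper (κ.left ≫ (fst (G ⊗ Z) Z ≫ fst G Z).left) := by
    rw [← Over.comp_left, h1]
    exact h2
  have h7 : IsProper κ.left := IsProper.of_comp κ.left (fst (G ⊗ Z) Z ≫ fst G Z).left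
  exact κ.left.isClosedMap.isClosed_range

end LibHM79
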