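import Pool.Agent.LibHM79.D1
import Pool.Agent.LibHM79.B1

/-! D3 (STRONG). The part of the image of tau over a closed point (g, z) of G ⊗ Z is the continuous image of the subspace
TT i π g z of Y, compatibly with π. -/

namespace LibHM79

open AlgebraicGeometry CategoryTheory MonoidalCategory CartesianMonoidalCategory MonObj Limits TopologicalSpace

variable {k : Type} [Field k] [IsAlgClosed k]

omit [IsAlgClosed k] in
private theorem D3_sub (p : (𝟙_ (SchK k)).left) : p = IsLocalRing.closedPoint k := by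
  have : Subsingleton (PrimeSpectrum k) := inferInstance
  exact Subsingleton.elim (α := PrimeSpectrum k) _ _

omit [IsAlgClosed k] in
private theorem D3_const {A G : SchK k} (g : 𝟙_ (SchK k) ⟶ G) (x : A.left) :
    (toUnit A ≫ g).left x = ev g := by
  rw [Over.comp_left, Scheme.Hom.comp_apply, ev]
  congr 1
  exact D3_sub _

omit [IsAlgClosed k] in
private theorem D3_pb {G Z : SchK k} (g : 𝟙_ (SchK k) ⟶ G) :
    IsPullback (lift (toUnit Z ≫ g) (𝟙 Z)) (toUnit Z) (fst G Z) g := by
  refine ⟨⟨by simp⟩, ⟨PullbackCone.IsLimit.mk _ (fun s => s.fst ≫ snd G Z) ?_ ?_ ?_⟩⟩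
  · intro s
    apply CartesianMonoidalCategory.hom_ext
    · have h := s.condition
      have h2 : s.snd = toUnit _ := toUnit_unique _ _
      rw [h2] at h
      simp [h]
    · simp
  · intro s
    exact toUnit_unique _ _
  · intro s m h1 h2
    rw [← h1]
    simp

omit [IsAlgClosed k] in
private theorem D3_prod {G Z : SchK k}
    (g : 𝟙_ (SchK k) ⟶ G) (z : 𝟙_ (SchK k) ⟶ Z) (x : (G ⊗ Z).left) (h1 : (fst G Z).left x = ev g)
    (h2 : (snd G Z).left x = ev z) : x = ev (lift g z) := by
  have hp := (D3_pb (Z := Z) g).map (Over.forget (Spec (CommRingCat.of k)))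
  obtain ⟨z', hz', -⟩ := Scheme.exists_preimage_of_isPullback hp x (IsLocalRing.closedPoint k) h1
  have hz1 : (lift (toUnit Z ≫ g) (𝟙 Z)).left z' = x := hz'
  have hz2 : z' = ev z := by
    rw [← h2, ← hz1, ← Scheme.Hom.comp_apply, ← Over.comp_left, lift_snd]
    rfl
  rw [← hz1, hz2, ← ev_comp]
  congr 1
  apply CartesianMonoidalCategory.hom_ext
  · simp only [Category.assoc, lift_fst]
    rw [← Category.assoc]
    have : z ≫ toUnit Z = 𝟙 _ := toUnit_unique _ _
    rw [this, Category.id_comp]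
  · simp

theorem prod_pt {G Z : SchK k} [LocallyOfFiniteType G.hom] [LocallyOfFiniteType Z.hom]
    (g : 𝟙_ (SchK k) ⟶ G) (z : 𝟙_ (SchK k) ⟶ Z) (x : (G ⊗ Z).left) (h1 : (fst G Z).left x = ev g)
    (h2 : (snd G Z).left x = ev z) : x = ev (lift g z) :=
  D3_prod g z x h1 h2

theorem fibre_desc {G X Y Z P : SchK k} [GrpObj G] [ModObj G X] [LocallyOfFiniteType G.hom]
    [LocallyOfFiniteType Y.hom] [LocallyOfFiniteType Z.hom] (i : Y ⟶ X)
    [IsClosedImmersion i.left] (x₀ : 𝟙_ (SchK k) ⟶ X) (jP : P ⟶ G) (oP : P ⟶ Y)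
    (hP : IsPullback jP oP (orb x₀) i) [Surjective oP.left] (π : Y ⟶ Z)
    (g : 𝟙_ (SchK k) ⟶ G) (z : 𝟙_ (SchK k) ⟶ Z) :
    ∃ s : TT i π g z → ((G ⊗ Z) ⊗ Z : SchK k).left, Continuous s ∧
      Set.range s = Set.range (tau jP (oP ≫ π)).left ∩
        (fst (G ⊗ Z) Z).left ⁻¹' {ev (lift g z)} ∧
      ∀ y, (snd (G ⊗ Z) Z).left (s y) = π.left y.1 := by
  classical
  obtain ⟨E, e, a, b, he, ha, hea, heb, hE⟩ := exists_E i x₀ jP oP hP
  -- the morphism κ
  set κ : E ⟶ (G ⊗ Z) ⊗ Z := lift (lift (a ≫ fst G Y) (a ≫ snd G Y ≫ π)) (b ≫ π) with hκ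
  have htau : tau jP (oP ≫ π) = e ≫ κ := by
    rw [hκ, tau]
    apply CartesianMonoidalCategory.hom_ext
    · apply CartesianMonoidalCategory.hom_ext
      · simp only [lift_fst, Category.assoc]
        rw [← Category.assoc, hea, lift_fst]
      · simp only [lift_fst, lift_snd, Category.assoc]
        rw [← Category.assoc e, hea, lift_snd_assoc, Category.assoc]
    · simp only [lift_snd, Category.assoc]
      rw [← Category.assoc e, heb, Category.assoc]
  have hrange : Set.range (tau jP (oP ≫ π)).left = Set.range κ.left := by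
    rw [htau]
    ext w
    constructor
    · rintro ⟨t, rfl⟩
      exact ⟨e.left t, by rw [← Scheme.Hom.comp_apply, ← Over.comp_left]⟩
    · rintro ⟨t, rfl⟩
      obtain ⟨t', rfl⟩ := he.surj t
      exact ⟨t', by rw [Over.comp_left, Scheme.Hom.comp_apply]⟩
  -- the scheme A
  have hAE := IsPullback.of_hasPullback (a ≫ fst G Y) g
  set pr : pullback (a ≫ fst G Y) g ⟶ E := pullback.fst (a ≫ fst G Y) g with hpr
  set a₁ : pullback (a ≫ fst G Y) g ⟶ Y := pr ≫ a ≫ snd G Y with ha₁
  set a₂ : pullback (a ≫ fst G Y) g ⟶ Y := pr ≫ b with ha₂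
  have hprg : pr ≫ a ≫ fst G Y = toUnit _ ≫ g := by
    rw [hpr, pullback.condition]
    congr 1
    exact toUnit_unique _ _
  have hA : IsPullback a₁ a₂ (i ≫ act g) i := by
    have hcomm : ∀ {T : SchK k} (y : T ⟶ Y),
        y ≫ i ≫ act g = lift (toUnit T ≫ g) y ≫ (fst G Y • (snd G Y ≫ i) : G ⊗ Y ⟶ X) := by
      intro T y
      rw [← Category.assoc, comp_act, ModObj.comp_smul, lift_fst, lift_snd_assoc]
    have hw : a₁ ≫ i ≫ act g = a₂ ≫ i := by
      rw [hcomm]
      have h1 : lift (toUnit _ ≫ g) a₁ = pr ≫ a := by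
        apply CartesianMonoidalCategory.hom_ext
        · rw [lift_fst, Category.assoc, hprg]
        · rw [lift_snd, Category.assoc]
      rw [h1, Category.assoc, hE.w, ha₂, Category.assoc]
    refine ⟨⟨hw⟩, ⟨PullbackCone.IsLimit.mk _ (fun s => hAE.lift
      (hE.lift (lift (toUnit _ ≫ g) s.fst) s.snd (by rw [← hcomm]; exact s.condition)) (toUnit _)
        (by rw [← Category.assoc, hE.lift_fst, lift_fst])) ?_ ?_ ?_⟩⟩
    · intro s
      rw [ha₁, ← Category.assoc, hAE.lift_fst, ← Category.assoc, hE.lift_fst, lift_snd]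
    · intro s
      rw [ha₂, ← Category.assoc, hAE.lift_fst, hE.lift_snd]
    · intro s m h1 h2
      apply hAE.hom_ext
      · rw [hAE.lift_fst]
        apply hE.hom_ext
        · rw [hE.lift_fst]
          apply CartesianMonoidalCategory.hom_ext
          · rw [lift_fst, Category.assoc, Category.assoc]
            have := congrArg (fun t => m ≫ t) hprg
            rw [this, ← Category.assoc]
            congr 1
            exact toUnit_unique _ _
          · rw [lift_snd, ← h1, ha₁, Category.assoc, Category.assoc]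
        · rw [hE.lift_snd, ← h2, ha₂, Category.assoc]
      · exact toUnit_unique _ _
  have hAl := hA.map (Over.forget (Spec (CommRingCat.of k)))
  have hcl : IsClosedImmersion (i ≫ act g).left := by
    rw [Over.comp_left]
    have : IsIso (act g : X ⟶ X).left :=
      inferInstanceAs (IsIso ((Over.forget (Spec (CommRingCat.of k))).map (act g : X ⟶ X)))
    infer_instance
  have ha₂cl : IsClosedImmersion a₂.left :=
    MorphismProperty.of_isPullback (P := @IsClosedImmersion) hAl hcl
  have hemb : Topology.IsEmbedding a₂.left := ha₂cl.isClosedEmbedding.isEmbedding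
  have hinj : Function.Injective a₂.left := hemb.injective
  -- the description of TT
  have hTT : ∀ y' : Y.left, y' ∈ TT i π g z ↔ ∃ x, a₂.left x = y' ∧ π.left (a₁.left x) = ev z := by
    intro y'
    constructor
    · rintro ⟨_, ⟨y, hy, rfl⟩, hyy⟩
      obtain ⟨x, hx1, hx2⟩ := Scheme.exists_preimage_of_isPullback hAl y y' (by
        show (i ≫ act g).left y = i.left y'
        rw [Over.comp_left, Scheme.Hom.comp_apply]
        exact hyy)
      refine ⟨x, hx2, ?_⟩
      have : a₁.left x = y := hx1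
      rw [this]
      exact hy
    · rintro ⟨x, rfl, hx⟩
      refine ⟨i.left (a₁.left x), ⟨_, hx, rfl⟩, ?_⟩
      rw [← Scheme.Hom.comp_apply, ← Scheme.Hom.comp_apply, ← Scheme.Hom.comp_apply,
        ← Over.comp_left, ← Over.comp_left, ← Over.comp_left]
      rw [← hA.w, Category.assoc]
  -- the section
  let h₀ := hemb.toHomeomorph
  have hmem : ∀ y : TT i π g z, y.1 ∈ Set.range a₂.left := fun y => by
    obtain ⟨x, hx, -⟩ := (hTT y.1).1 y.2
    exact ⟨x, hx⟩
  let q : TT i π g z → (pullback (a ≫ fst G Y) g : SchK k).left := fun y => h₀.symm ⟨y.1, hmem y⟩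
  have hq : ∀ y, a₂.left (q y) = y.1 := fun y => by
    have := h₀.apply_symm_apply ⟨y.1, hmem y⟩
    exact congrArg Subtype.val this
  have hq' : ∀ x (hx : a₂.left x ∈ TT i π g z), q ⟨a₂.left x, hx⟩ = x := fun x hx =>
    hinj (hq ⟨a₂.left x, hx⟩)
  have hqz : ∀ y, π.left (a₁.left (q y)) = ev z := fun y => by
    obtain ⟨x, hx, hx'⟩ := (hTT y.1).1 y.2
    have : q y = x := hinj ((hq y).trans hx.symm)
    rw [this, hx']
  have hqc : Continuous q := h₀.symm.continuous.comp (continuous_subtype_val.subtype_mk _)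
  have hs1 : ∀ x, (fst (G ⊗ Z) Z).left ((pr ≫ κ).left x) =
      (lift (toUnit _ ≫ g) (a₁ ≫ π)).left x := by
    intro x
    have hm : (pr ≫ κ) ≫ fst (G ⊗ Z) Z = lift (toUnit _ ≫ g) (a₁ ≫ π) := by
      rw [hκ, Category.assoc, lift_fst]
      apply CartesianMonoidalCategory.hom_ext
      · rw [Category.assoc, lift_fst, lift_fst, hprg]
      · rw [Category.assoc, lift_snd, lift_snd, ha₁, Category.assoc, Category.assoc]
    have h2 := Over.comp_left _ _ _ (pr ≫ κ) (fst (G ⊗ Z) Z)
    rw [← hm, h2, Scheme.Hom.comp_apply]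
  have hs2 : ∀ x, π.left (a₁.left x) = ev z →
      (fst (G ⊗ Z) Z).left ((pr ≫ κ).left x) = ev (lift g z) := by
    intro x hx
    rw [hs1]
    apply D3_prod
    · rw [← Scheme.Hom.comp_apply, ← Over.comp_left, lift_fst]
      exact D3_const g x
    · rw [← Scheme.Hom.comp_apply, ← Over.comp_left, lift_snd, Over.comp_left,
        Scheme.Hom.comp_apply, hx]
  refine ⟨fun y => (pr ≫ κ).left (q y), (pr ≫ κ).left.continuous.comp hqc, ?_, ?_⟩
  · rw [hrange]
    ext w
    constructor
    · rintro ⟨y, rfl⟩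
      refine ⟨⟨pr.left (q y), by rw [← Scheme.Hom.comp_apply, ← Over.comp_left]⟩, ?_⟩
      exact hs2 _ (hqz y)
    · rintro ⟨⟨ε, rfl⟩, hw⟩
      have hk1 : κ ≫ fst (G ⊗ Z) Z = lift (a ≫ fst G Y) (a ≫ snd G Y ≫ π) := lift_fst _ _
      have hw1 : (lift (a ≫ fst G Y) (a ≫ snd G Y ≫ π)).left ε = ev (lift g z) := by
        rw [← hk1, Over.comp_left, Scheme.Hom.comp_apply]
        exact hw
      have hw2 : (a ≫ fst G Y).left ε = ev g := by
        have h1 := congrArg (fun t => (fst G Z).left t) hw1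
        simp only at h1
        rw [← Scheme.Hom.comp_apply, ← Over.comp_left, lift_fst, ← ev_comp, lift_fst] at h1
        exact h1
      have hw3 : (a ≫ snd G Y ≫ π).left ε = ev z := by
        have h1 := congrArg (fun t => (snd G Z).left t) hw1
        simp only at h1
        rw [← Scheme.Hom.comp_apply, ← Over.comp_left, lift_snd, ← ev_comp, lift_snd] at h1
        exact h1
      obtain ⟨x, hx, -⟩ := Scheme.exists_preimage_of_isPullback
        (hAE.map (Over.forget (Spec (CommRingCat.of k)))) ε (IsLocalRing.closedPoint k) hw2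
      have hx1 : pr.left x = ε := hx
      have hx2 : π.left (a₁.left x) = ev z := by
        rw [← hw3, ← hx1, ← Scheme.Hom.comp_apply, ← Scheme.Hom.comp_apply, ← Over.comp_left,
          ← Over.comp_left, ha₁, Category.assoc, Category.assoc]
      have hx3 : a₂.left x ∈ TT i π g z := (hTT _).2 ⟨x, rfl, hx2⟩
      refine ⟨⟨a₂.left x, hx3⟩, ?_⟩
      show (pr ≫ κ).left (q ⟨a₂.left x, hx3⟩) = κ.left ε
      rw [hq' x hx3, Over.comp_left, Scheme.Hom.comp_apply, hx1]
  · intro y
    show (snd (G ⊗ Z) Z).left ((pr ≫ κ).left (q y)) = π.left y.1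
    rw [← hq y, ← Scheme.Hom.comp_apply, ← Scheme.Hom.comp_apply, ← Over.comp_left,
      ← Over.comp_left, hκ, Category.assoc, lift_snd, ha₂, Category.assoc]

end LibHM79
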