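import Pool.Agent.LibMX2.S10
import Pool.Agent.LibMX2.S3
import Pool.Agent.LibHM79.B1

namespace LibHM79

open AlgebraicGeometry CategoryTheory MonoidalCategory CartesianMonoidalCategory MonObj Limits TopologicalSpace

theorem fib_dim {k : Type} [Field k] [IsAlgClosed k] {Y Z : SchK k} [IsIntegral Y.left]
    [LocallyOfFiniteType Y.hom] [LocallyOfFiniteType Z.hom] (π : Y ⟶ Z) (r : ℕ)
    (hdim : topologicalKrullDim Z.left + r < topologicalKrullDim Y.left) (y : Y.left)
    (hy : IsClosed {y}) :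
    ∃ F : Set Y.left, IsClosed F ∧ IsIrreducible F ∧ y ∈ F ∧ F ⊆ π.left ⁻¹' {π.left y} ∧
      ((r + 1 : ℕ) : WithBot ℕ∞) ≤ topologicalKrullDim F := by
  obtain ⟨U, hU, w, hwy, hw, htr⟩ :=
    LibMX2.fibre Y.left Z.left Y.hom Z.hom π.left (Over.w π) r hdim y hy
  refine ⟨closure {hU.fromSpec w}, isClosed_closure, isIrreducible_singleton.closure,
    specializes_iff_mem_closure.1 hwy, ?_, ?_⟩
  · have hz : IsClosed ({π.left y} : Set Z.left) := by
      obtain ⟨t, rfl⟩ := pt_of_closed y hy
      rw [← ev_comp]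
      exact ev_closed _
    refine closure_minimal ?_ (hz.preimage π.left.continuous)
    rintro _ rfl
    exact hw
  · refine le_trans ?_ (LibMX2.tr_le_closure Y.hom U hU w)
    exact_mod_cast htr

end LibHM79
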