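import Mathlib

/-! HM79: extension of fibrations from subvarieties of homogeneous varieties (MP_498328). Definitions. -/

namespace LibHM79

open AlgebraicGeometry CategoryTheory MonoidalCategory CartesianMonoidalCategory MonObj

/-- schemes over `k` -/
abbrev SchK (k : Type) [Field k] := Over (Spec (CommRingCat.of k))

/-- the spectrum of the dual numbers `k[ε]`, as a scheme over `k` -/
noncomputable def Dk (k : Type) [Field k] : SchK k :=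
  Over.mk (Spec.map (CommRingCat.ofHom (algebraMap k (DualNumber k))))

/-- the closed point `Spec k → Spec k[ε]` -/
noncomputable def zpt (k : Type) [Field k] : 𝟙_ (SchK k) ⟶ Dk k :=
  Over.homMk (Spec.map (CommRingCat.ofHom (TrivSqZeroExt.fstHom k k k).toRingHom)) (by
    dsimp [Dk]
    rw [← Spec.map_comp]
    have h : CommRingCat.ofHom (algebraMap k (DualNumber k)) ≫
        CommRingCat.ofHom (TrivSqZeroExt.fstHom k k k : DualNumber k →+* k) = 𝟙 _ := by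
      ext x
      simp
    erw [h]
    simp)

variable {k : Type} [Field k]

/-- the point of the scheme `T` given by a `k`-point -/
noncomputable def ev {T : SchK k} (t : 𝟙_ (SchK k) ⟶ T) : T.left :=
  t.left (IsLocalRing.closedPoint k)

/-- `w` is a tangent vector of `G` at `1` -/
def IsTan {G : SchK k} [MonObj G] (w : Dk k ⟶ G) : Prop :=
  zpt k ≫ w = 1

/-- the orbit map `g ↦ g • x₀` -/
noncomputable def orb {G X : SchK k} [MonObj G] [ModObj G X] (x₀ : 𝟙_ (SchK k) ⟶ X) : G ⟶ X :=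
  𝟙 G • (toUnit G ≫ x₀)

/-- the tangent vector `w` at `1` is tangent to `Y` at the `k`-point `y` of `Y`: the
`k[ε]`-point `w • y` of `X` lies in `Y` -/
def TanTo {G X Y : SchK k} [MonObj G] [ModObj G X] (i : Y ⟶ X)
    (y : 𝟙_ (SchK k) ⟶ Y) (w : Dk k ⟶ G) : Prop :=
  ∃ v : Dk k ⟶ Y, v ≫ i = w • (toUnit (Dk k) ≫ y ≫ i)

/-- the derivative along `w` of the function `f`, defined on a neighbourhood `U` of `1`,
vanishes: `f` takes at the `k[ε]`-point `w` its value at `1` -/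
def DerZero {G : SchK k} [MonObj G] (w : Dk k ⟶ G) (U : G.left.Opens) (f : Γ(G.left, U)) : Prop :=
  ∀ (h : ⊤ ≤ w.left ⁻¹ᵁ U) (h' : ⊤ ≤ (1 : Dk k ⟶ G).left ⁻¹ᵁ U),
    w.left.appLE U ⊤ h f = (1 : Dk k ⟶ G).left.appLE U ⊤ h' f

/-- the automorphism of `X` given by a `k`-point `g` of `G` -/
noncomputable def act {G X : SchK k} [MonObj G] [ModObj G X] (g : 𝟙_ (SchK k) ⟶ G) : X ⟶ X :=
  (toUnit X ≫ g : X ⟶ G) • 𝟙 X

/-- the points `y'` of `Y` of the form `g • y` with `π y = z` -/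
def TT {G X Y Z : SchK k} [MonObj G] [ModObj G X] (i : Y ⟶ X) (π : Y ⟶ Z)
    (g : 𝟙_ (SchK k) ⟶ G) (z : 𝟙_ (SchK k) ⟶ Z) : Set Y.left :=
  i.left ⁻¹' ((act g : X ⟶ X).left '' (i.left '' (π.left ⁻¹' {ev z})))

/-- `(h, h') ↦ (h' h⁻¹, ρ h, ρ h')` -/
noncomputable def tau {G Z P : SchK k} [GrpObj G] (jP : P ⟶ G) (ρ : P ⟶ Z) :
    P ⊗ P ⟶ (G ⊗ Z) ⊗ Z :=
  lift (lift ((snd P P ≫ jP) / (fst P P ≫ jP)) (fst P P ≫ ρ)) (snd P P ≫ ρ)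

/-- `φ : Q → Z`, `Q` open in `G` by `j`, is a solution of `φ (w g) = v_w (φ g)` -/
def Sol {G Z Q : SchK k} [GrpObj G] (v : (Dk k ⟶ G) → (Dk k ⊗ Z ⟶ Z)) (j : Q ⟶ G)
    (φ : Q ⟶ Z) : Prop :=
  ∀ w : Dk k ⟶ G, IsTan w → ∀ (g : 𝟙_ (SchK k) ⟶ Q) (q : Dk k ⟶ Q),
    q ≫ j = w * (toUnit (Dk k) ≫ g ≫ j) →
    q ≫ φ = lift (𝟙 (Dk k)) (toUnit (Dk k) ≫ g ≫ φ) ≫ v w

/-- the data of step (1): `α` on an open `Ω` of `G × Z` containing `1 × Z` with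
`ρ h' = α (h' h⁻¹, ρ h)` -/
structure AlphaData {G Z P : SchK k} [GrpObj G] (jP : P ⟶ G) (ρ : P ⟶ Z) (Ω : SchK k)
    (jΩ : Ω ⟶ G ⊗ Z) (α : Ω ⟶ Z) : Prop where
  open_imm : IsOpenImmersion jΩ.left
  one : ∀ z : 𝟙_ (SchK k) ⟶ Z, ∃ c : 𝟙_ (SchK k) ⟶ Ω, c ≫ jΩ = lift 1 z
  rel : ∀ (T : SchK k) (h h' : T ⟶ P) (t : T ⟶ Ω),
    t ≫ jΩ = lift ((h' ≫ jP) / (h ≫ jP)) (h ≫ ρ) → h' ≫ ρ = t ≫ α

/-- the vector fields `v_w = α (w, ·)` on `Z` -/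
def VData {G Z Ω : SchK k} [GrpObj G] (jΩ : Ω ⟶ G ⊗ Z) (α : Ω ⟶ Z)
    (v : (Dk k ⟶ G) → (Dk k ⊗ Z ⟶ Z)) : Prop :=
  ∀ w : Dk k ⟶ G, IsTan w →
    (lift (toUnit Z ≫ zpt k) (𝟙 Z) ≫ v w = 𝟙 Z) ∧
    ∀ (T : SchK k) (d : T ⟶ Dk k) (z : T ⟶ Z) (t : T ⟶ Ω),
      t ≫ jΩ = lift (d ≫ w) z → lift d z ≫ v w = t ≫ α

end LibHM79
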