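import Pool.Agent.LibMX2.S14
import Pool.Agent.LibMX2.S11
import Pool.Agent.LibMX2.S4
import Pool.Agent.LibMX2.S3
import Pool.Agent.LibHM79.Defs

/-! D5 (MEDIUM/STRONG). (a) A closed irreducible T of dimension ≥ n + 1 contains a closed irreducible T' of dimension ≥ n not
through a given closed point p. Plan: if p ∉ T take T' = T. Else U affine open containing p, T ∩ U = V(P),
P prime of R = Γ(X, U), p ↔ maximal m ⊇ P. The dimension of T is tr (quo (kmap U) P) (LibMX2.dim_le for the
integral closed subscheme T, or directly; tr_le_closure is the other inequality), so tr ≥ n + 1 ≥ 1 and R/P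
is not a field/has another maximal ideal m' ≠ m, m' ⊇ P (R Jacobson, P ≠ m). Take f ∈ m', f ∉ m; Q minimal over P + (f) inside
m': tr(R/Q) ≥ tr(R/P) - 1 (LibMX2.tr_drops, A11) . T' := closure of the point Q of U in X; p ∉ T' because p ∈ U and f ∉ m;
dimension by LibMX2.tr_le_closure.
(b) then the consequence of (M1), (M2). Plan: if the closed set A := T ∩ range i is finite its points are closed (X is a
Jacobson scheme: a finite closed subset of X is a finite union of closures of points; every point of a finite locally closed subset...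
: in a Jacobson space a finite closed set has discrete topology), it is preconnected so has at most one point, and one by
(M1): A = {p}; T' from (a) misses range i, against (M1). -/

namespace LibHM79

open AlgebraicGeometry CategoryTheory MonoidalCategory CartesianMonoidalCategory MonObj Limits TopologicalSpace

variable {k : Type} [Field k] [IsAlgClosed k]

omit [IsAlgClosed k] in
private theorem D5_dim_le {X : Scheme.{0}} (s : X ⟶ Spec (CommRingCat.of k))
    [LocallyOfFiniteType s] (U : X.Opens) (hU : IsAffineOpen U) (t : X) (ht : t ∈ U) :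
    topologicalKrullDim (closure {t} : Set X) ≤
      (LibMX2.tr (LibMX2.quo (LibMX2.kmap s U) (hU.primeIdealOf ⟨t, ht⟩).asIdeal) :
        WithBot ℕ∞) := by
  unfold topologicalKrullDim Order.krullDim
  refine iSup_le fun p => ?_
  obtain ⟨x, hx⟩ := p.head.isIrreducible.nonempty
  obtain ⟨V, hV, hxV, -⟩ := exists_isAffineOpen_mem_and_subset (X := X) (x := x.1) (U := ⊤) trivial
  have htx : t ⤳ x.1 := by
    rw [specializes_iff_mem_closure]
    exact x.2
  have htV : t ∈ V := htx.mem_open V.isOpen hxV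
  set P := hV.primeIdealOf ⟨t, htV⟩ with hP
  have : P.asIdeal.IsPrime := P.isPrime
  have heP : hV.fromSpec P = t := hV.fromSpec_primeIdealOf ⟨t, htV⟩
  have hft : (LibMX2.quo (LibMX2.kmap s V) P.asIdeal).FiniteType :=
    (RingHom.FiniteType.of_surjective _ Ideal.Quotient.mk_surjective).comp (LibMX2.kmap_ft s V hV)
  let c : PrimeSpectrum (Γ(X, V) ⧸ P.asIdeal) → PrimeSpectrum Γ(X, V) :=
    PrimeSpectrum.comap (Ideal.Quotient.mk P.asIdeal)
  have hc : Topology.IsClosedEmbedding c :=
    PrimeSpectrum.isClosedEmbedding_comap_of_surjective _ _ Ideal.Quotient.mk_surjective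
  let e : PrimeSpectrum Γ(X, V) → X := fun x => hV.fromSpec x
  have he : Topology.IsOpenEmbedding e := hV.fromSpec.isOpenEmbedding
  have hmem : ∀ x, (e ∘ c) x ∈ (closure {t} : Set X) := by
    intro x
    have h1 : P ≤ c x := by
      change P.asIdeal ≤ Ideal.comap (Ideal.Quotient.mk P.asIdeal) x.asIdeal
      intro a ha
      rw [Ideal.mem_comap, Ideal.Quotient.eq_zero_iff_mem.mpr ha]
      exact x.asIdeal.zero_mem
    rw [← specializes_iff_mem_closure, ← heP]
    exact (LibMX2.s11_le hV P (c x)).2 h1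
  let g : PrimeSpectrum (Γ(X, V) ⧸ P.asIdeal) → (closure {t} : Set X) := fun x => ⟨(e ∘ c) x, hmem x⟩
  have hgi : Topology.IsInducing g := (he.isInducing.comp hc.isInducing).codRestrict hmem
  have hginj : Function.Injective g := by
    intro a b hab
    have h0 : (g a).1 = (g b).1 := by rw [hab]
    exact hc.injective (he.injective h0)
  have hrange : Set.range g = {y : (closure {t} : Set X) | y.1 ∈ V} := by
    ext y
    constructor
    · rintro ⟨x, rfl⟩
      exact LibMX2.s11_mem hV (c x)
    · intro hy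
      have h1 : hV.fromSpec (hV.primeIdealOf ⟨y.1, hy⟩) = y.1 := hV.fromSpec_primeIdealOf ⟨y.1, hy⟩
      have h2 : t ⤳ y.1 := by
        rw [specializes_iff_mem_closure]
        exact y.2
      have h3 : P ≤ hV.primeIdealOf ⟨y.1, hy⟩ := by
        rw [← LibMX2.s11_le hV, heP, h1]
        exact h2
      have h4 : hV.primeIdealOf ⟨y.1, hy⟩ ∈ Set.range c := by
        rw [range_comap_of_surjective _ _ Ideal.Quotient.mk_surjective,
          PrimeSpectrum.mem_zeroLocus, Ideal.mk_ker]
        exact h3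
      obtain ⟨z, hz⟩ := h4
      refine ⟨z, Subtype.ext ?_⟩
      change hV.fromSpec (c z) = y.1
      rw [hz, h1]
  have hemb : Topology.IsOpenEmbedding g := by
    refine ⟨⟨hgi, hginj⟩, ?_⟩
    rw [hrange]
    exact V.isOpen.preimage continuous_subtype_val
  obtain ⟨Z, hZ⟩ : ∃ Z : IrreducibleCloseds (PrimeSpectrum (Γ(X, V) ⧸ P.asIdeal)),
      IrreducibleCloseds.map g hemb.continuous Z = p.head := by
    have hne : (g ⁻¹' (p.head : Set (closure {t} : Set X))).Nonempty := by
      have hxr : x ∈ Set.range g := by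
        rw [hrange]
        exact hxV
      obtain ⟨z, hz⟩ := hxr
      refine ⟨z, ?_⟩
      rw [Set.mem_preimage, hz]
      exact hx
    refine ⟨(IrreducibleCloseds.orderIsoOfIsOpenEmbedding _ hemb).symm ⟨p.head, hne⟩, ?_⟩
    have h1 := (IrreducibleCloseds.orderIsoOfIsOpenEmbedding _ hemb).apply_symm_apply
      ⟨p.head, hne⟩
    exact congrArg Subtype.val h1
  have h1 : (p.length : ℕ∞) ≤ Order.coheight Z := by
    have h0 := hemb.coheight_map Z
    have h0' : (p.length : ℕ∞) ≤ Order.coheight p.head := Order.length_le_coheight_head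
    rw [← hZ] at h0'
    exact h0'.trans_eq h0
  have h2 : ((p.length : ℕ∞) : WithBot ℕ∞) ≤
      topologicalKrullDim (PrimeSpectrum (Γ(X, V) ⧸ P.asIdeal)) :=
    (WithBot.coe_le_coe.2 h1).trans (Order.coheight_le_krullDim Z)
  rw [PrimeSpectrum.topologicalKrullDim_eq_ringKrullDim, LibMX2.dim_eq _ hft,
    LibMX2.tr_indep s V U hV hU t htV ht] at h2
  exact h2

theorem avoid (X : Scheme.{0}) (s : X ⟶ Spec (CommRingCat.of k)) [LocallyOfFiniteType s] (n : ℕ)
    (T : Set X) (hT : IsClosed T) (hT' : IsIrreducible T)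
    (hn : ((n + 1 : ℕ) : WithBot ℕ∞) ≤ topologicalKrullDim T) (p : X) (hp : IsClosed {p}) :
    ∃ T' : Set X, IsClosed T' ∧ IsIrreducible T' ∧ T' ⊆ T ∧ p ∉ T' ∧
      (n : WithBot ℕ∞) ≤ topologicalKrullDim T' := by
  by_cases hpT : p ∈ T
  swap
  · refine ⟨T, hT, hT', subset_rfl, hpT, le_trans ?_ hn⟩
    exact_mod_cast Nat.le_succ n
  obtain ⟨t, ht⟩ := QuasiSober.sober hT' hT
  have htT : closure {t} = T := ht
  subst htT
  have htp : t ⤳ p := by
    rw [specializes_iff_mem_closure]
    exact hpT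
  obtain ⟨U, hU, hpU, -⟩ := exists_isAffineOpen_mem_and_subset (X := X) (x := p) (U := ⊤) trivial
  have htU : t ∈ U := htp.mem_open U.isOpen hpU
  have hdim := D5_dim_le s U hU t htU
  set P := hU.primeIdealOf ⟨t, htU⟩ with hP
  set z := hU.primeIdealOf ⟨p, hpU⟩ with hz
  have heP : hU.fromSpec P = t := hU.fromSpec_primeIdealOf ⟨t, htU⟩
  have hez : hU.fromSpec z = p := hU.fromSpec_primeIdealOf ⟨p, hpU⟩
  have : P.asIdeal.IsPrime := P.isPrime
  have hzm : z.asIdeal.IsMaximal := LibMX2.s11_max hU z (by rw [hez]; exact hp)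
  have hPz : P ≤ z := by
    rw [← LibMX2.s11_le hU, heP, hez]
    exact htp
  have htr : n + 1 ≤ LibMX2.tr (LibMX2.quo (LibMX2.kmap s U) P.asIdeal) := by
    have h := hn.trans hdim
    exact_mod_cast h
  have hft := LibMX2.kmap_ft s U hU
  have hne : P.asIdeal ≠ z.asIdeal := by
    intro h
    have hft' : (LibMX2.quo (LibMX2.kmap s U) P.asIdeal).FiniteType := LibMX2.a12_quo_ft _ hft _
    refine LibMX2.a12_not_field _ hft' (by omega) ?_
    rw [← Ideal.Quotient.maximal_ideal_iff_isField_quotient, h]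
    exact hzm
  have hlt : P.asIdeal < z.asIdeal := lt_of_le_of_ne hPz hne
  obtain ⟨m, hm, hPm, a, ham, haz⟩ := LibMX2.jac (LibMX2.kmap s U) hft P.asIdeal z.asIdeal hlt
  have : m.IsPrime := hm.isPrime
  obtain ⟨w, hw, hPw, hwm, haw, htrw⟩ := LibMX2.tr_between (LibMX2.kmap s U) hft P.asIdeal m hPm a ham
  let Q : PrimeSpectrum Γ(X, U) := ⟨w, hw⟩
  refine ⟨closure {hU.fromSpec Q}, isClosed_closure, isIrreducible_singleton.closure, ?_, ?_, ?_⟩
  · refine closure_minimal ?_ isClosed_closure
    rw [Set.singleton_subset_iff, ← specializes_iff_mem_closure, ← heP]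
    exact (LibMX2.s11_le hU P Q).2 hPw
  · intro h
    rw [← specializes_iff_mem_closure, ← hez, LibMX2.s11_le hU] at h
    exact haz (h haw)
  · refine le_trans ?_ (LibMX2.tr_le_closure s U hU Q)
    have : n ≤ LibMX2.tr (LibMX2.quo (LibMX2.kmap s U) w) := by omega
    exact_mod_cast this

theorem inter_infinite (X : Scheme.{0}) (s : X ⟶ Spec (CommRingCat.of k))
    [LocallyOfFiniteType s] (r : ℕ) (B : Set X) (hB : IsClosed B)
    (hY1 : ∀ T : Set X, IsClosed T → IsIrreducible T → (r : WithBot ℕ∞) ≤ topologicalKrullDim T →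
      (T ∩ B).Nonempty)
    (hY2 : ∀ T : Set X, IsClosed T → IsIrreducible T →
      ((r + 1 : ℕ) : WithBot ℕ∞) ≤ topologicalKrullDim T → _root_.IsPreconnected (T ∩ B))
    (T : Set X) (hT : IsClosed T) (hT' : IsIrreducible T)
    (hn : ((r + 1 : ℕ) : WithBot ℕ∞) ≤ topologicalKrullDim T) : (T ∩ B).Infinite := by
  intro hfin
  have hjac : JacobsonSpace X := LocallyOfFiniteType.jacobsonSpace s
  have hcl : ∀ x ∈ T ∩ B, IsClosed ({x} : Set X) := by
    intro x hx
    have h1 : closure {x} ⊆ T ∩ B :=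
      closure_minimal (Set.singleton_subset_iff.2 hx) (hT.inter hB)
    have h2 := JacobsonSpace.closure_inter_closedPoints (X := X) (Z := closure {x}) isClosed_closure
    have h3 : IsClosed (closure {x} ∩ closedPoints X) := by
      have h4 : (closure {x} ∩ closedPoints X) =
          ⋃ y ∈ (closure {x} ∩ closedPoints X), ({y} : Set X) :=
        (Set.biUnion_of_singleton _).symm
      rw [h4]
      exact ((hfin.subset h1).subset Set.inter_subset_left).isClosed_biUnion fun y hy => hy.2
    rw [h3.closure_eq] at h2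
    have h5 : x ∈ closure {x} ∩ closedPoints X := by
      rw [h2]
      exact subset_closure rfl
    exact h5.2
  obtain ⟨p, hp⟩ := hY1 T hT hT' (le_trans (by exact_mod_cast Nat.le_succ r) hn)
  have hsub : ∀ q ∈ T ∩ B, q = p := by
    intro q hq
    by_contra hqp
    have hpre := isPreconnected_closed_iff.1 (hY2 T hT hT' hn)
    have h4 : IsClosed ((T ∩ B) \ {p}) := by
      have h5 : (T ∩ B) \ {p} = ⋃ y ∈ (T ∩ B) \ {p}, ({y} : Set X) :=
      (Set.biUnion_of_singleton _).symm
      rw [h5]
      exact (hfin.subset (fun y hy => hy.1)).isClosed_biUnion fun y hy => hcl y hy.1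
    obtain ⟨w, _, hw1, hw2⟩ := hpre {p} ((T ∩ B) \ {p}) (hcl p hp) h4 (by
      intro y hy
      by_cases h : y = p
      · exact Or.inl h
      · exact Or.inr ⟨hy, h⟩) ⟨p, hp, rfl⟩ ⟨q, hq, hq, hqp⟩
    exact hw2.2 hw1
  obtain ⟨T', hT'1, hT'2, hT'3, hpT', hdim⟩ := avoid X s r T hT hT' hn p (hcl p hp)
  obtain ⟨q, hq1, hq2⟩ := hY1 T' hT'1 hT'2 hdim
  have := hsub q ⟨hT'3 hq1, hq2⟩
  rw [this] at hq1
  exact hpT' hq1

end LibHM79
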