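import Pool.Agent.LibHM79.B3
import Pool.Agent.LibHM79.B1
import Pool.Agent.LibHM79.D4
import Pool.Agent.LibHM79.D5

/-! D6 (SHORT/MEDIUM). The sets TT i π g z. Plan: Φ := (act g).left ∘ i.left : Y.left → X.left is a closed embedding (i closed
immersion, act g iso), so images of closed irreducible sets are closed irreducible of the same dimension
(topologicalKrullDim is a homeomorphism invariant: IsHomeomorph / Topology.IsEmbedding... F ≃ₜ Φ '' F). Infinite: take a closed
point y of the fibre (nonempty closed; B1 exists_pt or surjectivity), F from fib_dim, T := Φ '' F, inter_infinite with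
B = range i; TT ⊇ i⁻¹(T), i injective. Preconnected: T := Φ '' (π⁻¹{ev z}), dimension ≥ r + 1 (contains Φ '' F closed in it:
monotone), T ∩ range i preconnected and TT = i⁻¹(T), i an embedding: IsPreconnected of the preimage
(Topology.IsInducing.isPreconnected_image). -/

namespace LibHM79

open AlgebraicGeometry CategoryTheory MonoidalCategory CartesianMonoidalCategory MonObj Limits TopologicalSpace

private lemma D6_dim_le {A B : Type*} [TopologicalSpace A] [TopologicalSpace B] {Φ : A → B}
    (hΦ : Topology.IsEmbedding Φ) {F E : Set A} (hFE : F ⊆ E) :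
    topologicalKrullDim F ≤ topologicalKrullDim (Φ '' E) := by
  have hmem : ∀ x : F, Φ x.1 ∈ Φ '' E := fun x => ⟨x.1, hFE x.2, rfl⟩
  have hcont : Continuous (fun x : F => (⟨Φ x.1, hmem x⟩ : (Φ '' E : Set B))) :=
    (hΦ.continuous.comp continuous_subtype_val).subtype_mk _
  have hind : Topology.IsInducing (fun x : F => (⟨Φ x.1, hmem x⟩ : (Φ '' E : Set B))) := by
    refine Topology.IsInducing.of_comp hcont continuous_subtype_val ?_
    exact hΦ.isInducing.comp Topology.IsInducing.subtypeVal
  exact hind.topologicalKrullDim_le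

private lemma D6_inter {A B : Type*} {f : A → B} (T : Set B) :
    f '' (f ⁻¹' T) = T ∩ Set.range f := Set.image_preimage_eq_inter_range

variable {k : Type} [Field k] [IsAlgClosed k] {G X Y Z : SchK k} [GrpObj G] [ModObj G X]
  [LocallyOfFiniteType X.hom] [IsIntegral Y.left] [LocallyOfFiniteType Y.hom]
  [LocallyOfFiniteType Z.hom] (i : Y ⟶ X) [IsClosedImmersion i.left] (π : Y ⟶ Z)
  [Surjective π.left] (r : ℕ)
  (hY1 : ∀ T : Set X.left, IsClosed T → IsIrreducible T →
    (r : WithBot ℕ∞) ≤ topologicalKrullDim T → (T ∩ Set.range i.left).Nonempty)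
  (hY2 : ∀ T : Set X.left, IsClosed T → IsIrreducible T →
    ((r + 1 : ℕ) : WithBot ℕ∞) ≤ topologicalKrullDim T → _root_.IsPreconnected (T ∩ Set.range i.left))
  (hdim : topologicalKrullDim Z.left + r < topologicalKrullDim Y.left)
  (g : 𝟙_ (SchK k) ⟶ G) (z : 𝟙_ (SchK k) ⟶ Z)

omit [IsAlgClosed k] [LocallyOfFiniteType X.hom] [IsIntegral Y.left] [LocallyOfFiniteType Y.hom] in
private lemma D6_emb : Topology.IsClosedEmbedding
    (fun y : Y.left => (act g : X ⟶ X).left (i.left y)) := by
  have h1 : Topology.IsClosedEmbedding i.left := i.left.isClosedEmbedding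
  have h3 : IsIso (act g : X ⟶ X) := act_iso g
  have h4 : IsIso (act g : X ⟶ X).left := by
    have h5 := (inferInstance : IsIso ((Over.forget _).map (act g : X ⟶ X)))
    exact h5
  have h2 : Topology.IsClosedEmbedding (act g : X ⟶ X).left :=
    (act g : X ⟶ X).left.isClosedEmbedding
  exact h2.comp h1

omit [IsAlgClosed k] [LocallyOfFiniteType X.hom] [IsIntegral Y.left] [LocallyOfFiniteType Y.hom]
  [LocallyOfFiniteType Z.hom] [IsClosedImmersion i.left] [Surjective π.left] in
private lemma D6_TT : TT i π g z =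
    i.left ⁻¹' ((fun y : Y.left => (act g : X ⟶ X).left (i.left y)) '' (π.left ⁻¹' {ev z})) := by
  unfold TT
  rw [Set.image_image]

omit [LocallyOfFiniteType X.hom] [IsIntegral Y.left] [LocallyOfFiniteType Y.hom]
  [Surjective π.left] in
private lemma D6_fibre_closed : IsClosed (π.left ⁻¹' {ev z}) :=
  (ev_closed z).preimage π.left.continuous

include hdim in
private lemma D6_F : ∃ F : Set Y.left, IsClosed F ∧ IsIrreducible F ∧ F ⊆ π.left ⁻¹' {ev z} ∧
      ((r + 1 : ℕ) : WithBot ℕ∞) ≤ topologicalKrullDim F := by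
  obtain ⟨t, ht⟩ := lift_pt π z
  have hy : π.left (ev t) = ev z := by
    rw [← ev_comp, ht]
  obtain ⟨F, h1, h2, _, h4, h5⟩ := fib_dim π r hdim (ev t) (ev_closed t)
  rw [hy] at h4
  exact ⟨F, h1, h2, h4, h5⟩

include hY1 hY2 hdim in
theorem TT_infinite : IsClosed (TT i π g z) ∧ (TT i π g z).Infinite := by
  have hemb : Topology.IsClosedEmbedding
      (fun y : Y.left => (act g : X ⟶ X).left (i.left y)) := D6_emb i g
  constructor
  · rw [D6_TT]
    refine IsClosed.preimage i.left.continuous ?_
    exact hemb.isClosedMap _ (D6_fibre_closed π z)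
  · obtain ⟨F, h1, h2, h4, h5⟩ := D6_F π r hdim z
    have h6 := inter_infinite X.left X.hom r (Set.range i.left)
      i.left.isClosedEmbedding.isClosed_range hY1 hY2
      ((fun y : Y.left => (act g : X ⟶ X).left (i.left y)) '' F)
      (hemb.isClosedMap _ h1)
      (h2.image _ hemb.continuous.continuousOn)
      (h5.trans (D6_dim_le hemb.isEmbedding (subset_refl F)))
    rw [← D6_inter] at h6
    have h7 := Set.Infinite.of_image _ h6
    refine h7.mono ?_
    rw [D6_TT]
    exact Set.preimage_mono (Set.image_mono h4)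

include hY2 hdim in
theorem TT_preconnected (hz : IsIrreducible (π.left ⁻¹' {ev z})) :
    _root_.IsPreconnected (TT i π g z) := by
  have hemb : Topology.IsClosedEmbedding
      (fun y : Y.left => (act g : X ⟶ X).left (i.left y)) := D6_emb i g
  obtain ⟨F, h1, h2, h4, h5⟩ := D6_F π r hdim z
  have h6 := hY2
      ((fun y : Y.left => (act g : X ⟶ X).left (i.left y)) '' (π.left ⁻¹' {ev z}))
      (hemb.isClosedMap _ (D6_fibre_closed π z))
      (hz.image _ hemb.continuous.continuousOn)
      (h5.trans (D6_dim_le hemb.isEmbedding h4))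
  rw [← D6_inter] at h6
  rw [D6_TT]
  exact (i.left.isClosedEmbedding.isInducing.isPreconnected_image).1 h6

omit [IsAlgClosed k] [LocallyOfFiniteType X.hom] [IsIntegral Y.left] [LocallyOfFiniteType Y.hom]
  [LocallyOfFiniteType Z.hom] [Surjective π.left] in
theorem TT_one : TT i π (1 : 𝟙_ (SchK k) ⟶ G) z = π.left ⁻¹' {ev z} := by
  unfold TT
  rw [act_one]
  have h1 : ((𝟙 X : X ⟶ X).left : X.left → X.left) '' (i.left '' (π.left ⁻¹' {ev z})) =
      i.left '' (π.left ⁻¹' {ev z}) := by
    ext x
    constructor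
    · rintro ⟨y, hy, rfl⟩
      exact hy
    · intro hx
      exact ⟨x, hx, rfl⟩
  rw [h1, Set.preimage_image_eq _ i.left.isClosedEmbedding.injective]

end LibHM79
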