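import Pool.Agent.LibHM79.N1

/-! N2 (MEDIUM/STRONG). A scheme smooth over a normal scheme, and integral, is normal. Plan: local: f is locally
standard smooth (Mathlib AlgebraicGeometry.Morphisms.Smooth, RingTheory.Smooth.StandardSmooth*), so near v there are affine opens
Spec S → Spec R with S standard smooth over R, i.e. étale over some R[t_1..t_n]
(Algebra.IsStandardSmooth / SubmersivePresentation: look for the étale factorization through MvPolynomial; Mathlib
RingTheory.Etale.StandardEtale, Smooth.StandardSmoothOfFree, or Algebra.Smooth.exists_etale_mvPolynomial or similar). R may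
be taken a normal domain: R normal since its localizations are stalks of Z (or replace R by its localization at the
image point: then the polynomial ring is over a local normal domain). Polynomial rings over a normal domain are normal (grep
isIntegrallyClosed for MvPolynomial / Polynomial; else: intersection of UFD-like argument or
integral closure commutes with smooth base change: TensorProduct.toIntegralClosure_mvPolynomial_bijective with B = Frac R
and R[t] over a field is a UFD). Then N1. Finally a localization of a normal domain is normal: stalk of V at v. -/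

namespace LibHM79

open AlgebraicGeometry CategoryTheory MonoidalCategory CartesianMonoidalCategory MonObj Limits TopologicalSpace

private theorem N2_mv (R : Type) [CommRing R] [IsDomain R] [IsIntegrallyClosed R] (n : ℕ) :
    IsIntegrallyClosed (MvPolynomial (Fin n) R) := by
  induction n with
  | zero => exact IsIntegrallyClosed.of_equiv (MvPolynomial.isEmptyRingEquiv R (Fin 0)).symm
  | succ n ih =>
    have h1 : IsIntegrallyClosed (Polynomial (MvPolynomial (Fin n) R)) := inferInstance
    exact IsIntegrallyClosed.of_equiv (MvPolynomial.finSuccEquiv R n).toRingEquiv.symm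

private theorem N2_alg {R S : Type} [CommRing R] [IsDomain R] [IsIntegrallyClosed R] [CommRing S]
    [IsDomain S] [Algebra R S] [Algebra.Smooth R S] (p : Ideal S) [p.IsPrime] (T : Type)
    [CommRing T] [Algebra S T] [IsLocalization.AtPrime T p] : IsIntegrallyClosed T := by
  obtain ⟨f, hfp, n, hA, hT, hE⟩ :=
    Algebra.IsSmoothAt.exists_isStandardEtale_mvPolynomial (R := R) (p := p)
  have hf0 : f ≠ 0 := by
    rintro rfl
    exact hfp p.zero_mem
  have hmv := N2_mv R n
  have hle : Submonoid.powers f ≤ nonZeroDivisors S := powers_le_nonZeroDivisors_of_noZeroDivisors hf0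
  have hdom : IsDomain (Localization.Away f) :=
    IsLocalization.isDomain_of_le_nonZeroDivisors (M := Submonoid.powers f) _ hle
  have hnorm : IsIntegrallyClosed (Localization.Away f) :=
    etale_normal (R := MvPolynomial (Fin n) R)
  have hpc : Submonoid.powers f ≤ p.primeCompl := by
    rintro _ ⟨m, rfl⟩
    exact fun h => hfp (Ideal.IsPrime.mem_of_pow_mem ‹_› m h)
  let g : Localization.Away f →+* T := IsLocalization.lift (M := Submonoid.powers f)
    (g := algebraMap S T) fun y => IsLocalization.map_units T (⟨y, hpc y.2⟩ : p.primeCompl)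
  let _ : Algebra (Localization.Away f) T := g.toAlgebra
  have hst : IsScalarTower S (Localization.Away f) T := by
    refine IsScalarTower.of_algebraMap_eq' ?_
    rw [RingHom.algebraMap_toAlgebra]
    exact (IsLocalization.lift_comp _).symm
  have hloc : IsLocalization (p.primeCompl.map (algebraMap S (Localization.Away f))) T :=
    IsLocalization.isLocalization_of_submonoid_le (Localization.Away f) T (Submonoid.powers f)
      p.primeCompl hpc
  refine isIntegrallyClosed_of_isLocalization T
    (p.primeCompl.map (algebraMap S (Localization.Away f))) ?_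
  rintro _ ⟨s, hs, rfl⟩
  refine mem_nonZeroDivisors_of_ne_zero fun h => ?_
  have h1 := IsLocalization.injective (Localization.Away f) hle (h.trans (map_zero _).symm)
  rw [h1] at hs
  exact hs p.zero_mem

theorem smooth_normal (V Z : Scheme.{0}) [IsIntegral V] [IsIntegral Z] (f : V ⟶ Z) [Smooth f]
    (hZ : ∀ z : Z, IsIntegrallyClosed (Z.presheaf.stalk z)) (v : V) :
    IsIntegrallyClosed (V.presheaf.stalk v) := by
  obtain ⟨U, hU, W, hW, hv, e, -⟩ := Smooth.exists_isStandardSmooth f v
  have hsm := f.smooth_appLE hU hW e
  have hneU : Nonempty U := ⟨⟨f v, e hv⟩⟩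
  have hneW : Nonempty W := ⟨⟨v, hv⟩⟩
  have hR : IsIntegrallyClosed Γ(Z, U) := by
    refine IsIntegrallyClosed.of_localization_maximal fun p _ hp => ?_
    have hy : hU.fromSpec ⟨p, hp.isPrime⟩ ∈ U := by
      have h0 : hU.fromSpec ⟨p, hp.isPrime⟩ ∈ Set.range hU.fromSpec := ⟨_, rfl⟩
      rw [hU.range_fromSpec] at h0
      exact h0
    have h1 := hU.isLocalization_stalk' ⟨p, hp.isPrime⟩ hy
    let _ := TopCat.Presheaf.algebra_section_stalk Z.presheaf ⟨_, hy⟩
    have h2 := hZ (hU.fromSpec ⟨p, hp.isPrime⟩)
    have h1' : IsLocalization.AtPrime (Z.presheaf.stalk (hU.fromSpec ⟨p, hp.isPrime⟩)) p := h1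
    exact IsIntegrallyClosed.of_equiv
      (IsLocalization.algEquiv p.primeCompl (Z.presheaf.stalk (hU.fromSpec ⟨p, hp.isPrime⟩))
        (Localization.AtPrime p)).toRingEquiv
  algebraize [(f.appLE U W e).hom]
  let _ := TopCat.Presheaf.algebra_section_stalk V.presheaf ⟨v, hv⟩
  have hloc : IsLocalization.AtPrime (V.presheaf.stalk v) (hW.primeIdealOf ⟨v, hv⟩).asIdeal :=
    hW.isLocalization_stalk ⟨v, hv⟩
  exact N2_alg (R := Γ(Z, U)) (S := Γ(V, W)) (hW.primeIdealOf ⟨v, hv⟩).asIdeal
    (V.presheaf.stalk v)

end LibHM79
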