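import Pool.Agent.LibHM79.Defs
import Pool.Agent.LibHM79.B1

/-! N3 (MEDIUM). Products of integral schemes of finite type over an algebraically closed field are
integral. Plan: affine case: A, B domains over k = k-bar, A of finite type: A ⊗ B is a domain: if f g = 0 then for each maximal
ideal m of A (A/m = k) f_m g_m = 0 in B, so Max A = {f_m = 0} ∪ {g_m = 0} (closed sets; write f = Σ a_i ⊗ b_i
with b_i a k-basis of B), A Jacobson domain. (LibKY.B3 isDomain_tensor has the case of ℂ; LibFB.Reg
isDomain_regular may help.) Global: nonempty overlaps: any two nonempty affine opens U × V, U' × V' of the product meet since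
U ∩ U', V ∩ V' are nonempty; a scheme covered by integral opens meeting pairwise is integral. -/

namespace LibHM79

open AlgebraicGeometry CategoryTheory MonoidalCategory CartesianMonoidalCategory MonObj Limits TopologicalSpace

section Algebra

open TensorProduct

/-- a nonzero element of a finitely generated algebra over an algebraically closed field is nonzero
at some rational point -/
private theorem n3_point {K A : Type} [Field K] [IsAlgClosed K] [CommRing A] [IsDomain A]
    [Algebra K A] [Algebra.FiniteType K A] (a : A) (ha : a ≠ 0) : ∃ φ : A →ₐ[K] K, φ a ≠ 0 := by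
  have h1 : Nontrivial (Localization.Away a) := by
    have := IsLocalization.injective (Localization.Away a)
      (powers_le_nonZeroDivisors_of_noZeroDivisors ha)
    exact this.nontrivial
  obtain ⟨M, hM⟩ := Ideal.exists_maximal (Localization.Away a)
  have h2 : Algebra.FiniteType A (Localization.Away a) :=
    IsLocalization.finiteType_of_monoid_fg (Submonoid.powers a) _
  have h3 : Algebra.FiniteType K (Localization.Away a) := Algebra.FiniteType.trans
    (inferInstance : Algebra.FiniteType K A) h2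
  have h4 : Algebra.FiniteType K (Localization.Away a ⧸ M) :=
    Algebra.FiniteType.of_surjective (Ideal.Quotient.mkₐ K M) (Ideal.Quotient.mkₐ_surjective K M)
  let _ : Field (Localization.Away a ⧸ M) := Ideal.Quotient.field M
  have h5 : Module.Finite K (Localization.Away a ⧸ M) :=
    finite_of_finite_type_of_isJacobsonRing K (Localization.Away a ⧸ M)
  have h6 : Function.Bijective (algebraMap K (Localization.Away a ⧸ M)) :=
    IsAlgClosed.algebraMap_bijective_of_isIntegral
  let e : K ≃ₐ[K] (Localization.Away a ⧸ M) := AlgEquiv.ofBijective (Algebra.ofId _ _) h6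
  let φ : A →ₐ[K] K := (e.symm : (Localization.Away a ⧸ M) →ₐ[K] K).comp
    ((Ideal.Quotient.mkₐ K M).comp (IsScalarTower.toAlgHom K A (Localization.Away a)))
  refine ⟨φ, ?_⟩
  have h7 : IsUnit (φ a) := by
    have h8 : IsUnit (algebraMap A (Localization.Away a) a) :=
      IsLocalization.Away.algebraMap_isUnit a
    exact (h8.map (Ideal.Quotient.mkₐ K M)).map (e.symm : (Localization.Away a ⧸ M) →ₐ[K] K)
  exact h7.ne_zero

/-- the tensor product of two domains over an algebraically closed field is a domain -/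
private theorem n3_domain {K A B : Type} [Field K] [IsAlgClosed K] [CommRing A] [IsDomain A]
    [CommRing B] [IsDomain B] [Algebra K A] [Algebra K B] [Algebra.FiniteType K A] :
    IsDomain (A ⊗[K] B) := by
  have hnt : Nontrivial (A ⊗[K] B) := inferInstance
  have hnz : NoZeroDivisors (A ⊗[K] B) := by
    constructor
    intro f g hfg
    by_contra hcon
    push Not at hcon
    obtain ⟨hf, hg⟩ := hcon
    let β := Module.Basis.ofVectorSpace K B
    let β' := β.baseChange A
    have key : ∀ f : A ⊗[K] B, f ≠ 0 → ∃ i, β'.repr f i ≠ 0 := by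
      intro f hf
      by_contra hcon
      push Not at hcon
      apply hf
      apply β'.repr.injective
      ext i
      rw [hcon i, map_zero]
      rfl
    obtain ⟨i, hi⟩ := key f hf
    obtain ⟨j, hj⟩ := key g hg
    obtain ⟨φ, hφ⟩ := n3_point (K := K) _ (mul_ne_zero hi hj)
    rw [map_mul] at hφ
    let Φ : A ⊗[K] B →ₐ[K] B := Algebra.TensorProduct.lift ((Algebra.ofId K B).comp φ)
      (AlgHom.id K B) (fun _ _ => Commute.all _ _)
    have hΦ : ∀ (f : A ⊗[K] B) (i : _), β.repr (Φ f) i = φ (β'.repr f i) := by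
      intro f i
      induction f with
      | zero => simp
      | add x y hx hy => simp only [map_add, Finsupp.add_apply, hx, hy]
      | tmul x y =>
        rw [Module.Basis.baseChange_repr_tmul]
        rw [show Φ (x ⊗ₜ[K] y) = (φ x) • y by
          simp [Φ, Algebra.TensorProduct.lift_tmul, Algebra.ofId_apply, Algebra.smul_def]]
        simp [mul_comm]
    have h1 : Φ f * Φ g = 0 := by rw [← map_mul, hfg, map_zero]
    rcases mul_eq_zero.mp h1 with h | h
    · apply hφ
      rw [← hΦ, h]
      simp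
    · apply hφ
      rw [← hΦ g j, h]
      simp
  exact NoZeroDivisors.to_isDomain _

end Algebra

private theorem n3_affine (K : Type) [Field K] [IsAlgClosed K] (A B : CommRingCat.{0})
    (φ : CommRingCat.of K ⟶ A) (ψ : CommRingCat.of K ⟶ B) (hA : IsIntegral (Spec A))
    (hB : IsIntegral (Spec B)) (hφ : φ.hom.FiniteType) : IsIntegral (pullback (Spec.map φ) (Spec.map ψ)) := by
  have hA' : IsDomain A := (affine_isIntegral_iff _).mp hA
  have hB' : IsDomain B := (affine_isIntegral_iff _).mp hB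
  algebraize [φ.hom, ψ.hom]
  have h1 : IsDomain (TensorProduct K A B) := n3_domain
  have h2 : IsIntegral (Spec (CommRingCat.of (TensorProduct K A B))) := inferInstance
  have h3 : Nonempty (pullback (Spec.map φ) (Spec.map ψ) : Scheme.{0}) := by
    obtain ⟨x⟩ := (inferInstance : Nonempty (Spec (CommRingCat.of (TensorProduct K A B))))
    exact ⟨(pullbackSpecIso K A B).inv x⟩
  exact isIntegral_of_isOpenImmersion (pullbackSpecIso K A B).hom

/-- a space covered by open irreducible sets which meet pairwise -/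
private theorem n3_top {X J : Type} [TopologicalSpace X] [Nonempty X] (W : J → Set X)
    (h1 : ∀ i, IsOpen (W i)) (h2 : ∀ i, IsPreirreducible (W i)) (h3 : ∀ x, ∃ i, x ∈ W i)
    (h4 : ∀ i j, (W i).Nonempty → (W j).Nonempty → (W i ∩ W j).Nonempty) :
    IrreducibleSpace X := by
  have : PreirreducibleSpace X := by
    refine ⟨?_⟩
    rintro U V hU hV ⟨x, -, hx⟩ ⟨y, -, hy⟩
    obtain ⟨i, hi⟩ := h3 x
    obtain ⟨j, hj⟩ := h3 y
    obtain ⟨z, hz, hz'⟩ := h4 i j ⟨x, hi⟩ ⟨y, hj⟩
    obtain ⟨a, ha1, ha2, ha3⟩ := h2 i U (W j) hU (h1 j) ⟨x, hi, hx⟩ ⟨z, hz, hz'⟩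
    obtain ⟨c, hc1, hc2, hc3⟩ := h2 j U V hU hV ⟨a, ha3, ha2⟩ ⟨y, hj, hy⟩
    exact ⟨c, trivial, hc2, hc3⟩
  exact { toPreirreducibleSpace := this, toNonempty := inferInstance }

theorem prod_integral {k : Type} [Field k] [IsAlgClosed k] (T T' : SchK k) [IsIntegral T.left]
    [IsIntegral T'.left] [LocallyOfFiniteType T.hom] [LocallyOfFiniteType T'.hom] :
    IsIntegral (T ⊗ T').left := by
  let P : Scheme.{0} := pullback T.hom T'.hom
  change IsIntegral P
  let 𝒰 := T.left.affineCover
  let 𝒱 := T'.left.affineCover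
  let 𝒲 := Scheme.Pullback.openCoverOfLeftRight 𝒰 𝒱 T.hom T'.hom
  -- the pieces
  have hpiece : ∀ ij : 𝒲.I₀, Nonempty (𝒲.X ij) → IsIntegral (𝒲.X ij) := by
    rintro ⟨i, j⟩ ⟨x⟩
    have hx : Nonempty (𝒰.X i) := ⟨pullback.fst (𝒰.f i ≫ T.hom) (𝒱.f j ≫ T'.hom) x⟩
    have hy : Nonempty (𝒱.X j) := ⟨pullback.snd (𝒰.f i ≫ T.hom) (𝒱.f j ≫ T'.hom) x⟩
    have h1 : IsIntegral (𝒰.X i) := isIntegral_of_isOpenImmersion (𝒰.f i)
    have h2 : IsIntegral (𝒱.X j) := isIntegral_of_isOpenImmersion (𝒱.f j)
    obtain ⟨φ, hφ⟩ := Spec.map_surjective (𝒰.f i ≫ T.hom)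
    obtain ⟨ψ, hψ⟩ := Spec.map_surjective (𝒱.f j ≫ T'.hom)
    have h5 : LocallyOfFiniteType (Spec.map φ) := by
      rw [hφ]
      exact (inferInstance : LocallyOfFiniteType (𝒰.f i ≫ T.hom))
    have h6 : φ.hom.FiniteType := (HasRingHomProperty.Spec_iff (P := @LocallyOfFiniteType)).mp h5
    change IsIntegral (pullback (𝒰.f i ≫ T.hom) (𝒱.f j ≫ T'.hom))
    have h7 := n3_affine k _ _ φ ψ h1 h2 h6
    rw [hφ, hψ] at h7
    exact h7
  -- reduced
  have hred : IsReduced P := by
    have h1 : ∀ ij : 𝒲.I₀, IsReduced (𝒲.X ij) := by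
      intro ij
      by_cases h : Nonempty (𝒲.X ij)
      · have := hpiece ij h
        infer_instance
      · have h2 : ∀ x : 𝒲.X ij, _root_.IsReduced ((𝒲.X ij).presheaf.stalk x) :=
          fun x => absurd ⟨x⟩ h
        exact isReduced_of_isReduced_stalk _
    exact IsReduced.of_openCover P 𝒲
  -- overlaps
  have hrange : ∀ ij : 𝒲.I₀, Set.range (𝒲.f ij) =
      (pullback.fst T.hom T'.hom) ⁻¹' Set.range (𝒰.f ij.1) ∩
        (pullback.snd T.hom T'.hom) ⁻¹' Set.range (𝒱.f ij.2) := by
    intro ij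
    exact Scheme.Pullback.range_map (𝒰.f ij.1 ≫ T.hom) (𝒱.f ij.2 ≫ T'.hom) T.hom T'.hom
      (𝒰.f ij.1) (𝒱.f ij.2) (𝟙 _) (Category.comp_id _) (Category.comp_id _)
  have hmeet : ∀ ij ij' : 𝒲.I₀, (Set.range (𝒲.f ij)).Nonempty →
      (Set.range (𝒲.f ij')).Nonempty → (Set.range (𝒲.f ij) ∩ Set.range (𝒲.f ij')).Nonempty := by
    rintro ij ij' ⟨_, ⟨x, rfl⟩⟩ ⟨_, ⟨y, rfl⟩⟩
    have hx : 𝒲.f ij x ∈ Set.range (𝒲.f ij) := ⟨x, rfl⟩
    have hy : 𝒲.f ij' y ∈ Set.range (𝒲.f ij') := ⟨y, rfl⟩
    rw [hrange] at hx hy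
    have h1 : (Set.range (𝒰.f ij.1) ∩ Set.range (𝒰.f ij'.1)).Nonempty :=
      nonempty_preirreducible_inter (𝒰.f ij.1).isOpenEmbedding.isOpen_range
        (𝒰.f ij'.1).isOpenEmbedding.isOpen_range ⟨_, hx.1⟩ ⟨_, hy.1⟩
    have h2 : (Set.range (𝒱.f ij.2) ∩ Set.range (𝒱.f ij'.2)).Nonempty :=
      nonempty_preirreducible_inter (𝒱.f ij.2).isOpenEmbedding.isOpen_range
        (𝒱.f ij'.2).isOpenEmbedding.isOpen_range ⟨_, hx.2⟩ ⟨_, hy.2⟩
    obtain ⟨t, ht⟩ := exists_pt (T := T) _
      ((𝒰.f ij.1).isOpenEmbedding.isOpen_range.inter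
        (𝒰.f ij'.1).isOpenEmbedding.isOpen_range).isLocallyClosed h1
    obtain ⟨t', ht'⟩ := exists_pt (T := T') _
      ((𝒱.f ij.2).isOpenEmbedding.isOpen_range.inter
        (𝒱.f ij'.2).isOpenEmbedding.isOpen_range).isLocallyClosed h2
    have h3 : pullback.fst T.hom T'.hom (ev (lift t t')) = ev t := by
      have := ev_comp (lift t t') (fst T T')
      rw [lift_fst] at this
      exact this.symm
    have h4 : pullback.snd T.hom T'.hom (ev (lift t t')) = ev t' := by
      have := ev_comp (lift t t') (snd T T')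
      rw [lift_snd] at this
      exact this.symm
    refine ⟨ev (lift t t'), ?_, ?_⟩
    · rw [hrange]
      exact ⟨by rw [Set.mem_preimage, h3]; exact ht.1, by rw [Set.mem_preimage, h4]; exact ht'.1⟩
    · rw [hrange]
      exact ⟨by rw [Set.mem_preimage, h3]; exact ht.2, by rw [Set.mem_preimage, h4]; exact ht'.2⟩
  have hne : Nonempty P := by
    obtain ⟨t, -⟩ := exists_pt (T := T) Set.univ isClosed_univ.isLocallyClosed Set.univ_nonempty
    obtain ⟨t', -⟩ := exists_pt (T := T') Set.univ isClosed_univ.isLocallyClosed Set.univ_nonempty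
    exact ⟨ev (lift t t')⟩
  have hirr : IrreducibleSpace P := by
    refine n3_top (fun ij : 𝒲.I₀ => Set.range (𝒲.f ij))
      (fun ij => (𝒲.f ij).isOpenEmbedding.isOpen_range) (fun ij => ?_) (fun x => ?_) hmeet
    · by_cases h : Nonempty (𝒲.X ij)
      · have := hpiece ij h
        rw [← Set.image_univ]
        exact (PreirreducibleSpace.isPreirreducible_univ).image _ (𝒲.f ij).continuous.continuousOn
      · rw [not_nonempty_iff] at h
        rw [Set.range_eq_empty]
        exact isPreirreducible_empty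
    · exact ⟨𝒲.idx x, 𝒲.covers x⟩
  exact isIntegral_of_irreducibleSpace_of_isReduced P

end LibHM79
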