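import Pool.Agent.LibHM79.C4
import Pool.Agent.LibHM79.N2
import Pool.Agent.LibHM79.N3
import Pool.Agent.LibHM79.D2
import Pool.Agent.LibHM79.D3
import Pool.Agent.LibHM79.D6

/-! D7 (MEDIUM/STRONG). Existence of α. Plan: apply rig with W := G ⊗ Z, Q := P ⊗ P, τ := tau jP (oP ≫ π).
W is integral (prod_integral), normal (smooth_normal for the second projection G ⊗ Z → Z, a base change of G.hom smooth), locally of finite
type, separated; Q integral (prod_integral), quasi-compact. hcl := tau_closed. hs: τ ≫ fst has closed range (image of the closed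
range τ under the proper map fst : (G ⊗ Z) ⊗ Z → G ⊗ Z) and contains every closed point: a closed point of W is ev w,
w = lift g z, TT i π g z is infinite (TT_infinite) so nonempty, so range s of fibre_desc is nonempty. C := {x | (fst G Z).left x = ev 1}
(closed). hC1: for w ∈ C closed, w = ev (lift 1 z); TT i π 1 z = π⁻¹{ev z} (TT_one), so every point x of range s has
fst x = w, snd x = ev z: x = ev (lift (lift 1 z) z) by prod_pt: the set is a subsingleton, finite. D := the closed points w = ev (lift g z) with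
π⁻¹{ev z} irreducible: meets every nonempty open V of W: the projection W → Z is open (smooth), take z in the image of V with hπ, then the
fibre of V over z, nonempty, has a closed point. hD1: range s with s continuous on TT preconnected. Result: Ω, j, α; one: ev (lift 1 z) ∈ C
⊆ range j, B2 fac; rel: t := lift h h' : T → P ⊗ P. -/

namespace LibHM79

open AlgebraicGeometry CategoryTheory MonoidalCategory CartesianMonoidalCategory MonObj Limits TopologicalSpace

private lemma D7_comp_tau {k : Type} [Field k] {G Z P T : SchK k} [GrpObj G] (jP : P ⟶ G)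
    (ρ : P ⟶ Z) (h h' : T ⟶ P) :
    lift h h' ≫ tau jP ρ = lift (lift ((h' ≫ jP) / (h ≫ jP)) (h ≫ ρ)) (h' ≫ ρ) := by
  rw [tau, comp_lift, comp_lift, GrpObj.comp_div]
  simp only [lift_fst_assoc, lift_snd_assoc]

private lemma D7_closedImm {k : Type} [Field k] {G X Y P : SchK k} (o : G ⟶ X) (i : Y ⟶ X)
    [IsClosedImmersion i.left] (jP : P ⟶ G) (oP : P ⟶ Y)
    (hP : IsPullback jP oP o i) : IsClosedImmersion jP.left := by
  have h : IsPullback jP.left oP.left o.left i.left := hP.map (Over.forget _)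
  exact MorphismProperty.of_isPullback (P := @IsClosedImmersion) h.flip inferInstance

theorem alpha_exists {k : Type} [Field k] [IsAlgClosed k] [CharZero k] {G X Y Z P : SchK k}
    [GrpObj G] [ModObj G X] [IsIntegral G.left] [Smooth G.hom] [IsSeparated G.hom]
    [QuasiCompact G.hom] [IsSeparated X.hom] [LocallyOfFiniteType X.hom] [IsIntegral Y.left]
    [IsProper Y.hom] [IsIntegral Z.left] [IsProper Z.hom]
    (hZ : ∀ z : Z.left, IsIntegrallyClosed (Z.left.presheaf.stalk z))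
    (i : Y ⟶ X) [IsClosedImmersion i.left] (x₀ : 𝟙_ (SchK k) ⟶ X) (jP : P ⟶ G) (oP : P ⟶ Y)
    (hP : IsPullback jP oP (orb x₀) i) [Surjective oP.left] [IsIntegral P.left]
    (r : ℕ)
    (hY1 : ∀ T : Set X.left, IsClosed T → IsIrreducible T →
      (r : WithBot ℕ∞) ≤ topologicalKrullDim T → (T ∩ Set.range i.left).Nonempty)
    (hY2 : ∀ T : Set X.left, IsClosed T → IsIrreducible T →
      ((r + 1 : ℕ) : WithBot ℕ∞) ≤ topologicalKrullDim T →
        _root_.IsPreconnected (T ∩ Set.range i.left))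
    (π : Y ⟶ Z) [Surjective π.left]
    (hπ : ∀ V : Z.left.Opens, (V : Set Z.left).Nonempty →
      ∃ z ∈ V, IsClosed {z} ∧ IsIrreducible (π.left ⁻¹' {z}))
    (hdim : topologicalKrullDim Z.left + r < topologicalKrullDim Y.left) :
    ∃ (Ω : SchK k) (jΩ : Ω ⟶ G ⊗ Z) (α : Ω ⟶ Z), AlphaData jP (oP ≫ π) Ω jΩ α := by
  -- finiteness properties
  have hjP : IsClosedImmersion jP.left := D7_closedImm _ _ _ _ hP
  have hPhom : P.hom = jP.left ≫ G.hom := (Over.w jP).symm
  have hPlft : LocallyOfFiniteType P.hom := by rw [hPhom]; infer_instance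
  have hPqc : QuasiCompact P.hom := by rw [hPhom]; infer_instance
  have hWlft : LocallyOfFiniteType (G ⊗ Z).hom := by
    rw [Over.tensorObj_hom]; infer_instance
  have hWsep : IsSeparated (G ⊗ Z).hom := by
    rw [Over.tensorObj_hom]; infer_instance
  have hQqc : QuasiCompact (P ⊗ P).hom := by
    rw [Over.tensorObj_hom]; infer_instance
  have hWint : IsIntegral (G ⊗ Z).left := prod_integral G Z
  have hQint : IsIntegral (P ⊗ P).left := prod_integral P P
  have hsm : Smooth (snd G Z).left := by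
    rw [Over.snd_left]; infer_instance
  have hpr : IsProper (fst (G ⊗ Z) Z).left := by
    rw [Over.fst_left]; infer_instance
  have hW : ∀ x : (G ⊗ Z).left, IsIntegrallyClosed ((G ⊗ Z).left.presheaf.stalk x) :=
    fun x => smooth_normal _ _ (snd G Z).left hZ x
  -- the points of G ⊗ Z
  have hpt : ∀ t : 𝟙_ (SchK k) ⟶ G ⊗ Z, t = lift (t ≫ fst G Z) (t ≫ snd G Z) := by
    intro t
    rw [← comp_lift, lift_fst_snd, Category.comp_id]
  have hcl := tau_closed i x₀ jP oP hP π
  -- surjectivity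
  have hs : Function.Surjective (tau jP (oP ≫ π) ≫ fst (G ⊗ Z) Z).left := by
    have hcl2 : IsClosed (Set.range (tau jP (oP ≫ π) ≫ fst (G ⊗ Z) Z).left) := by
      have : Set.range (tau jP (oP ≫ π) ≫ fst (G ⊗ Z) Z).left
          = (fst (G ⊗ Z) Z).left '' Set.range (tau jP (oP ≫ π)).left := by
        rw [← Set.range_comp]
        congr 1
      rw [this]
      exact (fst (G ⊗ Z) Z).left.isClosedMap _ hcl
    rw [← Set.range_eq_univ]
    by_contra hne
    have hne' : (Set.range (tau jP (oP ≫ π) ≫ fst (G ⊗ Z) Z).left)ᶜ.Nonempty :=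
      Set.nonempty_compl.mpr hne
    obtain ⟨t, ht⟩ := exists_pt _ hcl2.isOpen_compl.isLocallyClosed hne'
    apply ht
    obtain ⟨s, -, hs2, -⟩ := fibre_desc i x₀ jP oP hP π (t ≫ fst G Z) (t ≫ snd G Z)
    obtain ⟨y, hy⟩ := (TT_infinite i π r hY1 hY2 hdim (t ≫ fst G Z) (t ≫ snd G Z)).2.nonempty
    have hmem : s ⟨y, hy⟩ ∈ Set.range s := ⟨_, rfl⟩
    rw [hs2, ← hpt t] at hmem
    obtain ⟨⟨q, hq⟩, hq2⟩ := hmem
    refine ⟨q, ?_⟩
    rw [Over.comp_left]
    have : (fst (G ⊗ Z) Z).left (s ⟨y, hy⟩) = ev t := hq2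
    rw [← this, ← hq]
    rfl
  -- the closed set C
  have hC : IsClosed ((fst G Z).left ⁻¹' {ev (1 : 𝟙_ (SchK k) ⟶ G)}) :=
    (ev_closed _).preimage (fst G Z).left.continuous
  have hC1 : ∀ w ∈ (fst G Z).left ⁻¹' {ev (1 : 𝟙_ (SchK k) ⟶ G)}, IsClosed {w} →
      (Set.range (tau jP (oP ≫ π)).left ∩ (fst (G ⊗ Z) Z).left ⁻¹' {w}).Finite := by
    intro w hw hwc
    obtain ⟨t, rfl⟩ := pt_of_closed w hwc
    have ht1 : t ≫ fst G Z = 1 := by
      apply ev_inj
      rw [ev_comp]
      exact hw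
    obtain ⟨s, -, hs2, hs3⟩ := fibre_desc i x₀ jP oP hP π 1 (t ≫ snd G Z)
    have ht : t = lift 1 (t ≫ snd G Z) := by
      conv_lhs => rw [hpt t, ht1]
    rw [← ht] at hs2
    rw [← hs2]
    apply (Set.finite_singleton (ev (lift t (t ≫ snd G Z)))).subset
    rintro _ ⟨y, rfl⟩
    have hmem : s y ∈ Set.range s := ⟨_, rfl⟩
    rw [hs2] at hmem
    refine prod_pt t (t ≫ snd G Z) (s y) hmem.2 ?_
    rw [hs3]
    exact (Set.ext_iff.mp (TT_one (G := G) (X := X) i π (t ≫ snd G Z)) y.1).mp y.2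
  have hD : ∀ V : (G ⊗ Z).left.Opens, (V : Set (G ⊗ Z).left).Nonempty →
      ∃ d ∈ {w : (G ⊗ Z).left | ∃ (g : 𝟙_ (SchK k) ⟶ G) (z : 𝟙_ (SchK k) ⟶ Z),
        w = ev (lift g z) ∧ IsIrreducible (π.left ⁻¹' {ev z})}, d ∈ V ∧ IsClosed {d} := by
    intro V hV
    have hopen : IsOpenMap (snd G Z).left := (snd G Z).left.isOpenMap
    let V' : Z.left.Opens := ⟨(snd G Z).left '' (V : Set (G ⊗ Z).left), hopen _ V.2⟩
    obtain ⟨z₀, ⟨x, hxV, hxz⟩, hz₀, hirr⟩ := hπ V' (hV.image _)
    obtain ⟨t, ht⟩ := exists_pt ((V : Set (G ⊗ Z).left) ∩ (snd G Z).left ⁻¹' {z₀})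
      (V.2.isLocallyClosed.inter (hz₀.preimage (snd G Z).left.continuous).isLocallyClosed)
      ⟨x, hxV, hxz⟩
    have hz : ev (t ≫ snd G Z) = z₀ := by
      rw [ev_comp]; exact ht.2
    refine ⟨ev t, ⟨t ≫ fst G Z, t ≫ snd G Z, ?_, ?_⟩, ht.1, ev_closed t⟩
    · rw [← hpt t]
    · rw [hz]; exact hirr
  have hD1 : ∀ d ∈ {w : (G ⊗ Z).left | ∃ (g : 𝟙_ (SchK k) ⟶ G) (z : 𝟙_ (SchK k) ⟶ Z),
        w = ev (lift g z) ∧ IsIrreducible (π.left ⁻¹' {ev z})},
      _root_.IsPreconnected (Set.range (tau jP (oP ≫ π)).left ∩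
        (fst (G ⊗ Z) Z).left ⁻¹' {d}) := by
    rintro _ ⟨g, z, rfl, hirr⟩
    obtain ⟨s, hs1, hs2, -⟩ := fibre_desc i x₀ jP oP hP π g z
    rw [← hs2]
    have : PreconnectedSpace (TT i π g z) :=
      Subtype.preconnectedSpace (TT_preconnected i π r hY2 hdim g z hirr)
    exact isPreconnected_range hs1
  obtain ⟨Ω, j, α, hj, hCj, hrel⟩ := rig (G ⊗ Z) (P ⊗ P) Z hW (tau jP (oP ≫ π)) hcl hs
    _ hC hC1 _ hD hD1
  refine ⟨Ω, j, α, ⟨hj, ?_, ?_⟩⟩
  · intro z
    apply fac j (lift 1 z)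
    intro a
    apply hCj
    have ha : a = IsLocalRing.closedPoint k := Subsingleton.elim (α := PrimeSpectrum k) _ _
    have : (lift 1 z : 𝟙_ (SchK k) ⟶ G ⊗ Z).left a = ev (lift 1 z) := by
      rw [ha]; rfl
    rw [this, Set.mem_preimage, ← ev_comp, lift_fst]
    rfl
  · intro T h h' t ht
    have h1 := hrel T (lift h h') t
    have h2 := D7_comp_tau jP (oP ≫ π) h h'
    rw [← Category.assoc, ← Category.assoc, h2, lift_fst, lift_snd] at h1
    exact h1 ht

end LibHM79
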