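import Pool.Agent.LibHM79.B1
import Pool.Agent.LibHM79.B2

/-! E1 (MEDIUM). The unit section Z → Ω and the vector fields v_w. Plan: (a) lift 1 (𝟙 Z) : Z ⟶ G ⊗ Z lands in range jΩ: at closed
points by AlphaData.one; the preimage of the open range is open and contains all closed points of the Jacobson space Z, so is
everything; B2 fac gives e : Z ⟶ Ω, e ≫ jΩ = lift 1 (𝟙 Z). e ≫ α = 𝟙 Z by pt_ext: for z : 𝟙_ ⟶ Z choose h : 𝟙_ ⟶ P with h ≫ ρ = z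
(lift_pt), rel with h' := h (h/h = 1) . (b) for w tangent: m := lift (fst ≫ w) (snd) : Dk ⊗ Z ⟶ G ⊗ Z, at ε = 0 it is lift 1 (𝟙 Z)
= e ≫ jΩ; facD gives m' and v w := m' ≫ α; at ε = 0 : e ≫ α = 𝟙. For (d, z, t): t ≫ jΩ = lift (d ≫ w) z = (lift d z ≫ m') ≫ jΩ, mono.
For w not tangent put v w := snd. -/

namespace LibHM79

open AlgebraicGeometry CategoryTheory MonoidalCategory CartesianMonoidalCategory MonObj Limits TopologicalSpace

variable {k : Type} [Field k] [IsAlgClosed k]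

theorem unit_section {G Z P Ω : SchK k} [GrpObj G] [LocallyOfFiniteType G.hom] [IsReduced Z.left]
    [IsSeparated Z.hom] [LocallyOfFiniteType Z.hom] [LocallyOfFiniteType P.hom] (jP : P ⟶ G)
    (ρ : P ⟶ Z) [Surjective ρ.left] (jΩ : Ω ⟶ G ⊗ Z) (α : Ω ⟶ Z)
    (hα : AlphaData jP ρ Ω jΩ α) : ∃ e : Z ⟶ Ω, e ≫ jΩ = lift 1 (𝟙 Z) ∧ e ≫ α = 𝟙 Z := by
  have hopen : IsOpenImmersion jΩ.left := hα.open_imm
  have hc : ∀ z : 𝟙_ (SchK k) ⟶ Z, z ≫ lift (1 : Z ⟶ G) (𝟙 Z) = lift 1 z := by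
    intro z
    rw [comp_lift, MonObj.comp_one, Category.comp_id]
  have hU : IsOpen ((lift (1 : Z ⟶ G) (𝟙 Z)).left ⁻¹' Set.range jΩ.left) :=
    hopen.isOpen_range.preimage (lift (1 : Z ⟶ G) (𝟙 Z)).left.continuous
  obtain ⟨e, he⟩ := fac jΩ (lift (1 : Z ⟶ G) (𝟙 Z)) (by
    by_contra hne
    push Not at hne
    obtain ⟨a, ha⟩ := hne
    obtain ⟨t, ht⟩ := exists_pt ((lift (1 : Z ⟶ G) (𝟙 Z)).left ⁻¹' Set.range jΩ.left)ᶜ
      hU.isClosed_compl.isLocallyClosed ⟨a, ha⟩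
    apply ht
    obtain ⟨c, hc'⟩ := hα.one t
    refine ⟨ev c, ?_⟩
    rw [← ev_comp, ← ev_comp, hc t, hc'])
  refine ⟨e, he, ?_⟩
  refine pt_ext Set.univ isClosed_univ.isLocallyClosed dense_univ fun z _ => ?_
  obtain ⟨h, hh⟩ := lift_pt ρ z
  have h1 := hα.rel (𝟙_ (SchK k)) h h (z ≫ e) (by
    rw [Category.assoc, he, hc, div_self', hh])
  rw [Category.comp_id, ← Category.assoc, ← h1, hh]

theorem exists_v {G Z P Ω : SchK k} [GrpObj G] [LocallyOfFiniteType G.hom] [IsReduced Z.left]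
    [IsSeparated Z.hom] [LocallyOfFiniteType Z.hom] [LocallyOfFiniteType P.hom] (jP : P ⟶ G)
    (ρ : P ⟶ Z) [Surjective ρ.left] (jΩ : Ω ⟶ G ⊗ Z) (α : Ω ⟶ Z)
    (hα : AlphaData jP ρ Ω jΩ α) : ∃ v : (Dk k ⟶ G) → (Dk k ⊗ Z ⟶ Z), VData jΩ α v := by
  have hopen : IsOpenImmersion jΩ.left := hα.open_imm
  obtain ⟨e, he, heα⟩ := unit_section jP ρ jΩ α hα
  have key : ∀ w : Dk k ⟶ G, ∃ v : Dk k ⊗ Z ⟶ Z, IsTan w →
      (lift (toUnit Z ≫ zpt k) (𝟙 Z) ≫ v = 𝟙 Z) ∧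
      ∀ (T : SchK k) (d : T ⟶ Dk k) (z : T ⟶ Z) (t : T ⟶ Ω),
        t ≫ jΩ = lift (d ≫ w) z → lift d z ≫ v = t ≫ α := by
    intro w
    by_cases hw : IsTan w
    · obtain ⟨m', hm, hm0⟩ := facD jΩ (lift (fst (Dk k) Z ≫ w) (snd (Dk k) Z)) e (by
        rw [comp_lift, ← Category.assoc, lift_fst, lift_snd, Category.assoc]
        have hw' : zpt k ≫ w = 1 := hw
        rw [hw', MonObj.comp_one, he])
      refine ⟨m' ≫ α, fun _ => ⟨?_, ?_⟩⟩
      · rw [← Category.assoc, hm0, heα]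
      · intro T d z t ht
        have h1 : lift d z ≫ m' = t := by
          rw [← cancel_mono jΩ, Category.assoc, hm, ht, comp_lift, ← Category.assoc, lift_fst,
            lift_snd]
        rw [← Category.assoc, h1]
    · exact ⟨snd (Dk k) Z, fun h => absurd h hw⟩
  choose v hv using key
  exact ⟨v, hv⟩

end LibHM79
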