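import Pool.Agent.LibHM79.B1
import Pool.Agent.LibHM79.B2
import Pool.Agent.LibHM79.B3

/-! E2 (MEDIUM, functor of points). The first order identity for w tangent to Y at y'. Plan: choose h : 𝟙_ ⟶ P with h ≫ oP = y (lift_pt).
Write A := Dk k, g_A := toUnit A ≫ g etc. (1) The A-point w * g_A * (h ≫ jP)_A of G maps under orb x₀ to w • (g • y)_A = w • (y' ≫ i)_A = v₁ ≫ i
(TanTo gives v₁ : A ⟶ Y), so by hP there is h₁ : A ⟶ P with h₁ ≫ jP = w * g_A * (h ≫ jP)_A, h₁ ≫ oP = v₁. (2) h₁ / h_A = w * g_A and rel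
with (h_A, h₁, q): h₁ ≫ ρ = q ≫ α. (3) h₂ : 𝟙_ ⟶ P with h₂ ≫ jP = g * (h ≫ jP), h₂ ≫ oP = y' (by hP); rel with (h, h₂, c):
h₂ ≫ ρ = c ≫ α, i.e. y' ≫ π = c ≫ α. (4) h₁ / (h₂)_A = w. VData with d := 𝟙, z := (h₂ ≫ ρ)_A needs t : A ⟶ Ω with t ≫ jΩ = lift w z: facd
(at ε = 0 it is lift 1 (h₂ ≫ ρ), AlphaData.one). rel with ((h₂)_A, h₁, t): h₁ ≫ ρ = t ≫ α = lift 𝟙 z ≫ v w. Compare. -/

namespace LibHM79

open AlgebraicGeometry CategoryTheory MonoidalCategory CartesianMonoidalCategory MonObj Limits TopologicalSpace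

variable {k : Type} [Field k] [IsAlgClosed k]

theorem first_order_tan {G X Y Z P Ω : SchK k} [GrpObj G] [ModObj G X] [LocallyOfFiniteType P.hom]
    [LocallyOfFiniteType Y.hom]
    (i : Y ⟶ X) (x₀ : 𝟙_ (SchK k) ⟶ X) (jP : P ⟶ G) (oP : P ⟶ Y)
    (hP : IsPullback jP oP (orb x₀) i) [Surjective oP.left] (π : Y ⟶ Z)
    (jΩ : Ω ⟶ G ⊗ Z) (α : Ω ⟶ Z) (hα : AlphaData jP (oP ≫ π) Ω jΩ α)
    (v : (Dk k ⟶ G) → (Dk k ⊗ Z ⟶ Z)) (hv : VData jΩ α v)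
    (g : 𝟙_ (SchK k) ⟶ G) (y y' : 𝟙_ (SchK k) ⟶ Y) (hy : g • (y ≫ i) = y' ≫ i)
    (w : Dk k ⟶ G) (hw : IsTan w) (hwy : TanTo i y' w)
    (c : 𝟙_ (SchK k) ⟶ Ω) (hc : c ≫ jΩ = lift g (y ≫ π))
    (q : Dk k ⟶ Ω) (hq : q ≫ jΩ = lift (w * (toUnit (Dk k) ≫ g)) (toUnit (Dk k) ≫ y ≫ π)) :
    q ≫ α = lift (𝟙 (Dk k)) (toUnit (Dk k) ≫ c ≫ α) ≫ v w := by
  have hopen : IsOpenImmersion jΩ.left := hα.open_imm
  obtain ⟨h, hh⟩ := lift_pt oP y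
  obtain ⟨v₁, hv₁⟩ := hwy
  have e1 : (h ≫ jP) • x₀ = y ≫ i := by
    have h1 : (h ≫ jP) ≫ orb x₀ = y ≫ i := by
      rw [Category.assoc, hP.w, ← Category.assoc, hh]
    rw [comp_orb, toUnit_unit, Category.id_comp] at h1
    exact h1
  have e2 : (g * (h ≫ jP)) ≫ orb x₀ = y' ≫ i := by
    rw [comp_orb, toUnit_unit, Category.id_comp, mul_smul, e1, hy]
  have e3 : (w * (toUnit (Dk k) ≫ (g * (h ≫ jP)))) ≫ orb x₀ = v₁ ≫ i := by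
    rw [comp_orb, mul_smul, ← ModObj.comp_smul, hv₁]
    congr 2
    rw [← e2, comp_orb, toUnit_unit, Category.id_comp]
  obtain ⟨h₁, h₁j, h₁o⟩ : ∃ h₁ : Dk k ⟶ P, h₁ ≫ jP = w * (toUnit (Dk k) ≫ (g * (h ≫ jP))) ∧ h₁ ≫ oP = v₁ :=
    ⟨hP.lift _ _ e3, hP.lift_fst _ _ _, hP.lift_snd _ _ _⟩
  obtain ⟨h₂, h₂j, h₂o⟩ : ∃ h₂ : 𝟙_ (SchK k) ⟶ P, h₂ ≫ jP = g * (h ≫ jP) ∧ h₂ ≫ oP = y' :=
    ⟨hP.lift _ _ e2, hP.lift_fst _ _ _, hP.lift_snd _ _ _⟩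
  have r1 : h₁ ≫ oP ≫ π = q ≫ α := by
    refine hα.rel _ (toUnit (Dk k) ≫ h) h₁ q ?_
    rw [hq, h₁j]
    congr 1
    · rw [Category.assoc, MonObj.comp_mul]
      rw [← _root_.mul_assoc, mul_div_cancel_right]
    · rw [Category.assoc, ← hh, Category.assoc]
  have r2 : y' ≫ π = c ≫ α := by
    rw [← h₂o, Category.assoc]
    refine hα.rel _ h h₂ c ?_
    rw [hc, h₂j]
    congr 1
    · rw [mul_div_cancel_right]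
    · rw [← hh, Category.assoc]
  obtain ⟨c₀, hc₀⟩ := hα.one (c ≫ α)
  obtain ⟨t, ht, -⟩ := facd jΩ (lift w (toUnit (Dk k) ≫ c ≫ α)) c₀ (by
    rw [hc₀, comp_lift, ← Category.assoc, toUnit_unique (zpt k ≫ toUnit (Dk k)) (𝟙 _), Category.id_comp]
    congr 1)
  have r3 : h₁ ≫ oP ≫ π = t ≫ α := by
    refine hα.rel _ (toUnit (Dk k) ≫ h₂) h₁ t ?_
    rw [ht, h₁j]
    congr 1
    · rw [Category.assoc, h₂j, mul_div_cancel_right]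
    · rw [Category.assoc, ← r2, ← h₂o, Category.assoc]
  have r4 := (hv w hw).2 (Dk k) (𝟙 _) (toUnit (Dk k) ≫ c ≫ α) t (by rw [ht, Category.id_comp])
  rw [← r1, r3, ← r4]

end LibHM79
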