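import Pool.Agent.LibHM79.B1
import Pool.Agent.LibHM79.B2

/-! E3 (MEDIUM). Use of the spanning condition. φ₁, φ₂ : U → Z, U open in G containing 1 (j, e), equal at 1. 𝒲 a set of tangent vectors such
that every function with zero derivative along all w ∈ 𝒲 has zero derivative along all w. If φ₁, φ₂ agree on the w ∈ 𝒲 then on all w.
Plan: z' := e ≫ φ₁ = e ≫ φ₂ closed point, V affine open of Z containing it. U' := the open j(φ₁⁻¹V ∩ φ₂⁻¹V) of G. For b ∈ Γ(Z, V) put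
f := (function u ↦ b(φ₁ u) - b(φ₂ u)) on U' (transport through the isomorphism of an open subscheme of U with an open of G). For a tangent w
and q with q ≫ j = w: w^* f = (q ≫ φ₁)^* b - (q ≫ φ₂)^* b and 1^* f = b(z') - b(z') = 0 in k[ε]. So DerZero w U' f ↔ (q ≫ φ₁)^* b =
(q ≫ φ₂)^* b. Conclusion: for all w, all b; a morphism Dk → V affine is determined by b ↦ its pull back (both q ≫ φ_i land in V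
since the single point of Dk goes to z'). -/

namespace LibHM79

open AlgebraicGeometry CategoryTheory MonoidalCategory CartesianMonoidalCategory MonObj Limits TopologicalSpace

variable {k : Type} [Field k] [IsAlgClosed k]

private theorem E3_ext {X Z : Scheme} (V : Z.Opens) (hV : IsAffineOpen V) (a b : X ⟶ Z) (ha : ⊤ ≤ a ⁻¹ᵁ V)
    (hb : ⊤ ≤ b ⁻¹ᵁ V) (h : a.appLE V ⊤ ha = b.appLE V ⊤ hb) : a = b := by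
  have h0 : ∀ (V₀ : Z.Opens), V₀ = V → ∀ (ha₀ : ⊤ ≤ a ⁻¹ᵁ V₀) (hb₀ : ⊤ ≤ b ⁻¹ᵁ V₀),
      a.appLE V₀ ⊤ ha₀ = b.appLE V₀ ⊤ hb₀ := by
    rintro _ rfl _ _
    exact h
  have hra : Set.range a ⊆ Set.range V.ι := by
    rintro _ ⟨x, rfl⟩
    rw [Scheme.Opens.range_ι]
    exact ha (Set.mem_univ x)
  have hrb : Set.range b ⊆ Set.range V.ι := by
    rintro _ ⟨x, rfl⟩
    rw [Scheme.Opens.range_ι]
    exact hb (Set.mem_univ x)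
  have ea := IsOpenImmersion.lift_fac V.ι a hra
  have eb := IsOpenImmersion.lift_fac V.ι b hrb
  have haff : IsAffine V := hV
  have key : ∀ (c : X ⟶ Z) (c' : X ⟶ V) (_ : c' ≫ V.ι = c) (hc : ⊤ ≤ c ⁻¹ᵁ (V.ι ''ᵁ ⊤)),
      c'.appTop = (V.ι.appIso ⊤).inv ≫ c.appLE (V.ι ''ᵁ ⊤) ⊤ hc := by
    rintro _ c' rfl hc
    rw [← Scheme.Hom.appLE_comp_appLE c' V.ι (V.ι ''ᵁ ⊤) ⊤ ⊤ (Scheme.Hom.preimage_image_eq V.ι ⊤).ge le_top,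
      ← Category.assoc, Scheme.Hom.appIso_inv_appLE]
    have h1 : (V : Scheme).presheaf.map (homOfLE (le_refl (⊤ : (V : Scheme).Opens))).op = 𝟙 _ := by
      rw [← CategoryTheory.Functor.map_id]
      rfl
    have h2 := h1
    erw [h2, Category.id_comp]
    exact Scheme.Hom.app_eq_appLE c'
  have hra' : ⊤ ≤ a ⁻¹ᵁ (V.ι ''ᵁ ⊤) := by
    rw [Scheme.Opens.ι_image_top]
    exact ha
  have hrb' : ⊤ ≤ b ⁻¹ᵁ (V.ι ''ᵁ ⊤) := by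
    rw [Scheme.Opens.ι_image_top]
    exact hb
  have h1 : IsOpenImmersion.lift V.ι a hra = IsOpenImmersion.lift V.ι b hrb := by
    refine ext_of_isAffine ?_
    rw [key a _ ea hra', key b _ eb hrb', h0 _ (Scheme.Opens.ι_image_top V) hra' hrb']
  rw [← ea, ← eb, h1]

private theorem E3_pt (x : (Dk k).left) : x = ev (zpt k) := by
  obtain ⟨y, hy⟩ := zero_surj (𝟙_ (SchK k)) ((ρ_ (Dk k)).inv.left x)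
  have h1 : (fst (Dk k) (𝟙_ (SchK k))).left ((ρ_ (Dk k)).inv.left x) = x := by
    have h2 : (ρ_ (Dk k)).inv ≫ fst (Dk k) (𝟙_ (SchK k)) = 𝟙 _ := by
      rw [← CartesianMonoidalCategory.rightUnitor_hom, Iso.inv_hom_id]
    have h3 := congrArg (fun f : Dk k ⟶ Dk k => f.left x) h2
    exact h3
  rw [← hy] at h1
  have h4 : (lift (toUnit (𝟙_ (SchK k)) ≫ zpt k) (𝟙 (𝟙_ (SchK k))) ≫ fst (Dk k) (𝟙_ (SchK k))) = zpt k := by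
    rw [lift_fst, toUnit_unit, Category.id_comp]
  have h5 : (zpt k).left y = x := by
    rw [← h4]
    exact h1
  rw [← h5]
  have h6 : y = IsLocalRing.closedPoint k := Subsingleton.elim (α := PrimeSpectrum k) _ _
  rw [h6]
  rfl

private theorem E3_app {G U Z : SchK k} (j : U ⟶ G) [IsOpenImmersion j.left] (φ₁ φ₂ : U ⟶ Z) (V : Z.left.Opens)
    (q : Dk k ⟶ U) (hq : ⊤ ≤ q.left ⁻¹ᵁ (φ₁.left ⁻¹ᵁ V ⊓ φ₂.left ⁻¹ᵁ V)) (b : Γ(Z.left, V))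
    (h1 : ⊤ ≤ (q ≫ φ₁).left ⁻¹ᵁ V) (h2 : ⊤ ≤ (q ≫ φ₂).left ⁻¹ᵁ V)
    (h : ⊤ ≤ (q ≫ j).left ⁻¹ᵁ (j.left ''ᵁ (φ₁.left ⁻¹ᵁ V ⊓ φ₂.left ⁻¹ᵁ V))) :
    (q ≫ j).left.appLE (j.left ''ᵁ (φ₁.left ⁻¹ᵁ V ⊓ φ₂.left ⁻¹ᵁ V)) ⊤ h
      ((j.left.appIso (φ₁.left ⁻¹ᵁ V ⊓ φ₂.left ⁻¹ᵁ V)).inv
        (φ₁.left.appLE V (φ₁.left ⁻¹ᵁ V ⊓ φ₂.left ⁻¹ᵁ V) inf_le_left b -
          φ₂.left.appLE V (φ₁.left ⁻¹ᵁ V ⊓ φ₂.left ⁻¹ᵁ V) inf_le_right b)) =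
      (q ≫ φ₁).left.appLE V ⊤ h1 b - (q ≫ φ₂).left.appLE V ⊤ h2 b := by
  have e1 : (j.left.appIso (φ₁.left ⁻¹ᵁ V ⊓ φ₂.left ⁻¹ᵁ V)).inv ≫
      (q ≫ j).left.appLE (j.left ''ᵁ (φ₁.left ⁻¹ᵁ V ⊓ φ₂.left ⁻¹ᵁ V)) ⊤ h =
      q.left.appLE (φ₁.left ⁻¹ᵁ V ⊓ φ₂.left ⁻¹ᵁ V) ⊤ hq := by
    have e0 : (q ≫ j).left.appLE (j.left ''ᵁ (φ₁.left ⁻¹ᵁ V ⊓ φ₂.left ⁻¹ᵁ V)) ⊤ h =
        j.left.appLE (j.left ''ᵁ (φ₁.left ⁻¹ᵁ V ⊓ φ₂.left ⁻¹ᵁ V)) (φ₁.left ⁻¹ᵁ V ⊓ φ₂.left ⁻¹ᵁ V)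
          (Scheme.Hom.preimage_image_eq j.left _).ge ≫
          q.left.appLE (φ₁.left ⁻¹ᵁ V ⊓ φ₂.left ⁻¹ᵁ V) ⊤ hq :=
      (Scheme.Hom.appLE_comp_appLE q.left j.left _ _ _ _ _).symm
    rw [e0, ← Category.assoc, ← Scheme.Hom.appIso_hom', Iso.inv_hom_id, Category.id_comp]
  have e2 : φ₁.left.appLE V (φ₁.left ⁻¹ᵁ V ⊓ φ₂.left ⁻¹ᵁ V) inf_le_left ≫
      q.left.appLE (φ₁.left ⁻¹ᵁ V ⊓ φ₂.left ⁻¹ᵁ V) ⊤ hq = (q ≫ φ₁).left.appLE V ⊤ h1 :=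
    Scheme.Hom.appLE_comp_appLE q.left φ₁.left _ _ _ _ _
  have e3 : φ₂.left.appLE V (φ₁.left ⁻¹ᵁ V ⊓ φ₂.left ⁻¹ᵁ V) inf_le_right ≫
      q.left.appLE (φ₁.left ⁻¹ᵁ V ⊓ φ₂.left ⁻¹ᵁ V) ⊤ hq = (q ≫ φ₂).left.appLE V ⊤ h2 :=
    Scheme.Hom.appLE_comp_appLE q.left φ₂.left _ _ _ _ _
  rw [← CommRingCat.comp_apply, e1, map_sub, ← CommRingCat.comp_apply, ← CommRingCat.comp_apply, e2, e3]

theorem span_use {G U Z : SchK k} [GrpObj G] (j : U ⟶ G) [IsOpenImmersion j.left]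
    (e : 𝟙_ (SchK k) ⟶ U) (he : e ≫ j = 1) (φ₁ φ₂ : U ⟶ Z) (hφ : e ≫ φ₁ = e ≫ φ₂)
    (𝒲 : Set (Dk k ⟶ G)) (h𝒲 : ∀ w ∈ 𝒲, IsTan w)
    (hspan : ∀ (V : G.left.Opens) (f : Γ(G.left, V)), ev (1 : 𝟙_ (SchK k) ⟶ G) ∈ V →
      (∀ w ∈ 𝒲, DerZero w V f) → ∀ w : Dk k ⟶ G, IsTan w → DerZero w V f)
    (h : ∀ w ∈ 𝒲, ∀ q : Dk k ⟶ U, q ≫ j = w → q ≫ φ₁ = q ≫ φ₂)
    (w : Dk k ⟶ G) (hw : IsTan w) (q : Dk k ⟶ U) (hq : q ≫ j = w) : q ≫ φ₁ = q ≫ φ₂ := by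
  obtain ⟨V, hV, hzV, -⟩ := exists_isAffineOpen_mem_and_subset (X := Z.left) (x := ev (e ≫ φ₁))
    (U := ⊤) (Set.mem_univ _)
  have hz2 : ev (e ≫ φ₂) ∈ V := by
    rw [← hφ]
    exact hzV
  -- points of `Dk` go to the right place
  have hpos : ∀ q' : Dk k ⟶ U, zpt k ≫ q' = e →
      ⊤ ≤ q'.left ⁻¹ᵁ (φ₁.left ⁻¹ᵁ V ⊓ φ₂.left ⁻¹ᵁ V) := by
    intro q' hq' x _
    have hx : q'.left x = ev e := by
      rw [E3_pt x, ← ev_comp, hq']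
    show q'.left x ∈ φ₁.left ⁻¹ᵁ V ⊓ φ₂.left ⁻¹ᵁ V
    rw [hx]
    refine ⟨?_, ?_⟩
    · show φ₁.left (ev e) ∈ V
      rw [← ev_comp]
      exact hzV
    · show φ₂.left (ev e) ∈ V
      rw [← ev_comp]
      exact hz2
  have hp1 : ∀ q' : Dk k ⟶ U, zpt k ≫ q' = e → ⊤ ≤ (q' ≫ φ₁).left ⁻¹ᵁ V :=
    fun q' hq' x hx => (hpos q' hq' hx).1
  have hp2 : ∀ q' : Dk k ⟶ U, zpt k ≫ q' = e → ⊤ ≤ (q' ≫ φ₂).left ⁻¹ᵁ V :=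
    fun q' hq' x hx => (hpos q' hq' hx).2
  have hpj : ∀ q' : Dk k ⟶ U, zpt k ≫ q' = e →
      ⊤ ≤ (q' ≫ j).left ⁻¹ᵁ (j.left ''ᵁ (φ₁.left ⁻¹ᵁ V ⊓ φ₂.left ⁻¹ᵁ V)) :=
    fun q' hq' x hx => ⟨q'.left x, hpos q' hq' hx, rfl⟩
  -- the constant point
  have hq0 : zpt k ≫ (toUnit (Dk k) ≫ e) = e := by
    rw [← Category.assoc, comp_toUnit, toUnit_unit, Category.id_comp]
  have hone : (1 : Dk k ⟶ G) = (toUnit (Dk k) ≫ e) ≫ j := by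
    rw [Category.assoc, he, MonObj.comp_one]
  have hc : (toUnit (Dk k) ≫ e) ≫ φ₁ = (toUnit (Dk k) ≫ e) ≫ φ₂ := by
    rw [Category.assoc, Category.assoc, hφ]
  have hlift : ∀ w' : Dk k ⟶ G, IsTan w' → ∃ q' : Dk k ⟶ U, q' ≫ j = w' ∧ zpt k ≫ q' = e := by
    intro w' hw'
    exact facd j w' e (by rw [he]; exact hw')
  have key : ∀ (b : Γ(Z.left, V)) (q' : Dk k ⟶ U) (hq' : zpt k ≫ q' = e),
      DerZero (q' ≫ j) (j.left ''ᵁ (φ₁.left ⁻¹ᵁ V ⊓ φ₂.left ⁻¹ᵁ V))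
        ((j.left.appIso (φ₁.left ⁻¹ᵁ V ⊓ φ₂.left ⁻¹ᵁ V)).inv
          (φ₁.left.appLE V (φ₁.left ⁻¹ᵁ V ⊓ φ₂.left ⁻¹ᵁ V) inf_le_left b -
            φ₂.left.appLE V (φ₁.left ⁻¹ᵁ V ⊓ φ₂.left ⁻¹ᵁ V) inf_le_right b)) ↔
        (q' ≫ φ₁).left.appLE V ⊤ (hp1 q' hq') b = (q' ≫ φ₂).left.appLE V ⊤ (hp2 q' hq') b := by
    intro b q' hq'
    have hzero : ∀ (u : Dk k ⟶ G), u = (toUnit (Dk k) ≫ e) ≫ j →
        ∀ h' : ⊤ ≤ u.left ⁻¹ᵁ (j.left ''ᵁ (φ₁.left ⁻¹ᵁ V ⊓ φ₂.left ⁻¹ᵁ V)),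
        u.left.appLE (j.left ''ᵁ (φ₁.left ⁻¹ᵁ V ⊓ φ₂.left ⁻¹ᵁ V)) ⊤ h'
          ((j.left.appIso (φ₁.left ⁻¹ᵁ V ⊓ φ₂.left ⁻¹ᵁ V)).inv
            (φ₁.left.appLE V (φ₁.left ⁻¹ᵁ V ⊓ φ₂.left ⁻¹ᵁ V) inf_le_left b -
              φ₂.left.appLE V (φ₁.left ⁻¹ᵁ V ⊓ φ₂.left ⁻¹ᵁ V) inf_le_right b)) = 0 := by
      rintro _ rfl h'
      rw [E3_app j φ₁ φ₂ V _ (hpos _ hq0) b (hp1 _ hq0) (hp2 _ hq0) h', sub_eq_zero]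
      have h3 : ∀ (u v : Dk k ⟶ Z), u = v → ∀ (hu : ⊤ ≤ u.left ⁻¹ᵁ V) (hv : ⊤ ≤ v.left ⁻¹ᵁ V),
          u.left.appLE V ⊤ hu b = v.left.appLE V ⊤ hv b := by
        rintro _ _ rfl _ _
        rfl
      exact h3 _ _ hc _ _
    constructor
    · intro hD
      have h1 := hD (hpj q' hq') (by rw [hone]; exact hpj _ hq0)
      rw [E3_app j φ₁ φ₂ V q' (hpos q' hq') b (hp1 q' hq') (hp2 q' hq') _, hzero 1 hone _, sub_eq_zero] at h1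
      exact h1
    · intro hE h h'
      rw [E3_app j φ₁ φ₂ V q' (hpos q' hq') b (hp1 q' hq') (hp2 q' hq') _, hzero 1 hone _, sub_eq_zero]
      exact hE
  have hmem : ev (1 : 𝟙_ (SchK k) ⟶ G) ∈ j.left ''ᵁ (φ₁.left ⁻¹ᵁ V ⊓ φ₂.left ⁻¹ᵁ V) := by
    rw [← he, ev_comp]
    refine ⟨ev e, ⟨?_, ?_⟩, rfl⟩
    · show φ₁.left (ev e) ∈ V
      rw [← ev_comp]
      exact hzV
    · show φ₂.left (ev e) ∈ V
      rw [← ev_comp]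
      exact hz2
  have hqe : zpt k ≫ q = e := by
    have hm := mono_of_open j
    refine (cancel_mono j).1 ?_
    rw [Category.assoc, hq, he]
    exact hw
  subst hq
  have hall : ∀ b : Γ(Z.left, V),
      (q ≫ φ₁).left.appLE V ⊤ (hp1 q hqe) b = (q ≫ φ₂).left.appLE V ⊤ (hp2 q hqe) b := by
    intro b
    rw [← key b q hqe]
    refine hspan _ _ hmem ?_ _ hw
    intro w' hw'
    obtain ⟨q', hq', hqe'⟩ := hlift w' (h𝒲 w' hw')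
    have h1 := h w' hw' q' hq'
    subst hq'
    rw [key b q' hqe']
    have h3 : ∀ (u v : Dk k ⟶ Z), u = v → ∀ (hu : ⊤ ≤ u.left ⁻¹ᵁ V) (hv : ⊤ ≤ v.left ⁻¹ᵁ V),
        u.left.appLE V ⊤ hu b = v.left.appLE V ⊤ hv b := by
      rintro _ _ rfl _ _
      rfl
    exact h3 _ _ h1 _ _
  refine Over.OverMorphism.ext ?_
  refine E3_ext V hV _ _ (hp1 q hqe) (hp2 q hqe) ?_
  ext b
  exact hall b

end LibHM79
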