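import Pool.Agent.LibHM79.E2
import Pool.Agent.LibHM79.E3
import Pool.Agent.LibHM79.D6

/-! E4 (MEDIUM). The first order identity for all tangent vectors. Plan: z given with c : 𝟙_ ⟶ Ω, c ≫ jΩ = lift g z. T := TT i π g z is closed and
infinite (TT_infinite); hSp T. Every closed point y' : 𝟙_ ⟶ Y with ev y' ∈ T has a y : 𝟙_ ⟶ Y with g • (y ≫ i) = y' ≫ i and y ≫ π = z (ev y' ∈ T gives a
point of Y, closed since i, act g are closed immersions; B1 ev_inj, pt_of_closed). Let U := the open subscheme of G of the u with (u g, z) ∈ Ω and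
(u, c ≫ α) ∈ Ω (pullback of jΩ along G ⟶ G ⊗ Z, u ↦ (u * g, z), resp. u ↦ (u, c ≫ α), then intersect: pullback of two open
immersions), φ₁ := u ↦ α (u g, z), φ₂ := u ↦ α (u, c ≫ α); both are c ≫ α at u = 1 (the second by VData at ε = 0 / unit_section: α(1, z') = z').
span_use with 𝒲 := {w | IsTan w ∧ ∃ y', ev y' ∈ T ∧ TanTo i y' w}, its hypothesis h by first_order_tan (rewrite its conclusion with
VData: lift 𝟙 z' ≫ v w = t ≫ α). Then q₀ : Dk ⟶ U lifting w (B2 facd). -/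

namespace LibHM79

open AlgebraicGeometry CategoryTheory MonoidalCategory CartesianMonoidalCategory MonObj Limits TopologicalSpace

variable {k : Type} [Field k] [IsAlgClosed k]

omit [IsAlgClosed k] in
private theorem E4_m1 {G Z A : SchK k} [GrpObj G] (g : 𝟙_ (SchK k) ⟶ G) (z : 𝟙_ (SchK k) ⟶ Z)
    (u : A ⟶ G) : u ≫ lift (𝟙 G * (toUnit G ≫ g)) (toUnit G ≫ z) =
      lift (u * (toUnit A ≫ g)) (toUnit A ≫ z) := by
  rw [comp_lift, MonObj.comp_mul, Category.comp_id, comp_toUnit_assoc, comp_toUnit_assoc]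

omit [IsAlgClosed k] in
private theorem E4_m2 {G Z A : SchK k} [GrpObj G] (z : 𝟙_ (SchK k) ⟶ Z)
    (u : A ⟶ G) : u ≫ lift (𝟙 G) (toUnit G ≫ z) = lift u (toUnit A ≫ z) := by
  rw [comp_lift, Category.comp_id, comp_toUnit_assoc]

omit [IsAlgClosed k] in
private theorem E4_tu : toUnit (𝟙_ (SchK k)) = 𝟙 _ := toUnit_unique _ _

/-- points of `TT` -/
private theorem E4_TT {G X Y Z : SchK k} [GrpObj G] [ModObj G X] [LocallyOfFiniteType X.hom]
    [LocallyOfFiniteType Y.hom] [LocallyOfFiniteType Z.hom] (i : Y ⟶ X) [IsClosedImmersion i.left]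
    (π : Y ⟶ Z) (g : 𝟙_ (SchK k) ⟶ G) (z : 𝟙_ (SchK k) ⟶ Z) (y' : 𝟙_ (SchK k) ⟶ Y)
    (h : ev y' ∈ TT i π g z) : ∃ y : 𝟙_ (SchK k) ⟶ Y, g • (y ≫ i) = y' ≫ i ∧ y ≫ π = z := by
  obtain ⟨_, ⟨x, hx, rfl⟩, hxy⟩ := h
  have hxz : π.left x = ev z := hx
  have hi : Function.Injective i.left := i.left.isClosedEmbedding.injective
  have hiso : IsIso (act g : X ⟶ X).left :=
    inferInstanceAs (IsIso ((Over.forget _).map (act g : X ⟶ X)))
  have hact : Function.Injective (act g : X ⟶ X).left :=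
    (act g : X ⟶ X).left.homeomorph.injective
  have hcl : IsClosed ({x} : Set Y.left) := by
    have h1 : IsClosed ({ev (y' ≫ i)} : Set X.left) := ev_closed _
    have h2 : ({x} : Set Y.left) =
        (fun a => (act g : X ⟶ X).left (i.left a)) ⁻¹' {ev (y' ≫ i)} := by
      ext a
      simp only [Set.mem_singleton_iff, Set.mem_preimage]
      rw [ev_comp, ← hxy]
      constructor
      · rintro rfl
        rfl
      · intro h3
        exact hi (hact h3)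
    rw [h2]
    exact h1.preimage ((act g : X ⟶ X).left.continuous.comp i.left.continuous)
  obtain ⟨y, hy⟩ := pt_of_closed x hcl
  refine ⟨y, ?_, ?_⟩
  · have h3 : (y ≫ i) ≫ act g = g • (y ≫ i) := by
      rw [comp_act, E4_tu, Category.id_comp]
    rw [← h3]
    apply ev_inj
    rw [ev_comp, ev_comp, ev_comp, hy, hxy]
  · apply ev_inj
    rw [ev_comp, hy, hxz]

theorem first_order {G X Y Z P Ω : SchK k} [GrpObj G] [ModObj G X] [LocallyOfFiniteType G.hom]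
    [LocallyOfFiniteType P.hom] [LocallyOfFiniteType X.hom] [IsIntegral Y.left]
    [LocallyOfFiniteType Y.hom] [IsReduced Z.left] [IsSeparated Z.hom] [LocallyOfFiniteType Z.hom]
    (i : Y ⟶ X) [IsClosedImmersion i.left]
    (x₀ : 𝟙_ (SchK k) ⟶ X) (jP : P ⟶ G) (oP : P ⟶ Y)
    (hP : IsPullback jP oP (orb x₀) i) [Surjective oP.left] (r : ℕ)
    (hY1 : ∀ T : Set X.left, IsClosed T → IsIrreducible T →
      (r : WithBot ℕ∞) ≤ topologicalKrullDim T → (T ∩ Set.range i.left).Nonempty)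
    (hY2 : ∀ T : Set X.left, IsClosed T → IsIrreducible T →
      ((r + 1 : ℕ) : WithBot ℕ∞) ≤ topologicalKrullDim T →
        _root_.IsPreconnected (T ∩ Set.range i.left))
    (hSp : ∀ T : Set Y.left, IsClosed T → T.Infinite →
      ∀ (U : G.left.Opens) (f : Γ(G.left, U)), ev (1 : 𝟙_ (SchK k) ⟶ G) ∈ U →
      (∀ y : 𝟙_ (SchK k) ⟶ Y, ev y ∈ T → ∀ w : Dk k ⟶ G, IsTan w → TanTo i y w →
        DerZero w U f) → ∀ w : Dk k ⟶ G, IsTan w → DerZero w U f)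
    (π : Y ⟶ Z) [Surjective π.left]
    (hdim : topologicalKrullDim Z.left + r < topologicalKrullDim Y.left)
    (jΩ : Ω ⟶ G ⊗ Z) (α : Ω ⟶ Z) (hα : AlphaData jP (oP ≫ π) Ω jΩ α)
    (v : (Dk k ⟶ G) → (Dk k ⊗ Z ⟶ Z)) (hv : VData jΩ α v)
    (g : 𝟙_ (SchK k) ⟶ G) (z : 𝟙_ (SchK k) ⟶ Z)
    (w : Dk k ⟶ G) (hw : IsTan w) (c : 𝟙_ (SchK k) ⟶ Ω) (hc : c ≫ jΩ = lift g z)
    (q : Dk k ⟶ Ω) (hq : q ≫ jΩ = lift (w * (toUnit (Dk k) ≫ g)) (toUnit (Dk k) ≫ z)) :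
    q ≫ α = lift (𝟙 (Dk k)) (toUnit (Dk k) ≫ c ≫ α) ≫ v w := by
  obtain ⟨hTc, hTi⟩ := TT_infinite i π r hY1 hY2 hdim g z
  have hopen := hα.open_imm
  set z' : 𝟙_ (SchK k) ⟶ Z := c ≫ α with hz'
  let m₁ : G ⟶ G ⊗ Z := lift (𝟙 G * (toUnit G ≫ g)) (toUnit G ≫ z)
  let m₂ : G ⟶ G ⊗ Z := lift (𝟙 G) (toUnit G ≫ z')
  have hm₁ : ∀ {A : SchK k} (u : A ⟶ G), u ≫ m₁ = lift (u * (toUnit A ≫ g)) (toUnit A ≫ z) :=
    fun u => E4_m1 g z u
  have hm₂ : ∀ {A : SchK k} (u : A ⟶ G), u ≫ m₂ = lift u (toUnit A ≫ z') := fun u => E4_m2 z' u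
  obtain ⟨c', hc'⟩ := hα.one z'
  have h1m₁ : (1 : 𝟙_ (SchK k) ⟶ G) ≫ m₁ = c ≫ jΩ := by
    rw [hm₁, hc, _root_.one_mul, E4_tu, Category.id_comp, Category.id_comp]
  have h1m₂ : (1 : 𝟙_ (SchK k) ⟶ G) ≫ m₂ = c' ≫ jΩ := by
    rw [hm₂, hc', E4_tu, Category.id_comp]
  have hc'α : c' ≫ α = z' := by
    obtain ⟨h1, h2⟩ := hv w hw
    have h3 := h2 (𝟙_ (SchK k)) (zpt k) z' c' (by rw [hc', hw])
    have h4 : z' ≫ lift (toUnit Z ≫ zpt k) (𝟙 Z) ≫ v w = z' := by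
      rw [h1, Category.comp_id]
    rw [← Category.assoc, comp_lift, comp_toUnit_assoc, Category.comp_id, E4_tu,
      Category.id_comp] at h4
    rw [← h3, h4]
  let W : G.left.Opens := (m₁.left ⁻¹ᵁ jΩ.left.opensRange) ⊓ (m₂.left ⁻¹ᵁ jΩ.left.opensRange)
  let U : SchK k := Over.mk (W.ι ≫ G.hom)
  let j : U ⟶ G := Over.homMk W.ι rfl
  have hjo : IsOpenImmersion j.left := inferInstanceAs (IsOpenImmersion W.ι)
  have hjr : Set.range j.left = (W : Set G.left) := W.range_ι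
  obtain ⟨n₁, hn₁⟩ := fac jΩ (j ≫ m₁) (by
    intro a
    have h1 : j.left a ∈ W := by
      have h2 : j.left a ∈ Set.range j.left := ⟨a, rfl⟩
      rw [hjr] at h2
      exact h2
    rw [Over.comp_left, Scheme.Hom.comp_apply]
    exact h1.1)
  obtain ⟨n₂, hn₂⟩ := fac jΩ (j ≫ m₂) (by
    intro a
    have h1 : j.left a ∈ W := by
      have h2 : j.left a ∈ Set.range j.left := ⟨a, rfl⟩
      rw [hjr] at h2
      exact h2
    rw [Over.comp_left, Scheme.Hom.comp_apply]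
    exact h1.2)
  obtain ⟨e, he⟩ := fac j (1 : 𝟙_ (SchK k) ⟶ G) (by
    intro a
    rw [hjr]
    refine ⟨?_, ?_⟩
    · change m₁.left ((1 : 𝟙_ (SchK k) ⟶ G).left a) ∈ Set.range jΩ.left
      rw [← Scheme.Hom.comp_apply, ← Over.comp_left, h1m₁, Over.comp_left, Scheme.Hom.comp_apply]
      exact ⟨_, rfl⟩
    · change m₂.left ((1 : 𝟙_ (SchK k) ⟶ G).left a) ∈ Set.range jΩ.left
      rw [← Scheme.Hom.comp_apply, ← Over.comp_left, h1m₂, Over.comp_left, Scheme.Hom.comp_apply]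
      exact ⟨_, rfl⟩)
  have hen₁ : e ≫ n₁ = c := by
    rw [← cancel_mono jΩ, Category.assoc, hn₁, ← Category.assoc, he, h1m₁]
  have hen₂ : e ≫ n₂ = c' := by
    rw [← cancel_mono jΩ, Category.assoc, hn₂, ← Category.assoc, he, h1m₂]
  have hφ : e ≫ (n₁ ≫ α) = e ≫ (n₂ ≫ α) := by
    rw [← Category.assoc, ← Category.assoc, hen₁, hen₂, hc'α]
  -- the value of `φ₂` at a tangent vector
  have hval : ∀ w : Dk k ⟶ G, IsTan w → ∀ q : Dk k ⟶ U, q ≫ j = w →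
      lift (𝟙 (Dk k)) (toUnit (Dk k) ≫ z') ≫ v w = q ≫ (n₂ ≫ α) := by
    intro w hw q hq
    rw [← Category.assoc]
    refine (hv w hw).2 (Dk k) (𝟙 _) (toUnit (Dk k) ≫ z') (q ≫ n₂) ?_
    rw [Category.assoc, hn₂, ← Category.assoc, hq, hm₂, Category.id_comp]
  have hval₁ : ∀ (w : Dk k ⟶ G) (q : Dk k ⟶ U), q ≫ j = w →
      (q ≫ n₁) ≫ jΩ = lift (w * (toUnit (Dk k) ≫ g)) (toUnit (Dk k) ≫ z) := by
    intro w q hq
    rw [Category.assoc, hn₁, ← Category.assoc, hq, hm₁]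
  obtain ⟨q₀, hq₀, -⟩ := facd j w e (by rw [he]; exact hw)
  have hmain := span_use j e he (n₁ ≫ α) (n₂ ≫ α) hφ
    {w | IsTan w ∧ ∃ y' : 𝟙_ (SchK k) ⟶ Y, ev y' ∈ TT i π g z ∧ TanTo i y' w} (fun w hw => hw.1)
    (fun V f h1 h2 => hSp _ hTc hTi V f h1 fun y hy w hw ht => h2 w ⟨hw, y, hy, ht⟩)
    (by
      rintro w ⟨hw, y', hy', hwy⟩ q hq
      obtain ⟨y, hy1, hy2⟩ := E4_TT i π g z y' hy'
      have h1 := first_order_tan i x₀ jP oP hP π jΩ α hα v hv g y y' hy1 w hw hwy c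
        (by rw [hc, hy2]) (q ≫ n₁) (by rw [hval₁ w q hq, hy2])
      rw [← Category.assoc, h1, hval w hw q hq])
    w hw q₀ hq₀
  have hq₀n : q₀ ≫ n₁ = q := by
    rw [← cancel_mono jΩ, hval₁ w q₀ hq₀, hq]
  rw [← Category.assoc, hq₀n] at hmain
  rw [hmain]
  exact (hval w hw q₀ hq₀).symm

end LibHM79
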