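import Pool.Agent.LibHM79.B1

/-! F1 (MEDIUM). Two morphisms Dk ⊗ Q → Z, Q reduced, Z separated, which agree on Dk × {g} for all closed points g of Q are equal. Plan:
their equalizer is a closed immersion into (Dk ⊗ Q).left; local on Q: Q = Spec R affine, Dk ⊗ Q = Spec R[ε] (R[ε] = R ⊗ k[ε] =
DualNumber R), the equalizer is given by an ideal I of R[ε] contained in M R[ε] = {a + b ε, a, b ∈ M} for every maximal ideal M of R
(R/M = k): so a, b ∈ ⋂ M = 0 (R reduced Jacobson). Alternatively cover Z by affines: the two morphisms agree topologically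
(closed points dense in closed sets), on an affine Spec R → preimage of affine Spec B: two ring maps B → R[ε] equal modulo all M. -/

namespace LibHM79

open AlgebraicGeometry CategoryTheory MonoidalCategory CartesianMonoidalCategory MonObj Limits TopologicalSpace

variable {k : Type} [Field k] [IsAlgClosed k]

private theorem F1_jac (R : Type) [CommRing R] [Algebra k R] [Algebra.FiniteType k R] [IsReduced R] (r : R)
    (h : ∀ g : R →ₐ[k] k, g r = 0) : r = 0 := by
  have hJ : IsJacobsonRing R := isJacobsonRing_of_finiteType (A := k)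
  have h1 : r ∈ (⊥ : Ideal R).jacobson := by
    rw [Ideal.jacobson, Submodule.mem_sInf]
    rintro M ⟨-, hM⟩
    let _ : Field (R ⧸ M) := Ideal.Quotient.field M
    have hft : Algebra.FiniteType k (R ⧸ M) :=
      Algebra.FiniteType.of_surjective (Ideal.Quotient.mkₐ k M) (Ideal.Quotient.mkₐ_surjective k M)
    have hfin : Module.Finite k (R ⧸ M) := finite_of_finite_type_of_isJacobsonRing k (R ⧸ M)
    have hbij : Function.Bijective (algebraMap k (R ⧸ M)) := IsAlgClosed.algebraMap_bijective_of_isIntegral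
    have h2 := h ((AlgEquiv.ofBijective (Algebra.ofId k (R ⧸ M)) hbij).symm.toAlgHom.comp
      (Ideal.Quotient.mkₐ k M))
    have h3 : (AlgEquiv.ofBijective (Algebra.ofId k (R ⧸ M)) hbij).symm (Ideal.Quotient.mkₐ k M r) = 0 := h2
    rw [EmbeddingLike.map_eq_zero_iff] at h3
    exact Ideal.Quotient.eq_zero_iff_mem.1 h3
  rw [hJ.out Ideal.isRadical_bot] at h1
  exact h1

open TensorProduct in
private theorem F1_tens (R : Type) [CommRing R] [Algebra k R] [Algebra.FiniteType k R] [IsReduced R]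
    (t : DualNumber k ⊗[k] R)
    (h : ∀ g : R →ₐ[k] k, (Algebra.TensorProduct.lift (AlgHom.id k (DualNumber k))
      ((Algebra.ofId k (DualNumber k)).comp g) (fun _ _ => Commute.all _ _)) t = 0) : t = 0 := by
  let p0 : DualNumber k ⊗[k] R →ₗ[k] R :=
    (TensorProduct.lid k R).toLinearMap ∘ₗ (LinearMap.rTensor R (TrivSqZeroExt.fstHom k k k).toLinearMap)
  let p1 : DualNumber k ⊗[k] R →ₗ[k] R :=
    (TensorProduct.lid k R).toLinearMap ∘ₗ (LinearMap.rTensor R (TrivSqZeroExt.sndHom k k))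
  have e0 : ∀ (a : DualNumber k) (r : R), p0 (a ⊗ₜ r) = a.fst • r := fun a r => rfl
  have e1 : ∀ (a : DualNumber k) (r : R), p1 (a ⊗ₜ r) = a.snd • r := fun a r => rfl
  have hrep : ∀ t : DualNumber k ⊗[k] R, t = (1 : DualNumber k) ⊗ₜ p0 t + (DualNumber.eps : DualNumber k) ⊗ₜ p1 t := by
    intro t
    induction t using TensorProduct.induction_on with
    | zero => simp
    | tmul a r =>
      rw [e0, e1, ← TensorProduct.smul_tmul, ← TensorProduct.smul_tmul, ← TensorProduct.add_tmul]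
      congr 1
      ext <;> simp
    | add x y hx hy =>
      rw [map_add, map_add, TensorProduct.tmul_add, TensorProduct.tmul_add]
      conv_lhs => rw [hx, hy]
      abel
  have hg : ∀ g : R →ₐ[k] k, g (p0 t) = 0 ∧ g (p1 t) = 0 := by
    intro g
    have h2 := h g
    rw [hrep t, map_add, Algebra.TensorProduct.lift_tmul, Algebra.TensorProduct.lift_tmul] at h2
    have h3 := congrArg TrivSqZeroExt.fst h2
    have h4 := congrArg TrivSqZeroExt.snd h2
    simp [Algebra.ofId_apply, TrivSqZeroExt.algebraMap_eq_inl] at h3 h4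
    exact ⟨h3, h4⟩
  have h5 := F1_jac R (p0 t) fun g => (hg g).1
  have h6 := F1_jac R (p1 t) fun g => (hg g).2
  rw [hrep t, h5, h6]
  simp

/-- the spectrum of an algebra, as a scheme over `k` -/
private noncomputable abbrev F1_Sp (k : Type) [Field k] (R : Type) [CommRing R] [Algebra k R] : SchK k :=
  Over.mk (Spec.map (CommRingCat.ofHom (algebraMap k R)))

private noncomputable def F1_map {R S : Type} [CommRing R] [Algebra k R] [CommRing S] [Algebra k S] (f : R →ₐ[k] S) :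
    F1_Sp k S ⟶ F1_Sp k R :=
  Over.homMk (Spec.map (CommRingCat.ofHom f.toRingHom)) (by
    dsimp
    rw [← Spec.map_comp]
    congr 1
    ext x
    simp)

open TensorProduct in
private theorem F1_w (k : Type) [Field k] (R : Type) [CommRing R] [Algebra k R] :
    (pullbackSpecIso k (DualNumber k) R).inv ≫ (pullback.fst (Spec.map (CommRingCat.ofHom
      (algebraMap k (DualNumber k)))) (Spec.map (CommRingCat.ofHom (algebraMap k R))) ≫
      Spec.map (CommRingCat.ofHom (algebraMap k (DualNumber k)))) =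
      Spec.map (CommRingCat.ofHom (algebraMap k (DualNumber k ⊗[k] R))) := by
  rw [pullbackSpecIso_inv_fst_assoc, ← Spec.map_comp]
  rfl

open TensorProduct in
private noncomputable def F1_theta (k : Type) [Field k] (R : Type) [CommRing R] [Algebra k R] :
    F1_Sp k (DualNumber k ⊗[k] R) ⟶ Dk k ⊗ F1_Sp k R :=
  Over.homMk (pullbackSpecIso k (DualNumber k) R).inv (F1_w k R)

open TensorProduct in
private theorem F1_theta_fst (k : Type) [Field k] (R : Type) [CommRing R] [Algebra k R] :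
    (F1_theta k R ≫ fst (Dk k) (F1_Sp k R)).left = Spec.map (CommRingCat.ofHom
      (Algebra.TensorProduct.includeLeftRingHom : DualNumber k →+* DualNumber k ⊗[k] R)) :=
  pullbackSpecIso_inv_fst k (DualNumber k) R

open TensorProduct in
private theorem F1_theta_snd (k : Type) [Field k] (R : Type) [CommRing R] [Algebra k R] :
    (F1_theta k R ≫ snd (Dk k) (F1_Sp k R)).left = Spec.map (CommRingCat.ofHom
      ((Algebra.TensorProduct.includeRight : R →ₐ[k] DualNumber k ⊗[k] R).toRingHom)) :=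
  pullbackSpecIso_inv_snd k (DualNumber k) R

open TensorProduct in
/-- the homomorphism `k[ε] ⊗ R → k[ε]` of the point `g` -/
private noncomputable def F1_E {k : Type} [Field k] {R : Type} [CommRing R] [Algebra k R] (g : R →ₐ[k] k) :
    DualNumber k ⊗[k] R →ₐ[k] DualNumber k :=
  Algebra.TensorProduct.lift (AlgHom.id k (DualNumber k))
    ((Algebra.ofId k (DualNumber k)).comp g) (fun _ _ => Commute.all _ _)

open TensorProduct in
private theorem F1_hA {k : Type} [Field k] {R : Type} [CommRing R] [Algebra k R] (g : R →ₐ[k] k) :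
    Spec.map (CommRingCat.ofHom (F1_E g).toRingHom) ≫ (Spec.map (CommRingCat.ofHom
      (Algebra.TensorProduct.includeLeftRingHom : DualNumber k →+* DualNumber k ⊗[k] R)) :
      Spec (CommRingCat.of (DualNumber k ⊗[k] R)) ⟶ Spec (CommRingCat.of (DualNumber k))) =
      𝟙 (Spec (CommRingCat.of (DualNumber k))) := by
  rw [← Spec.map_comp, ← Spec.map_id]
  congr 1
  refine CommRingCat.hom_ext (RingHom.ext fun x => ?_)
  change F1_E g (x ⊗ₜ 1) = x
  simp [F1_E]

open TensorProduct in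
private theorem F1_hB {k : Type} [Field k] {R : Type} [CommRing R] [Algebra k R] (g : R →ₐ[k] k) :
    Spec.map (CommRingCat.ofHom (F1_E g).toRingHom) ≫ (Spec.map (CommRingCat.ofHom
      ((Algebra.TensorProduct.includeRight : R →ₐ[k] DualNumber k ⊗[k] R).toRingHom)) :
      Spec (CommRingCat.of (DualNumber k ⊗[k] R)) ⟶ Spec (CommRingCat.of R)) =
      Spec.map (CommRingCat.ofHom (algebraMap k (DualNumber k))) ≫ Spec.map (CommRingCat.ofHom g.toRingHom) := by
  rw [← Spec.map_comp, ← Spec.map_comp]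
  congr 1
  refine CommRingCat.hom_ext (RingHom.ext fun x => ?_)
  change F1_E g (1 ⊗ₜ x) = algebraMap k (DualNumber k) (g x)
  simp [F1_E, Algebra.ofId_apply]

private theorem F1_hC {k : Type} [Field k] {R : Type} [CommRing R] [Algebra k R] (g : R →ₐ[k] k) :
    Spec.map (CommRingCat.ofHom g.toRingHom) ≫ Spec.map (CommRingCat.ofHom (algebraMap k R)) =
      𝟙 (Spec (CommRingCat.of k)) := by
  rw [← Spec.map_comp, ← Spec.map_id]
  congr 1
  ext x
  simp

open TensorProduct in
/-- the point `g` on `k[ε] ⊗ R` -/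
private noncomputable def F1_Eg {k : Type} [Field k] {R : Type} [CommRing R] [Algebra k R] (g : R →ₐ[k] k) :
    Dk k ⟶ F1_Sp k (DualNumber k ⊗[k] R) :=
  F1_map (F1_E g)

/-- the point `g` -/
private noncomputable def F1_gm {k : Type} [Field k] {R : Type} [CommRing R] [Algebra k R] (g : R →ₐ[k] k) :
    𝟙_ (SchK k) ⟶ F1_Sp k R :=
  Over.homMk (Spec.map (CommRingCat.ofHom g.toRingHom)) (F1_hC g)

private theorem F1_Egl {k : Type} [Field k] {R : Type} [CommRing R] [Algebra k R] (g : R →ₐ[k] k) :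
    (F1_Eg g).left = Spec.map (CommRingCat.ofHom (F1_E g).toRingHom) := rfl

private theorem F1_pt1 {k : Type} [Field k] {R : Type} [CommRing R] [Algebra k R] (g : R →ₐ[k] k) :
    F1_Eg g ≫ (F1_theta k R ≫ fst (Dk k) (F1_Sp k R)) = 𝟙 (Dk k) := by
  apply Over.OverMorphism.ext
  rw [Over.comp_left, F1_theta_fst, F1_Egl]
  exact F1_hA g

private theorem F1_pt2 {k : Type} [Field k] {R : Type} [CommRing R] [Algebra k R] (g : R →ₐ[k] k) :
    F1_Eg g ≫ (F1_theta k R ≫ snd (Dk k) (F1_Sp k R)) = toUnit (Dk k) ≫ F1_gm g := by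
  apply Over.OverMorphism.ext
  rw [Over.comp_left, F1_theta_snd, F1_Egl, Over.comp_left]
  exact F1_hB g

private theorem F1_pt {k : Type} [Field k] {R : Type} [CommRing R] [Algebra k R] (g : R →ₐ[k] k) :
    F1_Eg g ≫ F1_theta k R = lift (𝟙 (Dk k)) (toUnit (Dk k) ≫ F1_gm g) := by
  apply CartesianMonoidalCategory.hom_ext
  · rw [lift_fst, Category.assoc, F1_pt1]
  · rw [lift_snd, Category.assoc, F1_pt2]

private theorem F1_thetaIso (k : Type) [Field k] (R : Type) [CommRing R] [Algebra k R] : IsIso (F1_theta k R) := by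
  have h1 : IsIso (F1_theta k R).left := by
    change IsIso (pullbackSpecIso k (DualNumber k) R).inv
    infer_instance
  have h2 : IsIso ((Over.forget (Spec (CommRingCat.of k))).map (F1_theta k R)) := h1
  exact isIso_of_reflects_iso _ (Over.forget _)

private theorem F1_fac {A B : Type} [CommRing A] [CommRing B] (I : Ideal A) (f : A →+* B)
    (m : Spec (CommRingCat.of B) ⟶ Spec (CommRingCat.of (A ⧸ I)))
    (h : m ≫ Spec.map (CommRingCat.ofHom (Ideal.Quotient.mk I)) = Spec.map (CommRingCat.ofHom f)) :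
    ∀ t ∈ I, f t = 0 := by
  intro t ht
  obtain ⟨β, rfl⟩ := Spec.map_surjective m
  rw [← Spec.map_comp] at h
  have h5 := Spec.map_injective h
  have h6 : β.hom (Ideal.Quotient.mk I t) = f t := congrArg (fun f => f.hom t) h5
  rw [← h6, Ideal.Quotient.eq_zero_iff_mem.2 ht, map_zero]

open TensorProduct in
private theorem F1_aff {R : Type} [CommRing R] [Algebra k R] [Algebra.FiniteType k R] [_root_.IsReduced R]
    {Z : SchK k} [IsSeparated Z.hom] (m₁ m₂ : Dk k ⊗ F1_Sp k R ⟶ Z)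
    (h : ∀ g : 𝟙_ (SchK k) ⟶ F1_Sp k R,
      lift (𝟙 (Dk k)) (toUnit (Dk k) ≫ g) ≫ m₁ = lift (𝟙 (Dk k)) (toUnit (Dk k) ≫ g) ≫ m₂) : m₁ = m₂ := by
  have hcl : IsClosedImmersion (equalizer.ι (F1_theta k R ≫ m₁) (F1_theta k R ≫ m₂)).left := inferInstance
  obtain ⟨io, hio⟩ : ∃ io, io = equalizer.ι (F1_theta k R ≫ m₁) (F1_theta k R ≫ m₂) := ⟨_, rfl⟩
  rw [← hio] at hcl
  obtain ⟨I, e, he⟩ := (IsClosedImmersion.Spec_iff (R := CommRingCat.of (DualNumber k ⊗[k] R)) (f := io.left)).1 hcl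
  have hI : I = ⊥ := by
    rw [eq_bot_iff]
    intro t ht
    rw [Submodule.mem_bot]
    refine F1_tens R t fun g => ?_
    change F1_E g t = 0
    have h1 : F1_Eg g ≫ F1_theta k R ≫ m₁ = F1_Eg g ≫ F1_theta k R ≫ m₂ := by
      rw [← Category.assoc, ← Category.assoc, F1_pt, h]
    obtain ⟨l, hl⟩ : ∃ l, l ≫ io = F1_Eg g := by
      rw [hio]
      exact ⟨equalizer.lift (F1_Eg g) h1, equalizer.lift_ι _ _⟩
    have h4 : l.left ≫ io.left = Spec.map (CommRingCat.ofHom (F1_E g).toRingHom) := by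
      rw [← F1_Egl, ← hl, Over.comp_left]
    rw [he, ← Category.assoc] at h4
    exact F1_fac I (F1_E g).toRingHom (l.left ≫ e.hom) h4 t ht
  have hiso : IsIso (CommRingCat.ofHom (Ideal.Quotient.mk I)) := by
    rw [ConcreteCategory.isIso_iff_bijective]
    refine ⟨?_, Ideal.Quotient.mk_surjective⟩
    change Function.Injective (Ideal.Quotient.mk I)
    rw [RingHom.injective_iff_ker_eq_bot]
    exact (Ideal.mk_ker (I := I)).trans hI
  have hioiso : IsIso io.left := by
    rw [he]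
    infer_instance
  have hc : io ≫ F1_theta k R ≫ m₁ = io ≫ F1_theta k R ≫ m₂ := by
    rw [hio]
    exact equalizer.condition _ _
  have hioi : IsIso io := by
    have h2 : IsIso ((Over.forget (Spec (CommRingCat.of k))).map io) := hioiso
    exact isIso_of_reflects_iso io (Over.forget _)
  have hθi := F1_thetaIso k R
  rw [cancel_epi, cancel_epi] at hc
  exact hc

private theorem F1_aff' {R : Type} [CommRing R] [Algebra k R] [Algebra.FiniteType k R] [_root_.IsReduced R]
    {Q Z : SchK k} [IsSeparated Z.hom] (m₁ m₂ : Dk k ⊗ Q ⟶ Z)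
    (h : ∀ g : 𝟙_ (SchK k) ⟶ Q,
      lift (𝟙 (Dk k)) (toUnit (Dk k) ≫ g) ≫ m₁ = lift (𝟙 (Dk k)) (toUnit (Dk k) ≫ g) ≫ m₂)
    (j : F1_Sp k R ⟶ Q) {T : SchK k} (f : T ⟶ Dk k ⊗ Q) (f₂ : T ⟶ F1_Sp k R) (hf : f₂ ≫ j = f ≫ snd (Dk k) Q) :
    f ≫ m₁ = f ≫ m₂ := by
  have h1 : (Dk k ◁ j) ≫ m₁ = (Dk k ◁ j) ≫ m₂ := by
    refine F1_aff _ _ fun g => ?_
    have h2 : lift (𝟙 (Dk k)) (toUnit (Dk k) ≫ g) ≫ (Dk k ◁ j) = lift (𝟙 (Dk k)) (toUnit (Dk k) ≫ (g ≫ j)) := by
      apply CartesianMonoidalCategory.hom_ext <;> simp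
    rw [← Category.assoc, ← Category.assoc, h2, h]
  have h3 : f = lift (f ≫ fst (Dk k) Q) f₂ ≫ (Dk k ◁ j) := by
    apply CartesianMonoidalCategory.hom_ext
    · simp
    · simp [hf]
  rw [h3, Category.assoc, Category.assoc, h1]

theorem dual_ext {Q Z : SchK k} [IsReduced Q.left] [LocallyOfFiniteType Q.hom] [IsSeparated Z.hom]
    (m₁ m₂ : Dk k ⊗ Q ⟶ Z)
    (h : ∀ g : 𝟙_ (SchK k) ⟶ Q,
      lift (𝟙 (Dk k)) (toUnit (Dk k) ≫ g) ≫ m₁ = lift (𝟙 (Dk k)) (toUnit (Dk k) ≫ g) ≫ m₂) :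
    m₁ = m₂ := by
  apply Over.OverMorphism.ext
  refine Scheme.hom_ext_of_forall _ _ fun x => ?_
  obtain ⟨V, hV, hxV, -⟩ := exists_isAffineOpen_mem_and_subset (x := (snd (Dk k) Q).left x)
    (U := ⊤) trivial
  refine ⟨(snd (Dk k) Q).left ⁻¹ᵁ V, hxV, ?_⟩
  obtain ⟨U, hU⟩ : ∃ U, U = (snd (Dk k) Q).left ⁻¹ᵁ V := ⟨_, rfl⟩
  rw [← hU]
  obtain ⟨a, ha⟩ := Spec.map_surjective (hV.fromSpec ≫ Q.hom)
  let _ : Algebra k Γ(Q.left, V) := a.hom.toAlgebra
  have hft : LocallyOfFiniteType (Spec.map a) := by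
    rw [ha]
    infer_instance
  have hft' : Algebra.FiniteType k Γ(Q.left, V) :=
    (HasRingHomProperty.Spec_iff (P := @LocallyOfFiniteType)).1 hft
  have hred : _root_.IsReduced Γ(Q.left, V) := inferInstance
  have hj : hV.fromSpec ≫ Q.hom = Spec.map (CommRingCat.ofHom (algebraMap k Γ(Q.left, V))) := ha.symm
  have hrange : Set.range (U.ι ≫ (snd (Dk k) Q).left) ⊆ Set.range hV.fromSpec := by
    rw [hV.range_fromSpec]
    rintro _ ⟨y, rfl⟩
    have h9 : y.1 ∈ (snd (Dk k) Q).left ⁻¹ᵁ V := by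
      rw [← hU]
      exact y.2
    exact h9
  let j : F1_Sp k Γ(Q.left, V) ⟶ Q := Over.homMk hV.fromSpec hj
  let f : Over.mk (U.ι ≫ (Dk k ⊗ Q).hom) ⟶ Dk k ⊗ Q := Over.homMk U.ι rfl
  let l := IsOpenImmersion.lift hV.fromSpec (U.ι ≫ (snd (Dk k) Q).left) hrange
  have hl : l ≫ hV.fromSpec = U.ι ≫ (snd (Dk k) Q).left := IsOpenImmersion.lift_fac _ _ _
  have hl2 : l ≫ Spec.map (CommRingCat.ofHom (algebraMap k Γ(Q.left, V))) = U.ι ≫ (Dk k ⊗ Q).hom := by
    rw [← hj, ← Category.assoc, hl, Category.assoc, Over.w]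
  let f₂ : Over.mk (U.ι ≫ (Dk k ⊗ Q).hom) ⟶ F1_Sp k Γ(Q.left, V) := Over.homMk l hl2
  have hf : f₂ ≫ j = f ≫ snd (Dk k) Q := Over.OverMorphism.ext hl
  have hfin := F1_aff' m₁ m₂ h j f f₂ hf
  exact congrArg CommaMorphism.left hfin

end LibHM79
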