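import Mathlib

/-! F2 (MEDIUM, algebra, ONLY MATHLIB). Uniqueness for first order systems, algebraic form. R a Noetherian local ring, k-algebra of characteristic 0
with residue field k; δ_w : R → R[ε] ring homs lifting the identity (w ∈ ι) such that f ∈ m with ∂_w f ∈ m for all w implies f ∈ m²
(∂_w f := (δ_w f).snd, a derivation). An ideal J ≤ m stable under all ∂_w is 0. Plan: by Krull
(Ideal.iInf_pow_eq_bot_of_isLocalRing) enough J ≤ m^n for all n ≥ 1, induction. Choose finitely many w_1..w_n whose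
functionals f ↦ ∂_w f mod m on the finite dimensional k-space m/m² form a basis of the dual of their span; the hypothesis says they
separate points of m/m², so they are a basis of the dual; t_1..t_n ∈ m dual basis, generating m (Nakayama), ∂_i t_j ≡ δ_ij mod m. For a ∈ J ≤ m^n:
E a := Σ t_i ∂_i a ≡ n a mod m^(n+1) (a is a sum of c t_(i1)...t_(in); E is a derivation, E t_j ≡ t_j mod m², E(m^n) ≤ m^n) and E a ∈ m · J ≤
m^(n+1); n invertible. Then uniq: the ideal J generated by all φ₁ s - φ₂ s (s ∈ S) is ≤ m and stable. -/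

namespace LibHM79

private theorem F2_sum {R : Type} [CommRing R] {r : ℕ} (x : Fin r → R)
    (D : Fin r → Derivation ℤ R R) (f : R) : (∑ i, x i • D i) f = ∑ i, x i * D i f := by
  have h1 : (⇑(∑ i, x i • D i) : R → R) = ∑ i, ⇑(x i • D i) :=
    map_sum (Derivation.coeFnAddMonoidHom (R := ℤ) (A := R) (M := R)) _ _
  rw [h1, Finset.sum_apply]
  rfl

open IsLocalRing in
/-- Euler derivation. -/
private theorem F2_euler {R ι : Type} [CommRing R] [IsLocalRing R] [IsNoetherianRing R]
    (dd : ι → Derivation ℤ R R)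
    (hsep : ∀ f ∈ maximalIdeal R, (∀ w, dd w f ∈ maximalIdeal R) → f ∈ maximalIdeal R ^ 2) :
    ∃ (r : ℕ) (x : Fin r → R) (D : Fin r → Derivation ℤ R R), (∀ i, x i ∈ maximalIdeal R) ∧
      (∀ i, D i ∈ Submodule.span R (Set.range dd)) ∧
      ∀ f ∈ maximalIdeal R, ∑ i, x i * D i f - f ∈ maximalIdeal R ^ 2 := by
  classical
  obtain ⟨r, ⟨b⟩⟩ : ∃ r : ℕ, Nonempty (Module.Basis (Fin r) (ResidueField R) (CotangentSpace R)) :=
    ⟨_, ⟨Module.finBasis (ResidueField R) (CotangentSpace R)⟩⟩
  have hx : ∀ i, ∃ y : maximalIdeal R, (maximalIdeal R).toCotangent y = b i :=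
    fun i => (maximalIdeal R).toCotangent_surjective (b i)
  choose x hx using hx
  -- the span of the vectors `v w`
  let v : ι → (Fin r → ResidueField R) := fun w j => residue R (dd w (x j))
  have htop : Submodule.span (ResidueField R) (Set.range v) = ⊤ := by
    by_contra hne
    obtain ⟨g, hg0, hg⟩ := Submodule.exists_le_ker_of_lt_top _ (lt_top_iff_ne_top.2 hne)
    have hlift : ∀ j : Fin r, ∃ a : R, residue R a = g (Pi.single j 1) :=
      fun j => residue_surjective _
    choose a ha using hlift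
    have hgw : ∀ w, ∑ j, g (Pi.single j 1) * residue R (dd w (x j)) = 0 := by
      intro w
      have h1 : g (v w) = 0 := hg (Submodule.subset_span ⟨w, rfl⟩)
      have h2 : v w = ∑ j, (v w j) • (Pi.single j (1 : ResidueField R) : Fin r → ResidueField R) := by
        ext i
        simp [Finset.sum_apply, Pi.single_apply]
      rw [h2, map_sum] at h1
      rw [← h1]
      refine Finset.sum_congr rfl fun j _ => ?_
      rw [map_smul, smul_eq_mul, mul_comm]
    have hf : ∑ j, a j * (x j : R) ∈ maximalIdeal R :=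
      Ideal.sum_mem _ fun j _ => Ideal.mul_mem_left _ _ (x j).2
    have hf2 : ∑ j, a j * (x j : R) ∈ maximalIdeal R ^ 2 := by
      apply hsep _ hf
      intro w
      rw [← residue_eq_zero_iff, map_sum, map_sum, ← hgw w]
      refine Finset.sum_congr rfl fun j _ => ?_
      have hxj : residue R (x j : R) = 0 := (residue_eq_zero_iff _).2 (x j).2
      rw [Derivation.leibniz, map_add, smul_eq_mul, smul_eq_mul, map_mul, map_mul, hxj, zero_mul,
        add_zero, ha]
    have hzero : ∑ j, g (Pi.single j 1) • b j = 0 := by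
      have h1 : (maximalIdeal R).toCotangent (∑ j, a j • x j) = 0 := by
        rw [Ideal.toCotangent_eq_zero]
        simpa using hf2
      rw [map_sum] at h1
      rw [← h1]
      refine Finset.sum_congr rfl fun j _ => ?_
      rw [map_smul, hx, ← ha]
      rfl
    have hlin := Fintype.linearIndependent_iff.1 b.linearIndependent _ hzero
    apply hg0
    apply LinearMap.pi_ext
    intro j c
    have h1 : (Pi.single j c : Fin r → ResidueField R) = c • Pi.single j 1 := by
      rw [← Pi.single_smul, smul_eq_mul, mul_one]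
    rw [h1, map_smul, hlin j, smul_zero, LinearMap.zero_apply]
  -- lifting
  have hlift : ∀ u ∈ Submodule.span (ResidueField R) (Set.range v),
      ∃ D ∈ Submodule.span R (Set.range dd), ∀ j, residue R (D (x j)) = u j := by
    intro u hu
    induction hu using Submodule.span_induction with
    | mem u hu =>
      obtain ⟨w, rfl⟩ := hu
      exact ⟨dd w, Submodule.subset_span ⟨w, rfl⟩, fun j => rfl⟩
    | zero => exact ⟨0, Submodule.zero_mem _, fun j => by simp⟩
    | add u₁ u₂ _ _ h₁ h₂ =>
      obtain ⟨D₁, hD₁, h₁⟩ := h₁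
      obtain ⟨D₂, hD₂, h₂⟩ := h₂
      exact ⟨D₁ + D₂, Submodule.add_mem _ hD₁ hD₂, fun j => by
        rw [Derivation.add_apply, map_add, h₁, h₂]; rfl⟩
    | smul c u _ h =>
      obtain ⟨D, hD, h⟩ := h
      obtain ⟨c', rfl⟩ := residue_surjective (R := R) c
      exact ⟨c' • D, Submodule.smul_mem _ _ hD, fun j => by
        rw [Derivation.smul_apply, smul_eq_mul, map_mul, h]; rfl⟩
  have hD : ∀ i : Fin r, ∃ D ∈ Submodule.span R (Set.range dd), ∀ j,
      residue R (D (x j)) = (Pi.single i (1 : ResidueField R) : Fin r → ResidueField R) j :=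
    fun i => hlift _ (by rw [htop]; exact Submodule.mem_top)
  choose D hD1 hD2 using hD
  refine ⟨r, fun i => (x i : R), D, fun i => (x i).2, hD1, ?_⟩
  -- the Euler derivation
  let E : Derivation ℤ R R := ∑ i, (x i : R) • D i
  have hE : ∀ f, E f = ∑ i, (x i : R) * D i f := by
    intro f
    exact F2_sum _ _ f
  have hEm : ∀ f, E f ∈ maximalIdeal R := by
    intro f
    rw [hE]
    exact Ideal.sum_mem _ fun j _ => Ideal.mul_mem_right _ _ (x j).2
  have hE2 : ∀ f ∈ maximalIdeal R ^ 2, E f ∈ maximalIdeal R ^ 2 := by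
    intro f hf
    rw [pow_two] at hf ⊢
    refine Submodule.mul_induction_on hf ?_ ?_
    · intro p hp q hq
      rw [Derivation.leibniz, smul_eq_mul, smul_eq_mul]
      exact Ideal.add_mem _ (Ideal.mul_mem_mul hp (hEm q)) (Ideal.mul_mem_mul hq (hEm p))
    · intro p q hp hq
      rw [map_add]
      exact Ideal.add_mem _ hp hq
  have hEx : ∀ j, E (x j) - x j ∈ maximalIdeal R ^ 2 := by
    intro j
    rw [hE]
    have h1 : (x j : R) = ∑ i, (x i : R) * (Pi.single j (1 : R) : Fin r → R) i := by
      simp [Pi.single_apply]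
    have h2 : ∑ i, (x i : R) * D i (x j) - (x j : R)
        = ∑ i, (x i : R) * (D i (x j) - (Pi.single j (1 : R) : Fin r → R) i) := by
      conv_lhs => rw [h1]
      rw [← Finset.sum_sub_distrib]
      refine Finset.sum_congr rfl fun i _ => ?_
      rw [← h1]
      ring
    rw [h2, pow_two]
    refine Ideal.sum_mem _ fun i _ => Ideal.mul_mem_mul (x i).2 ?_
    rw [← residue_eq_zero_iff, map_sub, hD2, sub_eq_zero]
    by_cases hij : i = j
    · subst hij
      simp
    · simp [Pi.single_apply, hij, Ne.symm hij]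
  intro f hf
  rw [← hE]
  have hrep : ∃ c : Fin r → R, f - ∑ j, c j * (x j : R) ∈ maximalIdeal R ^ 2 := by
    let y : maximalIdeal R := ⟨f, hf⟩
    have h1 := b.sum_repr ((maximalIdeal R).toCotangent y)
    have hlift2 : ∀ j : Fin r, ∃ a : R,
        residue R a = b.repr ((maximalIdeal R).toCotangent y) j := fun j => residue_surjective _
    choose c hc using hlift2
    refine ⟨c, ?_⟩
    have h2 : (maximalIdeal R).toCotangent y = (maximalIdeal R).toCotangent (∑ j, c j • x j) := by
      rw [← h1, map_sum]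
      refine Finset.sum_congr rfl fun j _ => ?_
      rw [map_smul, hx, ← hc]
      rfl
    rw [Ideal.toCotangent_eq] at h2
    simpa using h2
  obtain ⟨c, hc⟩ := hrep
  have h3 : E f - f = E (f - ∑ j, c j * (x j : R)) - (f - ∑ j, c j * (x j : R))
      + ∑ j, (c j * (E (x j) - x j) + x j * E (c j)) := by
    rw [map_sub, map_sum, Finset.sum_add_distrib]
    have h4 : ∑ j, E (c j * (x j : R)) = ∑ j, c j * (E (x j) - x j) + ∑ j, (x j : R) * E (c j)
        + ∑ j, c j * (x j : R) := by
      rw [← Finset.sum_add_distrib, ← Finset.sum_add_distrib]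
      refine Finset.sum_congr rfl fun j _ => ?_
      rw [Derivation.leibniz, smul_eq_mul, smul_eq_mul]
      ring
    rw [h4]
    ring
  rw [h3]
  refine Ideal.add_mem _ (Ideal.sub_mem _ (hE2 _ hc) hc) (Ideal.sum_mem _ fun j _ => ?_)
  refine Ideal.add_mem _ (Ideal.mul_mem_left _ _ (hEx j)) ?_
  rw [pow_two]
  exact Ideal.mul_mem_mul (x j).2 (hEm _)

theorem stable_zero {k R ι : Type} [Field k] [CharZero k] [CommRing R] [Algebra k R] [IsLocalRing R]
    [IsNoetherianRing R]
    (hres : ∀ a : R, ∃ c : k, a - algebraMap k R c ∈ IsLocalRing.maximalIdeal R)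
    (δ : ι → R →+* DualNumber R) (hδ : ∀ w a, (δ w a).fst = a)
    (hδk : ∀ w c, δ w (algebraMap k R c) = algebraMap R (DualNumber R) (algebraMap k R c))
    (hsep : ∀ f ∈ IsLocalRing.maximalIdeal R,
      (∀ w, (δ w f).snd ∈ IsLocalRing.maximalIdeal R) → f ∈ IsLocalRing.maximalIdeal R ^ 2)
    (J : Ideal R) (hJ : J ≤ IsLocalRing.maximalIdeal R) (hst : ∀ w, ∀ a ∈ J, (δ w a).snd ∈ J) :
    J = ⊥ := by
  classical
  let dd : ι → Derivation ℤ R R := fun w => Derivation.mk'
    (AddMonoidHom.toIntLinearMap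
      { toFun := fun a => (δ w a).snd
        map_zero' := by rw [map_zero]; rfl
        map_add' := fun a b => by rw [map_add]; rfl })
    (fun a b => by
      show (δ w (a * b)).snd = a • (δ w b).snd + b • (δ w a).snd
      rw [map_mul, TrivSqZeroExt.snd_mul, hδ, hδ]
      simp [mul_comm])
  have hdd : ∀ w a, dd w a = (δ w a).snd := fun w a => rfl
  obtain ⟨r, x, D, hx, hD, hE⟩ := F2_euler dd (fun f hf h => hsep f hf h)
  have hDJ : ∀ i, ∀ a ∈ J, D i a ∈ J := by
    intro i a ha
    have h1 : ∀ D' ∈ Submodule.span R (Set.range dd), D' a ∈ J := by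
      intro D' hD'
      induction hD' using Submodule.span_induction with
      | mem u hu =>
        obtain ⟨w, rfl⟩ := hu
        exact hst w a ha
      | zero => exact J.zero_mem
      | add u₁ u₂ _ _ h₁ h₂ => exact J.add_mem h₁ h₂
      | smul c u _ h => exact J.mul_mem_left c h
    exact h1 _ (hD i)
  let E : Derivation ℤ R R := ∑ i, x i • D i
  have hEf : ∀ f, E f = ∑ i, x i * D i f := by
    intro f
    exact F2_sum _ _ f
  have hEm : ∀ f, E f ∈ IsLocalRing.maximalIdeal R := by
    intro f
    rw [hEf]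
    exact Ideal.sum_mem _ fun j _ => Ideal.mul_mem_right _ _ (hx j)
  have hEJ : ∀ a ∈ J, E a ∈ IsLocalRing.maximalIdeal R * J := by
    intro a ha
    rw [hEf]
    exact Ideal.sum_mem _ fun j _ => Ideal.mul_mem_mul (hx j) (hDJ j a ha)
  have hpow : ∀ n : ℕ, ∀ f ∈ IsLocalRing.maximalIdeal R ^ n,
      E f - (n : R) * f ∈ IsLocalRing.maximalIdeal R ^ (n + 1) := by
    intro n
    induction n with
    | zero =>
      intro f _
      simpa using hEm f
    | succ n ih =>
      intro f hf
      rw [pow_succ] at hf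
      refine Submodule.mul_induction_on hf ?_ ?_
      · intro p hp q hq
        have h1 : E (p * q) - ((n + 1 : ℕ) : R) * (p * q)
            = p * (E q - q) + q * (E p - (n : R) * p) := by
          rw [Derivation.leibniz, smul_eq_mul, smul_eq_mul]
          push_cast
          ring
        rw [h1]
        refine Ideal.add_mem _ ?_ ?_
        · have h2 : n + 1 + 1 = n + 2 := rfl
          rw [h2, pow_add]
          refine Ideal.mul_mem_mul hp ?_
          rw [hEf]
          exact hE q hq
        · rw [pow_succ, mul_comm q]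
          exact Ideal.mul_mem_mul (ih p hp) hq
      · intro p q hp hq
        have h1 : E (p + q) - ((n + 1 : ℕ) : R) * (p + q)
            = (E p - ((n + 1 : ℕ) : R) * p) + (E q - ((n + 1 : ℕ) : R) * q) := by
          rw [map_add]
          ring
        rw [h1]
        exact Ideal.add_mem _ hp hq
  have hJn : ∀ n : ℕ, J ≤ IsLocalRing.maximalIdeal R ^ (n + 1) := by
    intro n
    induction n with
    | zero => simpa using hJ
    | succ n ih =>
      intro a ha
      have h1 := hpow (n + 1) a (ih ha)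
      have h2 : E a ∈ IsLocalRing.maximalIdeal R ^ (n + 1 + 1) := by
        rw [pow_succ']
        exact Ideal.mul_mono_right ih (hEJ a ha)
      have h3 : ((n + 1 : ℕ) : R) * a ∈ IsLocalRing.maximalIdeal R ^ (n + 1 + 1) := by
        have h4 := Ideal.sub_mem _ h2 h1
        simpa using h4
      have h5 : a = algebraMap k R ((n + 1 : ℕ) : k)⁻¹ * (((n + 1 : ℕ) : R) * a) := by
        rw [← mul_assoc, ← map_natCast (algebraMap k R) (n + 1), ← map_mul,
          inv_mul_cancel₀ (by exact_mod_cast Nat.succ_ne_zero n), map_one, one_mul]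
      rw [h5]
      exact Ideal.mul_mem_left _ _ h3
  rw [eq_bot_iff, ← Ideal.iInf_pow_eq_bot_of_isLocalRing (IsLocalRing.maximalIdeal R)
    (IsLocalRing.maximalIdeal.isMaximal R).ne_top]
  refine le_iInf fun n => ?_
  exact (hJn n).trans (Ideal.pow_le_pow_right (Nat.le_succ n))

theorem uniq {k R S ι : Type} [Field k] [CharZero k] [CommRing R] [Algebra k R] [IsLocalRing R]
    [IsNoetherianRing R] [CommRing S]
    (hres : ∀ a : R, ∃ c : k, a - algebraMap k R c ∈ IsLocalRing.maximalIdeal R)
    (δ : ι → R →+* DualNumber R) (hδ : ∀ w a, (δ w a).fst = a)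
    (hδk : ∀ w c, δ w (algebraMap k R c) = algebraMap R (DualNumber R) (algebraMap k R c))
    (hsep : ∀ f ∈ IsLocalRing.maximalIdeal R,
      (∀ w, (δ w f).snd ∈ IsLocalRing.maximalIdeal R) → f ∈ IsLocalRing.maximalIdeal R ^ 2)
    (φ₁ φ₂ : S →+* R) (hφ : ∀ s, φ₁ s - φ₂ s ∈ IsLocalRing.maximalIdeal R) (d : ι → S → S)
    (h₁ : ∀ w s, (δ w (φ₁ s)).snd = φ₁ (d w s)) (h₂ : ∀ w s, (δ w (φ₂ s)).snd = φ₂ (d w s)) :
    φ₁ = φ₂ := by
  have hJ : Ideal.span (Set.range fun s => φ₁ s - φ₂ s) = ⊥ := by
    refine stable_zero hres δ hδ hδk hsep _ ?_ ?_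
    · rw [Ideal.span_le]
      rintro _ ⟨s, rfl⟩
      exact hφ s
    · intro w a ha
      refine Submodule.span_induction (p := fun a _ => (δ w a).snd ∈
        Ideal.span (Set.range fun s => φ₁ s - φ₂ s)) ?_ ?_ ?_ ?_ ha
      · rintro _ ⟨s, rfl⟩
        have h3 : (δ w (φ₁ s - φ₂ s)).snd = φ₁ (d w s) - φ₂ (d w s) := by
          rw [map_sub, TrivSqZeroExt.snd_sub, h₁, h₂]
        show (δ w (φ₁ s - φ₂ s)).snd ∈ _
        rw [h3]
        exact Ideal.subset_span ⟨d w s, rfl⟩
      · show (δ w 0).snd ∈ _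
        rw [map_zero]
        exact Ideal.zero_mem _
      · intro a b _ _ ha hb
        show (δ w (a + b)).snd ∈ _
        rw [map_add]
        exact Ideal.add_mem _ ha hb
      · intro c a ha ha'
        show (δ w (c • a)).snd ∈ _
        rw [smul_eq_mul, map_mul, TrivSqZeroExt.snd_mul, hδ, hδ]
        refine Ideal.add_mem _ (Ideal.mul_mem_left _ _ ha') ?_
        rw [op_smul_eq_mul]
        exact Ideal.mul_mem_left _ _ ha
  ext s
  have h3 : φ₁ s - φ₂ s ∈ Ideal.span (Set.range fun s => φ₁ s - φ₂ s) :=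
    Ideal.subset_span ⟨s, rfl⟩
  rw [hJ, Ideal.mem_bot] at h3
  exact sub_eq_zero.1 h3

end LibHM79
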