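import Mathlib

/-! F3 (SHORT, algebra, ONLY MATHLIB). Functions killed by all tangent vectors. R local k-algebra with residue field k: f ∈ m killed by all k-algebra maps θ : R →
k[ε] lies in m². Plan: if f ∉ m² choose a k-linear functional λ on m/m² with λ f ≠ 0 (a vector space; CotangentSpace over the
residue field k; or Submodule.exists_dual...), R/m² = k ⊕ m/m², θ(c + t) := c + λ(t) ε (c ∈ k, t ∈ m): every a ∈ R is uniquely
algebraMap c + t. -/

namespace LibHM79

private theorem F3_uniq {k R : Type} [Field k] [CommRing R] [Algebra k R] [IsLocalRing R] (x : k)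
    (hx : algebraMap k R x ∈ IsLocalRing.maximalIdeal R) : x = 0 := by
  by_contra h0
  have h1 : IsUnit (algebraMap k R x) := (IsUnit.mk0 x h0).map _
  exact (IsLocalRing.mem_maximalIdeal _).1 hx h1

/-- A constant part and a functional give a map to the dual numbers. -/
private noncomputable def F3_theta {k R : Type} [Field k] [CommRing R] [Algebra k R]
    (c : R →ₐ[k] k) (l : R →ₗ[k] k) (h1 : l 1 = 0)
    (hmul : ∀ a b, l (a * b) = c a * l b + c b * l a) : R →ₐ[k] DualNumber k where
  toFun a := TrivSqZeroExt.inl (c a) + TrivSqZeroExt.inr (l a)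
  map_one' := by
    ext <;> simp [h1]
  map_mul' a b := by
    ext
    · simp
    · simp [hmul]
      ring
  map_zero' := by
    ext <;> simp
  map_add' a b := by
    ext <;> simp
  commutes' x := by
    ext
    · simp
      rfl
    · simp [Algebra.algebraMap_eq_smul_one, h1]

private theorem F3_const {k R : Type} [Field k] [CommRing R] [Algebra k R] [IsLocalRing R]
    (hres : ∀ a : R, ∃ c : k, a - algebraMap k R c ∈ IsLocalRing.maximalIdeal R) :
    ∃ c : R →ₐ[k] k, ∀ a, a - algebraMap k R (c a) ∈ IsLocalRing.maximalIdeal R := by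
  choose c hc using hres
  have hu : ∀ (a : R) (x : k), a - algebraMap k R x ∈ IsLocalRing.maximalIdeal R → c a = x := by
    intro a x hx
    have h1 := (IsLocalRing.maximalIdeal R).sub_mem hx (hc a)
    have h2 : a - algebraMap k R x - (a - algebraMap k R (c a)) =
        algebraMap k R (c a - x) := by
      rw [map_sub]
      ring
    rw [h2] at h1
    exact sub_eq_zero.1 (F3_uniq _ h1)
  refine ⟨{ toFun := c, map_one' := ?_, map_mul' := ?_, map_zero' := ?_, map_add' := ?_,
            commutes' := ?_ }, hc⟩
  · exact hu _ _ (by simp)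
  · intro a b
    refine hu _ _ ?_
    have h1 : a * b - algebraMap k R (c a * c b) =
        (a - algebraMap k R (c a)) * b + algebraMap k R (c a) * (b - algebraMap k R (c b)) := by
      rw [map_mul]
      ring
    rw [h1]
    exact Ideal.add_mem _ (Ideal.mul_mem_right _ _ (hc a)) (Ideal.mul_mem_left _ _ (hc b))
  · exact hu _ _ (by simp)
  · intro a b
    refine hu _ _ ?_
    have h1 : a + b - algebraMap k R (c a + c b) =
        (a - algebraMap k R (c a)) + (b - algebraMap k R (c b)) := by
      rw [map_add]
      ring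
    rw [h1]
    exact Ideal.add_mem _ (hc a) (hc b)
  · intro x
    exact hu _ _ (by simp)

theorem sep_alg {k R : Type} [Field k] [CommRing R] [Algebra k R] [IsLocalRing R]
    (hres : ∀ a : R, ∃ c : k, a - algebraMap k R c ∈ IsLocalRing.maximalIdeal R)
    (f : R) (hf : f ∈ IsLocalRing.maximalIdeal R)
    (h : ∀ θ : R →ₐ[k] DualNumber k, θ f = 0) : f ∈ IsLocalRing.maximalIdeal R ^ 2 := by
  by_contra hf2
  obtain ⟨c, hc⟩ := F3_const hres
  let p : Submodule k R := (IsLocalRing.maximalIdeal R ^ 2).restrictScalars k ⊔ Submodule.span k {1}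
  have hp : f ∉ p := by
    intro hfp
    obtain ⟨t, ht, s, hs, hts⟩ := Submodule.mem_sup.1 hfp
    obtain ⟨x, rfl⟩ := Submodule.mem_span_singleton.1 hs
    have ht' : t ∈ IsLocalRing.maximalIdeal R ^ 2 := ht
    have h1 : algebraMap k R x ∈ IsLocalRing.maximalIdeal R := by
      have h2 : algebraMap k R x = f - t := by
        rw [← hts, Algebra.smul_def, mul_one]
        ring
      rw [h2]
      exact Ideal.sub_mem _ hf (Ideal.pow_le_self two_ne_zero ht')
    rw [F3_uniq x h1, zero_smul, add_zero] at hts
    exact hf2 (hts ▸ ht')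
  obtain ⟨l, hl, hlp⟩ := Submodule.exists_dual_map_eq_bot_of_notMem hp inferInstance
  have hl0 : ∀ y ∈ p, l y = 0 := by
    intro y hy
    have h1 : l y ∈ p.map l := ⟨y, hy, rfl⟩
    rw [hlp] at h1
    exact h1
  have h1 : l 1 = 0 := hl0 1 (Submodule.mem_sup_right (Submodule.mem_span_singleton_self 1))
  have h2 : ∀ x : k, l (algebraMap k R x) = 0 := by
    intro x
    rw [Algebra.algebraMap_eq_smul_one, map_smul, h1, smul_zero]
  have hmul : ∀ a b, l (a * b) = c a * l b + c b * l a := by
    intro a b
    have h3 : l ((a - algebraMap k R (c a)) * (b - algebraMap k R (c b))) = 0 := by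
      apply hl0
      refine Submodule.mem_sup_left ?_
      change _ ∈ IsLocalRing.maximalIdeal R ^ 2
      rw [pow_two]
      exact Ideal.mul_mem_mul (hc a) (hc b)
    have h4 : (a - algebraMap k R (c a)) * (b - algebraMap k R (c b)) =
        a * b - c a • b - c b • a + algebraMap k R (c a * c b) := by
      rw [Algebra.smul_def, Algebra.smul_def, map_mul]
      ring
    rw [h4, map_add, map_sub, map_sub, map_smul, map_smul, h2, smul_eq_mul, smul_eq_mul] at h3
    linear_combination h3
  have h5 := h (F3_theta c l h1 hmul)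
  have h6 : TrivSqZeroExt.snd (F3_theta c l h1 hmul f) = l f := by
    simp [F3_theta]
  rw [h5] at h6
  exact hl (by rw [← h6]; simp)

end LibHM79
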