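import Pool.Agent.LibHM79.F1
import Pool.Agent.LibHM79.F2
import Pool.Agent.LibHM79.F3
import Pool.Agent.LibHM79.B2

/-! F4 (STRONG). Uniqueness of solutions. Plan: λ_w : Dk ⊗ Q ⟶ Q the lift of lift-multiplication (fst ≫ w) * (snd ≫ j) through j (facD:
at ε = 0 it is j since w is 1 there), so λ_w ≫ j = (fst ≫ w) * (snd ≫ j). By dual_ext λ_w ≫ φ_i = (Dk ◁ φ_i) ≫ v w (both sides
on Dk × {g}: the hypothesis Sol with q := lift 𝟙 g ≫ λ_w). Let x := ev g₀, R := stalk of Q.left at x (Noetherian local, residue field k: B1/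
residueFieldIsoBase), S := stalk of Z.left at z₀ = ev (g₀ ≫ φ₁) = ev (g₀ ≫ φ₂), φ_i^# : S → R the stalk maps. Spec R[ε] = Dk × Spec R → Dk ⊗ Q → Q
is a morphism from the spectrum of a local ring, closed point to x, so it is given by a local ring map δ_w : R → R[ε]
(Mathlib Scheme.SpecToEquivOfLocalRing / stalkClosedPointTo), identity mod ε; the same for u_w : S → S[ε] from v w, and
u_w followed by φ_i[ε] = δ_w ∘ φ_i^#. (Alternatively work with affine neighbourhoods Spec R' ∋ x, Spec B ∋ z₀, φ_i(Spec R') ⊆ Spec B, ring maps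
R' → R'[ε], B → B[ε], B → R' and localize at x.) hsep: f ∈ m_x with ∂_w f ∈ m_x for all tangent w: every k-algebra map θ : R → k[ε] gives a
morphism q : Dk → Q with zpt ≫ q = g₀, w := (q ≫ j) / (toUnit ≫ g₀ ≫ j) is tangent at 1 and q = lift 𝟙 g₀ ≫ λ_w, so θ = (R → R[ε] → k[ε]) and
θ f = ∂_w f(x) ε = 0; sep_alg gives f ∈ m². LibHM79.uniq: φ₁^# = φ₂^#, so φ₁, φ₂ agree on Spec O_{Q,x} → Q, hence at the generic point, hence
on a dense open and everywhere (Q integral, Z separated). -/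

namespace LibHM79

open AlgebraicGeometry CategoryTheory MonoidalCategory CartesianMonoidalCategory MonObj Limits TopologicalSpace

section F4

variable {k : Type} [Field k]

private noncomputable def F4_Sp (k A : Type) [Field k] [CommRing A] [Algebra k A] : SchK k :=
  Over.mk (Spec.map (CommRingCat.ofHom (algebraMap k A)))

variable {A B C : Type} [CommRing A] [CommRing B] [CommRing C] [Algebra k A] [Algebra k B]
  [Algebra k C]

private noncomputable def F4_map (f : A →ₐ[k] B) : F4_Sp k B ⟶ F4_Sp k A :=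
  Over.homMk (Spec.map (CommRingCat.ofHom (f : A →+* B))) (by
    dsimp [F4_Sp]
    rw [← Spec.map_comp, ← CommRingCat.ofHom_comp]
    congr 2
    ext x
    simp)

private lemma F4_map_comp (f : A →ₐ[k] B) (g : B →ₐ[k] C) :
    F4_map (g.comp f) = F4_map g ≫ F4_map f := by
  ext1
  change Spec.map (CommRingCat.ofHom (g.comp f : A →+* C)) =
    Spec.map (CommRingCat.ofHom (g : B →+* C)) ≫ Spec.map (CommRingCat.ofHom (f : A →+* B))
  rw [← Spec.map_comp, ← CommRingCat.ofHom_comp]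
  rfl

private lemma F4_map_id : F4_map (AlgHom.id k A) = 𝟙 (F4_Sp k A) := by
  ext1
  change Spec.map (CommRingCat.ofHom ((AlgHom.id k A : A →ₐ[k] A) : A →+* A)) =
    𝟙 (Spec (CommRingCat.of A))
  have : CommRingCat.ofHom ((AlgHom.id k A : A →ₐ[k] A) : A →+* A) = 𝟙 (CommRingCat.of A) := by
    ext x
    rfl
  rw [this]
  exact Spec.map_id _

private lemma F4_map_inj {f g : A →ₐ[k] B} (h : F4_map f = F4_map g) : f = g := by
  have h1 : Spec.map (CommRingCat.ofHom (f : A →+* B)) = Spec.map (CommRingCat.ofHom (g : A →+* B)) :=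
    congrArg CommaMorphism.left h
  have h2 := Spec.map_injective h1
  have h3 : (f : A →+* B) = (g : A →+* B) := by
    have := congrArg CommRingCat.Hom.hom h2
    simpa using this
  ext x
  exact DFunLike.congr_fun h3 x

private lemma F4_map_surj (g : F4_Sp k B ⟶ F4_Sp k A) : ∃ f : A →ₐ[k] B, F4_map f = g := by
  obtain ⟨φ, hφ⟩ := Spec.map_surjective g.left
  have h1 := Over.w g
  dsimp [F4_Sp] at h1
  rw [← hφ, ← Spec.map_comp] at h1
  have h2 := Spec.map_injective h1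
  refine ⟨{ φ.hom with commutes' := fun c => ?_ }, ?_⟩
  · have := congrArg CommRingCat.Hom.hom h2
    exact DFunLike.congr_fun this c
  · ext1
    rw [← hφ]
    rfl

/-- the map of dual numbers -/
private def F4_D (f : A →ₐ[k] B) : DualNumber A →ₐ[k] DualNumber B where
  toFun a := TrivSqZeroExt.inl (f a.fst) + TrivSqZeroExt.inr (f a.snd)
  map_one' := by ext <;> simp
  map_mul' x y := by ext <;> simp
  map_zero' := by ext <;> simp
  map_add' x y := by ext <;> simp
  commutes' c := by ext <;> simp [TrivSqZeroExt.algebraMap_eq_inl']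

private lemma F4_D_fst (f : A →ₐ[k] B) (a : DualNumber A) : (F4_D f a).fst = f a.fst := by
  simp [F4_D]

private lemma F4_D_snd (f : A →ₐ[k] B) (a : DualNumber A) : (F4_D f a).snd = f a.snd := by
  simp [F4_D]

/-- first projection of the dual numbers -/
private noncomputable def F4_p (k A : Type) [Field k] [CommRing A] [Algebra k A] :
    F4_Sp k (DualNumber A) ⟶ Dk k :=
  (F4_map (F4_D (Algebra.ofId k A)) : F4_Sp k (DualNumber A) ⟶ F4_Sp k (DualNumber k))

private noncomputable def F4_q (k A : Type) [Field k] [CommRing A] [Algebra k A] :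
    F4_Sp k (DualNumber A) ⟶ F4_Sp k A :=
  F4_map (TrivSqZeroExt.inlAlgHom k A A)

private noncomputable def F4_z (k A : Type) [Field k] [CommRing A] [Algebra k A] :
    F4_Sp k A ⟶ F4_Sp k (DualNumber A) :=
  F4_map (TrivSqZeroExt.fstHom k A A)

private lemma F4_zq : F4_z k A ≫ F4_q k A = 𝟙 _ := by
  rw [F4_z, F4_q, ← F4_map_comp, ← F4_map_id]
  congr 1

private lemma F4_toUnit_left (T : SchK k) : (toUnit T).left = T.hom := by
  exact Over.toUnit_left

private lemma F4_unit : (F4_map (TrivSqZeroExt.fstHom k k k) : F4_Sp k k ⟶ Dk k) =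
    toUnit (F4_Sp k k) ≫ zpt k := by
  ext1
  rw [Over.comp_left, F4_toUnit_left]
  change Spec.map (CommRingCat.ofHom ((TrivSqZeroExt.fstHom k k k : DualNumber k →ₐ[k] k) :
    DualNumber k →+* k)) = Spec.map (CommRingCat.ofHom (algebraMap k k)) ≫
      Spec.map (CommRingCat.ofHom (TrivSqZeroExt.fstHom k k k).toRingHom)
  rw [← Spec.map_comp, ← CommRingCat.ofHom_comp]
  rfl

private lemma F4_zp : F4_z k A ≫ F4_p k A = toUnit _ ≫ zpt k := by
  have h1 : (TrivSqZeroExt.fstHom k A A).comp (F4_D (Algebra.ofId k A)) =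
      (Algebra.ofId k A).comp (TrivSqZeroExt.fstHom k k k) := by
    ext
    simp [F4_D]
  have h2 : F4_z k A ≫ F4_p k A = F4_map ((TrivSqZeroExt.fstHom k A A).comp
      (F4_D (Algebra.ofId k A))) := by
    rw [F4_map_comp]
    rfl
  rw [h2, h1, F4_map_comp]
  have h3 : (F4_map (Algebra.ofId k A) ≫ F4_map (TrivSqZeroExt.fstHom k k k) :
    F4_Sp k A ⟶ Dk k) = F4_map (Algebra.ofId k A) ≫ toUnit (F4_Sp k k) ≫ zpt k := by
    rw [← F4_unit]
  refine h3.trans ?_
  rw [← Category.assoc]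
  congr 1
  exact toUnit_unique _ _

private lemma F4_Dp (f : A →ₐ[k] B) : F4_map (F4_D f) ≫ F4_p k A = F4_p k B := by
  have h1 : (F4_D f).comp (F4_D (Algebra.ofId k A)) = F4_D (Algebra.ofId k B) := by
    ext <;> simp [F4_D]
  have h2 : F4_map (F4_D f) ≫ F4_p k A = F4_map ((F4_D f).comp (F4_D (Algebra.ofId k A))) := by
    rw [F4_map_comp]
    rfl
  rw [h2, h1]
  rfl

private lemma F4_Dq (f : A →ₐ[k] B) : F4_map (F4_D f) ≫ F4_q k A = F4_q k B ≫ F4_map f := by
  rw [F4_q, F4_q, ← F4_map_comp, ← F4_map_comp]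
  congr 1
  ext <;> simp [F4_D]

private lemma F4_pk : F4_p k k = 𝟙 (Dk k) := by
  have h1 : F4_D (Algebra.ofId k k) = AlgHom.id k (DualNumber k) := by
    ext <;> simp [F4_D]
  have h2 : F4_p k k = F4_map (F4_D (Algebra.ofId k k)) := rfl
  rw [h2, h1]
  exact F4_map_id

private lemma F4_fac {X : Scheme} {x : X} {A : CommRingCat} [IsLocalRing A] (g : Spec A ⟶ X)
    (h : g (IsLocalRing.closedPoint A) = x) :
    ∃ f : X.presheaf.stalk x ⟶ A, Spec.map f ≫ X.fromSpecStalk x = g := by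
  subst h
  exact ⟨Scheme.stalkClosedPointTo g, Scheme.Spec_stalkClosedPointTo_fromSpecStalk g⟩

private lemma F4_loc (T : SchK k) [LocallyOfFiniteType T.hom] (x : T.left) :
    ∃ (R : Type) (_ : CommRing R) (_ : Algebra k R) (_ : IsLocalRing R) (_ : IsNoetherianRing R)
      (e : F4_Sp k R ⟶ T), Mono e ∧ Set.range e.left = {y | y ⤳ x} ∧
      e.left (IsLocalRing.closedPoint R) = x ∧
      ∀ (A : Type) [CommRing A] [Algebra k A] [IsLocalRing A] (g : F4_Sp k A ⟶ T),
        g.left (IsLocalRing.closedPoint A) = x → ∃ f : R →ₐ[k] A, F4_map f ≫ e = g := by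
  obtain ⟨κ, hκ⟩ := Spec.map_surjective (T.left.fromSpecStalk x ≫ T.hom :
    Spec (T.left.presheaf.stalk x) ⟶ Spec (CommRingCat.of k))
  let alg : Algebra k (T.left.presheaf.stalk x) := κ.hom.toAlgebra
  have hN : IsLocallyNoetherian T.left := LocallyOfFiniteType.isLocallyNoetherian T.hom
  have hker : Spec.map (CommRingCat.ofHom (algebraMap k (T.left.presheaf.stalk x))) =
      T.left.fromSpecStalk x ≫ T.hom := hκ
  let e : F4_Sp k (T.left.presheaf.stalk x) ⟶ T := Over.homMk (T.left.fromSpecStalk x) hker.symm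
  refine ⟨T.left.presheaf.stalk x, inferInstance, alg, inferInstance, inferInstance, e, ?_, ?_, ?_, ?_⟩
  · have : Mono e.left := by
      change Mono (T.left.fromSpecStalk x)
      infer_instance
    exact Over.mono_of_mono_left e
  · exact Scheme.range_fromSpecStalk
  · exact Scheme.fromSpecStalk_closedPoint
  · intro A _ _ _ g hg
    obtain ⟨f, hf⟩ := F4_fac (A := CommRingCat.of A) g.left hg
    have h2 : Spec.map (κ ≫ f) = Spec.map (CommRingCat.ofHom (algebraMap k A)) := by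
      rw [Spec.map_comp, hκ]
      exact (Category.assoc _ _ _).symm.trans ((congrArg (· ≫ T.hom) hf).trans (Over.w g))
    have h3 := Spec.map_injective h2
    refine ⟨{ f.hom with commutes' := fun c => ?_ }, ?_⟩
    · exact DFunLike.congr_fun (congrArg CommRingCat.Hom.hom h3) c
    · ext1
      exact hf

private lemma F4_local (R : Type) [CommRing R] [IsLocalRing R] : IsLocalRing (DualNumber R) := by
  refine IsLocalRing.of_isUnit_or_isUnit_one_sub_self (fun a => ?_)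
  rw [TrivSqZeroExt.isUnit_iff_isUnit_fst, TrivSqZeroExt.isUnit_iff_isUnit_fst]
  have := IsLocalRing.isUnit_or_isUnit_one_sub_self a.fst
  simpa using this

private lemma F4_closed {A B : Type} [CommRing A] [CommRing B] [Algebra k A] [Algebra k B]
    [IsLocalRing A] [IsLocalRing B] (f : A →ₐ[k] B) (hf : ∀ a, IsUnit (f a) → IsUnit a) :
    (F4_map f).left (IsLocalRing.closedPoint B) = IsLocalRing.closedPoint A := by
  have h1 : IsLocalHom (CommRingCat.ofHom (f : A →+* B)).hom := ⟨fun a ha => hf a ha⟩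
  exact Spec_closedPoint (f := CommRingCat.ofHom (f : A →+* B))

/-- the ring map `R → R[ε]` given by a vector field. -/
private lemma F4_der {T : SchK k} {x : T.left} {R : Type} [CommRing R] [Algebra k R]
    [IsLocalRing R] (e : F4_Sp k R ⟶ T) [Mono e]
    (hx : e.left (IsLocalRing.closedPoint R) = x)
    (hfac : ∀ (A : Type) [CommRing A] [Algebra k A] [IsLocalRing A] (g : F4_Sp k A ⟶ T),
        g.left (IsLocalRing.closedPoint A) = x → ∃ f : R →ₐ[k] A, F4_map f ≫ e = g)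
    (m : Dk k ⊗ T ⟶ T) (hm : lift (toUnit T ≫ zpt k) (𝟙 T) ≫ m = 𝟙 T) :
    ∃ δ : R →ₐ[k] DualNumber R, F4_map δ ≫ e = lift (F4_p k R) (F4_q k R ≫ e) ≫ m ∧
      ∀ a, (δ a).fst = a := by
  have hloc := F4_local R
  have hz : F4_z k R ≫ lift (F4_p k R) (F4_q k R ≫ e) ≫ m = e := by
    rw [← Category.assoc, comp_lift, F4_zp, ← Category.assoc, F4_zq, Category.id_comp]
    have h1 : lift (toUnit (F4_Sp k R) ≫ zpt k) e = e ≫ lift (toUnit T ≫ zpt k) (𝟙 T) := by
      rw [comp_lift, Category.comp_id, ← Category.assoc]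
      congr 2
      exact toUnit_unique _ _
    rw [h1, Category.assoc, hm, Category.comp_id]
  have hcl : (lift (F4_p k R) (F4_q k R ≫ e) ≫ m).left
      (IsLocalRing.closedPoint (DualNumber R)) = x := by
    have h2 := F4_closed (k := k) (TrivSqZeroExt.fstHom k R R)
      (fun a ha => TrivSqZeroExt.isUnit_iff_isUnit_fst.2 ha)
    rw [← h2, ← hx]
    have h3 := congrArg (fun φ : F4_Sp k R ⟶ T => φ.left (IsLocalRing.closedPoint R)) hz
    exact h3
  obtain ⟨δ, hδ⟩ := hfac _ _ hcl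
  refine ⟨δ, hδ, ?_⟩
  have h4 : F4_map ((TrivSqZeroExt.fstHom k R R).comp δ) ≫ e = F4_map (AlgHom.id k R) ≫ e := by
    rw [F4_map_comp, F4_map_id, Category.assoc, hδ, Category.id_comp]
    exact hz
  have h5 := F4_map_inj ((cancel_mono e).1 h4)
  intro a
  exact DFunLike.congr_fun h5 a

private lemma F4_char {R : Type} [CommRing R] [Algebra k R] [IsLocalRing R] (χ : R →ₐ[k] k)
    (a : R) : a - algebraMap k R (χ a) ∈ IsLocalRing.maximalIdeal R := by
  rw [IsLocalRing.mem_maximalIdeal, mem_nonunits_iff]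
  intro h
  have h1 := h.map χ
  simp at h1

private lemma F4_char_zero {R : Type} [CommRing R] [Algebra k R] [IsLocalRing R] (χ : R →ₐ[k] k)
    {a : R} (ha : a ∈ IsLocalRing.maximalIdeal R) : χ a = 0 := by
  by_contra hne
  have h1 := F4_char χ a
  have h2 : algebraMap k R (χ a) ∈ IsLocalRing.maximalIdeal R := by
    have := (IsLocalRing.maximalIdeal R).sub_mem ha h1
    simpa using this
  have h3 : IsUnit (algebraMap k R (χ a)) := (IsUnit.mk0 _ hne).map _
  exact (IsLocalRing.mem_maximalIdeal _).1 h2 h3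

private lemma F4_char_uniq {R : Type} [CommRing R] [Algebra k R] [IsLocalRing R]
    (χ χ' : R →ₐ[k] k) : χ = χ' := by
  ext a
  have h1 := F4_char_zero χ' (F4_char χ a)
  simp at h1
  exact (sub_eq_zero.1 h1).symm

private lemma F4_pt {T : SchK k} (t : 𝟙_ (SchK k) ⟶ T) :
    (toUnit (F4_Sp k k) ≫ t).left (IsLocalRing.closedPoint k) = ev t := by
  have h1 : (toUnit (F4_Sp k k)).left (IsLocalRing.closedPoint k) =
      (IsLocalRing.closedPoint k : PrimeSpectrum k) :=
    Subsingleton.elim (α := PrimeSpectrum k) _ _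
  exact congrArg t.left h1

private lemma F4_epi {T : SchK k} {t t' : 𝟙_ (SchK k) ⟶ T}
    (h : toUnit (F4_Sp k k) ≫ t = toUnit (F4_Sp k k) ≫ t') : t = t' := by
  let u : 𝟙_ (SchK k) ⟶ F4_Sp k k := Over.homMk (𝟙 (Spec (CommRingCat.of k))) (by
    change 𝟙 (Spec (CommRingCat.of k)) ≫ Spec.map (CommRingCat.ofHom (algebraMap k k)) = 𝟙 _
    rw [Category.id_comp]
    exact Spec.map_id _)
  have h1 : u ≫ toUnit (F4_Sp k k) = 𝟙 _ := toUnit_unique _ _
  calc t = (u ≫ toUnit (F4_Sp k k)) ≫ t := by rw [h1, Category.id_comp]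
    _ = (u ≫ toUnit (F4_Sp k k)) ≫ t' := by rw [Category.assoc, h, Category.assoc]
    _ = t' := by rw [h1, Category.id_comp]

private lemma F4_lam {G Q Z : SchK k} [IsAlgClosed k] [GrpObj G] [IsIntegral Q.left]
    [LocallyOfFiniteType Q.hom] [IsSeparated Z.hom]
    (v : (Dk k ⟶ G) → (Dk k ⊗ Z ⟶ Z)) (j : Q ⟶ G) [IsOpenImmersion j.left] (w : Dk k ⟶ G)
    (hw : IsTan w) :
    ∃ l : Dk k ⊗ Q ⟶ Q, l ≫ j = (fst (Dk k) Q ≫ w) * (snd (Dk k) Q ≫ j) ∧
      lift (toUnit Q ≫ zpt k) (𝟙 Q) ≫ l = 𝟙 Q ∧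
      ∀ φ : Q ⟶ Z, Sol v j φ → l ≫ φ = (Dk k ◁ φ) ≫ v w := by
  have hw' : zpt k ≫ w = 1 := hw
  have h0 : lift (toUnit Q ≫ zpt k) (𝟙 Q) ≫ ((fst (Dk k) Q ≫ w) * (snd (Dk k) Q ≫ j)) =
      𝟙 Q ≫ j := by
    rw [comp_mul, lift_fst_assoc, lift_snd_assoc, Category.assoc, hw', comp_one, _root_.one_mul]
  obtain ⟨l, hl1, hl2⟩ := facD j _ (𝟙 Q) h0
  refine ⟨l, hl1, hl2, ?_⟩
  intro φ hφ
  refine dual_ext _ _ (fun g => ?_)
  have h1 : (lift (𝟙 (Dk k)) (toUnit (Dk k) ≫ g) ≫ l) ≫ j = w * (toUnit (Dk k) ≫ g ≫ j) := by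
    rw [Category.assoc, hl1, comp_mul, lift_fst_assoc, lift_snd_assoc, Category.id_comp,
      Category.assoc]
  have h2 := hφ w hw g _ h1
  rw [lift_whiskerLeft_assoc, Category.assoc]
  exact (Category.assoc _ _ _).symm.trans h2

end F4

variable {k : Type} [Field k] [IsAlgClosed k] [CharZero k]

theorem sol_unique {G Q Z : SchK k} [GrpObj G] [IsIntegral Q.left] [LocallyOfFiniteType Q.hom]
    [IsSeparated Z.hom] [LocallyOfFiniteType Z.hom] (v : (Dk k ⟶ G) → (Dk k ⊗ Z ⟶ Z))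
    (hv : ∀ w, IsTan w → lift (toUnit Z ≫ zpt k) (𝟙 Z) ≫ v w = 𝟙 Z)
    (j : Q ⟶ G) [IsOpenImmersion j.left] (φ₁ φ₂ : Q ⟶ Z) (h₁ : Sol v j φ₁) (h₂ : Sol v j φ₂)
    (g₀ : 𝟙_ (SchK k) ⟶ Q) (h₀ : g₀ ≫ φ₁ = g₀ ≫ φ₂) : φ₁ = φ₂ := by
  obtain ⟨R, _, _, _, _, e, hem, her, hex, hef⟩ := F4_loc Q (ev g₀)
  obtain ⟨S, _, _, _, _, s, hsm, -, hsx, hsf⟩ := F4_loc Z (ev (g₀ ≫ φ₁))
  obtain ⟨θ₀, hθ₀⟩ := hef k (toUnit _ ≫ g₀) (F4_pt g₀)
  -- the two ring maps
  have hloc : ∀ φ : Q ⟶ Z, g₀ ≫ φ = g₀ ≫ φ₁ → ∃ f : S →ₐ[k] R, F4_map f ≫ s = e ≫ φ := by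
    intro φ hφ
    refine hsf R (e ≫ φ) ?_
    rw [← hφ]
    change φ.left (e.left (IsLocalRing.closedPoint R)) = φ.left (ev g₀)
    rw [hex]
  obtain ⟨f₁, hf₁⟩ := hloc φ₁ rfl
  obtain ⟨f₂, hf₂⟩ := hloc φ₂ h₀.symm
  -- the vector fields on `Q` and `Z`
  have hδ : ∀ w : {w : Dk k ⟶ G // IsTan w}, ∃ (l : Dk k ⊗ Q ⟶ Q) (δ : R →ₐ[k] DualNumber R)
      (u : S →ₐ[k] DualNumber S), l ≫ j = (fst (Dk k) Q ≫ w.1) * (snd (Dk k) Q ≫ j) ∧
      F4_map δ ≫ e = lift (F4_p k R) (F4_q k R ≫ e) ≫ l ∧ (∀ a, (δ a).fst = a) ∧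
      (∀ (φ : Q ⟶ Z) (f : S →ₐ[k] R), Sol v j φ → F4_map f ≫ s = e ≫ φ →
        δ.comp f = (F4_D f).comp u) := by
    rintro ⟨w, hw⟩
    obtain ⟨l, hl1, hl2, hl3⟩ := F4_lam (Z := Z) v j w hw
    obtain ⟨δ, hδ1, hδ2⟩ := F4_der e hex (fun A _ _ _ g => hef A g) l hl2
    obtain ⟨u, hu1, hu2⟩ := F4_der s hsx (fun A _ _ _ g => hsf A g) (v w) (hv w hw)
    refine ⟨l, δ, u, hl1, hδ1, hδ2, ?_⟩
    intro φ f hφ hf
    apply F4_map_inj
    apply (cancel_mono s).1
    rw [F4_map_comp, F4_map_comp, Category.assoc, Category.assoc, hf, hu1, ← Category.assoc, hδ1,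
      Category.assoc, hl3 φ hφ, ← Category.assoc, ← Category.assoc, lift_whiskerLeft, comp_lift,
      F4_Dp, ← Category.assoc, F4_Dq, Category.assoc, Category.assoc, hf]
  choose l δ u hl hδe hδf hδu using hδ
  have hres : ∀ a : R, ∃ c : k, a - algebraMap k R c ∈ IsLocalRing.maximalIdeal R :=
    fun a => ⟨θ₀ a, F4_char θ₀ a⟩
  have hsep : ∀ f ∈ IsLocalRing.maximalIdeal R,
      (∀ w, (δ w f).snd ∈ IsLocalRing.maximalIdeal R) → f ∈ IsLocalRing.maximalIdeal R ^ 2 := by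
    intro f hf hfw
    refine sep_alg hres f hf (fun θ => ?_)
    -- the tangent vector
    set q : Dk k ⟶ Q := (F4_map θ : F4_Sp k (DualNumber k) ⟶ F4_Sp k R) ≫ e with hq
    have hzq : zpt k ≫ q = g₀ := by
      apply F4_epi
      rw [← Category.assoc, ← F4_unit, hq, ← hθ₀]
      have h1 : F4_map (TrivSqZeroExt.fstHom k k k) ≫ F4_map θ ≫ e = F4_map θ₀ ≫ e := by
        rw [← Category.assoc, ← F4_map_comp, F4_char_uniq ((TrivSqZeroExt.fstHom k k k).comp θ) θ₀]
      exact h1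
    obtain ⟨w, hwd⟩ : ∃ w : Dk k ⟶ G, w = (q ≫ j) / (toUnit (Dk k) ≫ g₀ ≫ j) := ⟨_, rfl⟩
    have hw : IsTan w := by
      change zpt k ≫ w = 1
      rw [hwd, GrpObj.comp_div, ← Category.assoc, hzq, ← Category.assoc,
        toUnit_unique (zpt k ≫ toUnit (Dk k)) (𝟙 _), Category.id_comp, div_self']
    have hqj : q = lift (𝟙 (Dk k)) (toUnit (Dk k) ≫ g₀) ≫ l ⟨w, hw⟩ := by
      apply (cancel_mono j).1
      have h1 : (lift (𝟙 (Dk k)) (toUnit (Dk k) ≫ g₀) ≫ l ⟨w, hw⟩) ≫ j =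
          w * (toUnit (Dk k) ≫ g₀ ≫ j) := by
        rw [Category.assoc, hl, comp_mul, lift_fst_assoc, lift_snd_assoc, Category.id_comp,
          Category.assoc]
      rw [h1, hwd, div_mul_cancel]
    have hθ : θ = (F4_D θ₀).comp (δ ⟨w, hw⟩) := by
      apply F4_map_inj
      apply (cancel_mono e).1
      rw [F4_map_comp, Category.assoc, hδe, ← Category.assoc, comp_lift, F4_Dp, ← Category.assoc,
        F4_Dq, Category.assoc, hθ₀, F4_pk]
      refine hqj.trans ?_
      congr 2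
      rw [← Category.assoc]
      congr 1
      exact toUnit_unique _ _
    rw [hθ]
    ext
    · rw [AlgHom.comp_apply, F4_D_fst, hδf, F4_char_zero θ₀ hf]
      rfl
    · rw [AlgHom.comp_apply, F4_D_snd, F4_char_zero θ₀ (hfw _)]
      rfl
  have huniq : (f₁ : S →+* R) = (f₂ : S →+* R) := by
    refine uniq (k := k) hres (fun w => (δ w : R →+* DualNumber R)) hδf ?_ hsep _ _ ?_
      (fun w t => (u w t).snd) ?_ ?_
    · intro w c
      change δ w (algebraMap k R c) = _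
      rw [AlgHom.commutes]
      ext <;> simp [TrivSqZeroExt.algebraMap_eq_inl']
    · intro t
      have h1 := DFunLike.congr_fun (F4_char_uniq (θ₀.comp f₁) (θ₀.comp f₂)) t
      rw [AlgHom.comp_apply, AlgHom.comp_apply] at h1
      rw [IsLocalRing.mem_maximalIdeal, mem_nonunits_iff]
      intro h2
      have h3 := h2.map θ₀
      have h4 : θ₀ ((f₁ : S →+* R) t - (f₂ : S →+* R) t) = 0 := by
        rw [map_sub]
        exact sub_eq_zero.2 h1
      rw [h4] at h3
      exact not_isUnit_zero h3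
    · intro w t
      have h1 := DFunLike.congr_fun (hδu w φ₁ f₁ h₁ hf₁) t
      have h2 := congrArg TrivSqZeroExt.snd h1
      rw [AlgHom.comp_apply, AlgHom.comp_apply, F4_D_snd] at h2
      exact h2
    · intro w t
      have h1 := DFunLike.congr_fun (hδu w φ₂ f₂ h₂ hf₂) t
      have h2 := congrArg TrivSqZeroExt.snd h1
      rw [AlgHom.comp_apply, AlgHom.comp_apply, F4_D_snd] at h2
      exact h2
  have hf : f₁ = f₂ := by
    ext t
    exact DFunLike.congr_fun huniq t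
  have heφ : e ≫ φ₁ = e ≫ φ₂ := by rw [← hf₁, ← hf₂, hf]
  have hdom : IsDominant e.left := by
    refine ⟨?_⟩
    rw [DenseRange, her]
    have h3 : genericPoint Q.left ∈ {y : Q.left | y ⤳ ev g₀} := genericPoint_specializes _
    have h4 : Dense ({genericPoint Q.left} : Set Q.left) :=
      dense_iff_closure_eq.2 (genericPoint_spec Q.left)
    exact h4.mono (Set.singleton_subset_iff.2 h3)
  ext1
  refine ext_of_isDominant_of_isSeparated Z.hom ?_ e.left ?_
  · rw [Over.w, Over.w]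
  · exact congrArg CommaMorphism.left heφ


end LibHM79
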