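import Pool.Agent.LibHM79.B1
import Pool.Agent.LibHM79.B2

/-! G1 (MEDIUM, functor of points). The local solutions. hE is the conclusion of first_order (E4). Plan: z := h ≫ ρ. Q := pullback of jΩ along s_z : G ⟶ G ⊗ Z, s_z := lift (𝟙 G)
(toUnit G ≫ z) (as an object of SchK: Over.mk of the pullback, or use that j₀ is the open immersion of the preimage); j₀ : Q ⟶ G
(open immersion), ω : Q ⟶ Ω with ω ≫ jΩ = j₀ ≫ s_z; φ := ω ≫ α; j := j₀ * (toUnit Q ≫ h ≫ jP) (right translate of j₀: still an open immersion, being j₀ followed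
by the automorphism 𝟙 G * (toUnit ≫ h ≫ jP) of G). Point e: lift through the pullback of 1 : 𝟙_ ⟶ G and AlphaData.one z. Sol: u ≫ j = w * (toUnit ≫ g ≫ j)
gives u ≫ j₀ = w * (toUnit ≫ g ≫ j₀) (cancel on the right); hE with g := g ≫ j₀, c := g ≫ ω, q := u ≫ ω. Last: for u : T ⟶ Q, a : T ⟶ P with
u ≫ j = a ≫ jP: u ≫ j₀ = (a ≫ jP) / (toUnit ≫ h ≫ jP); AlphaData.rel with h := toUnit T ≫ h, h' := a, t := u ≫ ω. -/

namespace LibHM79

open AlgebraicGeometry CategoryTheory MonoidalCategory CartesianMonoidalCategory MonObj Limits TopologicalSpace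

variable {k : Type} [Field k] [IsAlgClosed k]

omit [IsAlgClosed k] in
private theorem G1_iso {G : SchK k} [GrpObj G] (s : 𝟙_ (SchK k) ⟶ G) :
    IsIso (𝟙 G * (toUnit G ≫ s) : G ⟶ G) := by
  refine ⟨𝟙 G * (toUnit G ≫ s⁻¹), ?_, ?_⟩
  · rw [MonObj.comp_mul, Category.comp_id, ← Category.assoc, comp_toUnit, _root_.mul_assoc,
      ← MonObj.comp_mul, mul_inv_cancel, MonObj.comp_one, _root_.mul_one]
  · rw [MonObj.comp_mul, Category.comp_id, ← Category.assoc, comp_toUnit, _root_.mul_assoc,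
      ← MonObj.comp_mul, inv_mul_cancel, MonObj.comp_one, _root_.mul_one]

omit [IsAlgClosed k] in
private theorem G1_open {G Q : SchK k} [GrpObj G] (j : Q ⟶ G) [IsOpenImmersion j.left]
    (s : 𝟙_ (SchK k) ⟶ G) : IsOpenImmersion (j * (toUnit Q ≫ s)).left := by
  have h1 : j * (toUnit Q ≫ s) = j ≫ (𝟙 G * (toUnit G ≫ s) : G ⟶ G) := by
    rw [MonObj.comp_mul, Category.comp_id, ← Category.assoc j, comp_toUnit]
  have h2 := G1_iso (G := G) s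
  have h3 : IsIso (𝟙 G * (toUnit G ≫ s) : G ⟶ G).left :=
    inferInstanceAs (IsIso ((Over.forget (Spec (CommRingCat.of k))).map
      (𝟙 G * (toUnit G ≫ s) : G ⟶ G)))
  rw [h1, Over.comp_left]
  infer_instance

omit [IsAlgClosed k] in
private theorem G1_s {G Z T : SchK k} (g : T ⟶ G) (z : 𝟙_ (SchK k) ⟶ Z) :
    g ≫ lift (𝟙 G) (toUnit G ≫ z) = lift g (toUnit T ≫ z) := by
  rw [comp_lift, Category.comp_id, ← Category.assoc, comp_toUnit]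

omit [IsAlgClosed k] in
private theorem G1_t {Q T W : SchK k} (u : T ⟶ Q) (s : 𝟙_ (SchK k) ⟶ W) :
    u ≫ toUnit Q ≫ s = toUnit T ≫ s := by
  rw [← Category.assoc, comp_toUnit]

theorem local_sol {G Z P Ω : SchK k} [GrpObj G] (jP : P ⟶ G) (ρ : P ⟶ Z)
    (jΩ : Ω ⟶ G ⊗ Z) (α : Ω ⟶ Z) (hα : AlphaData jP ρ Ω jΩ α)
    (v : (Dk k ⟶ G) → (Dk k ⊗ Z ⟶ Z))
    (hE : ∀ (g : 𝟙_ (SchK k) ⟶ G) (z : 𝟙_ (SchK k) ⟶ Z) (w : Dk k ⟶ G), IsTan w →
      ∀ (c : 𝟙_ (SchK k) ⟶ Ω), c ≫ jΩ = lift g z → ∀ q : Dk k ⟶ Ω,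
      q ≫ jΩ = lift (w * (toUnit (Dk k) ≫ g)) (toUnit (Dk k) ≫ z) →
      q ≫ α = lift (𝟙 (Dk k)) (toUnit (Dk k) ≫ c ≫ α) ≫ v w)
    (h : 𝟙_ (SchK k) ⟶ P) :
    ∃ (Q : SchK k) (j : Q ⟶ G) (φ : Q ⟶ Z), IsOpenImmersion j.left ∧
      (∃ e : 𝟙_ (SchK k) ⟶ Q, e ≫ j = h ≫ jP) ∧ Sol v j φ ∧
      ∀ (T : SchK k) (u : T ⟶ Q) (a : T ⟶ P), u ≫ j = a ≫ jP → u ≫ φ = a ≫ ρ := by
  have hjo : IsOpenImmersion jΩ.left := hα.open_imm
  let z : 𝟙_ (SchK k) ⟶ Z := h ≫ ρ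
  let sz : G ⟶ G ⊗ Z := lift (𝟙 G) (toUnit G ≫ z)
  let p₁ : pullback jΩ.left sz.left ⟶ Ω.left := pullback.fst _ _
  let p₂ : pullback jΩ.left sz.left ⟶ G.left := pullback.snd _ _
  have hw : p₂ ≫ G.hom = p₁ ≫ Ω.hom := by
    rw [← Over.w jΩ, ← Over.w sz, ← Category.assoc, ← pullback.condition, Category.assoc]
  let Q : SchK k := Over.mk (p₁ ≫ Ω.hom)
  let ω : Q ⟶ Ω := Over.homMk p₁ rfl
  let j₀ : Q ⟶ G := Over.homMk p₂ hw
  have hR : IsPullback ω j₀ jΩ sz := by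
    refine IsPullback.of_map (Over.forget _) ?_ ?_
    · exact Over.OverMorphism.ext pullback.condition
    · exact IsPullback.of_hasPullback _ _
  have hj₀ : IsOpenImmersion j₀.left := inferInstanceAs (IsOpenImmersion (pullback.snd jΩ.left sz.left))
  have hωj : ∀ (T : SchK k) (u : T ⟶ Q), (u ≫ ω) ≫ jΩ = lift (u ≫ j₀) (toUnit T ≫ z) := by
    intro T u
    rw [Category.assoc, hR.w, ← Category.assoc, G1_s]
  have hj : ∀ (T : SchK k) (u : T ⟶ Q), u ≫ (j₀ * (toUnit Q ≫ h ≫ jP)) =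
      (u ≫ j₀) * (toUnit T ≫ h ≫ jP) := by
    intro T u
    rw [MonObj.comp_mul, G1_t]
  refine ⟨Q, j₀ * (toUnit Q ≫ h ≫ jP), ω ≫ α, G1_open j₀ (h ≫ jP), ?_, ?_, ?_⟩
  · obtain ⟨c, hc⟩ := hα.one z
    have h1 : c ≫ jΩ = (1 : 𝟙_ (SchK k) ⟶ G) ≫ sz := by
      rw [hc, G1_s, toUnit_unit, Category.id_comp]
    refine ⟨hR.lift c 1 h1, ?_⟩
    rw [hj, hR.lift_snd, toUnit_unit, Category.id_comp, _root_.one_mul]
  · intro w hw' g q hq
    have h1 : q ≫ j₀ = w * (toUnit (Dk k) ≫ g ≫ j₀) := by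
      rw [hj, hj, MonObj.comp_mul, toUnit_unit, Category.id_comp, ← _root_.mul_assoc] at hq
      exact mul_right_cancel hq
    have h2 := hE (g ≫ j₀) z w hw' (g ≫ ω) (by
      rw [hωj, toUnit_unit, Category.id_comp]) (q ≫ ω) (by rw [hωj, h1])
    simpa only [Category.assoc] using h2
  · intro T u a hu
    have h1 : u ≫ j₀ = (a ≫ jP) / ((toUnit T ≫ h) ≫ jP) := by
      rw [← hu, hj, Category.assoc, mul_div_cancel_right]
    have h2 := hα.rel T (toUnit T ≫ h) a (u ≫ ω) (by rw [hωj, h1, Category.assoc _ h ρ])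
    rw [h2, Category.assoc]

end LibHM79
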