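import Pool.Agent.LibHM79.F4
import Pool.Agent.LibHM79.B2

/-! G2 (SHORT/MEDIUM). Comparison of two solutions on different charts. Plan: R := pullback of j and j' (object of SchK, open immersions r : R ⟶ Q, r' : R ⟶ Q',
r ≫ j = r' ≫ j' open immersion into G, integral as a nonempty open of G); r ≫ φ and r' ≫ φ' are solutions for r ≫ j (a point g of R and q : Dk ⟶ R: use Sol for φ with g ≫ r
and q ≫ r). They agree at the point of R given by (u₀, u₀'); sol_unique. (b) right translation: Sol v j φ → Sol v (j * (toUnit ≫ s)) φ (cancel s on the right). -/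

namespace LibHM79

open AlgebraicGeometry CategoryTheory MonoidalCategory CartesianMonoidalCategory MonObj Limits TopologicalSpace

variable {k : Type} [Field k] [IsAlgClosed k]

omit [IsAlgClosed k] in
theorem sol_translate {G Q Z : SchK k} [GrpObj G] (v : (Dk k ⟶ G) → (Dk k ⊗ Z ⟶ Z))
    (j : Q ⟶ G) (φ : Q ⟶ Z) (h : Sol v j φ) (s : 𝟙_ (SchK k) ⟶ G) :
    Sol v (j * (toUnit Q ≫ s)) φ := by
  intro w hw g q hq
  refine h w hw g q ?_
  have h1 : q ≫ (j * (toUnit Q ≫ s)) = (q ≫ j) * (toUnit (Dk k) ≫ s) := by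
    rw [MonObj.comp_mul, ← Category.assoc, comp_toUnit]
  have h2 : toUnit (Dk k) ≫ g ≫ (j * (toUnit Q ≫ s)) =
      (toUnit (Dk k) ≫ g ≫ j) * (toUnit (Dk k) ≫ s) := by
    have h3 : g ≫ toUnit Q ≫ s = s := by
      rw [← Category.assoc, comp_toUnit, toUnit_unit, Category.id_comp]
    rw [MonObj.comp_mul, MonObj.comp_mul, h3]
  rw [h1, h2, ← _root_.mul_assoc] at hq
  exact mul_right_cancel hq

omit [IsAlgClosed k] in
private theorem G2_iso {G : SchK k} [GrpObj G] (s : 𝟙_ (SchK k) ⟶ G) :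
    IsIso (𝟙 G * (toUnit G ≫ s) : G ⟶ G) := by
  refine ⟨𝟙 G * (toUnit G ≫ s⁻¹), ?_, ?_⟩
  · rw [MonObj.comp_mul, Category.comp_id, ← Category.assoc, comp_toUnit, _root_.mul_assoc,
      ← MonObj.comp_mul, mul_inv_cancel, MonObj.comp_one, _root_.mul_one]
  · rw [MonObj.comp_mul, Category.comp_id, ← Category.assoc, comp_toUnit, _root_.mul_assoc,
      ← MonObj.comp_mul, inv_mul_cancel, MonObj.comp_one, _root_.mul_one]

omit [IsAlgClosed k] in
theorem open_translate {G Q : SchK k} [GrpObj G] (j : Q ⟶ G) [IsOpenImmersion j.left]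
    (s : 𝟙_ (SchK k) ⟶ G) : IsOpenImmersion (j * (toUnit Q ≫ s)).left := by
  have h1 : j * (toUnit Q ≫ s) = j ≫ (𝟙 G * (toUnit G ≫ s) : G ⟶ G) := by
    rw [MonObj.comp_mul, Category.comp_id, ← Category.assoc j, comp_toUnit]
  have h2 := G2_iso (G := G) s
  have h3 : IsIso (𝟙 G * (toUnit G ≫ s) : G ⟶ G).left :=
    inferInstanceAs (IsIso ((Over.forget (Spec (CommRingCat.of k))).map
      (𝟙 G * (toUnit G ≫ s) : G ⟶ G)))
  rw [h1, Over.comp_left]
  infer_instance

theorem compare [CharZero k] {G Q Q' Z : SchK k} [GrpObj G] [IsIntegral G.left] [LocallyOfFiniteType G.hom]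
    [IsSeparated Z.hom] [LocallyOfFiniteType Z.hom] (v : (Dk k ⟶ G) → (Dk k ⊗ Z ⟶ Z))
    (hv : ∀ w, IsTan w → lift (toUnit Z ≫ zpt k) (𝟙 Z) ≫ v w = 𝟙 Z)
    (j : Q ⟶ G) [IsOpenImmersion j.left] (j' : Q' ⟶ G) [IsOpenImmersion j'.left]
    (φ : Q ⟶ Z) (φ' : Q' ⟶ Z) (h₁ : Sol v j φ) (h₂ : Sol v j' φ')
    (u₀ : 𝟙_ (SchK k) ⟶ Q) (u₀' : 𝟙_ (SchK k) ⟶ Q') (h₀ : u₀ ≫ j = u₀' ≫ j')
    (h₀' : u₀ ≫ φ = u₀' ≫ φ') (T : SchK k) (u : T ⟶ Q) (u' : T ⟶ Q') (hu : u ≫ j = u' ≫ j') :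
    u ≫ φ = u' ≫ φ' := by
  let p₁ : pullback j.left j'.left ⟶ Q.left := pullback.fst _ _
  let p₂ : pullback j.left j'.left ⟶ Q'.left := pullback.snd _ _
  have hw : p₂ ≫ Q'.hom = p₁ ≫ Q.hom := by
    rw [← Over.w j, ← Over.w j', ← Category.assoc, ← pullback.condition, Category.assoc]
  let R : SchK k := Over.mk (p₁ ≫ Q.hom)
  let r : R ⟶ Q := Over.homMk p₁ rfl
  let r' : R ⟶ Q' := Over.homMk p₂ hw
  have hR : IsPullback r r' j j' := by
    refine IsPullback.of_map (Over.forget _) ?_ ?_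
    · ext1
      exact pullback.condition
    · exact IsPullback.of_hasPullback _ _
  have hro : IsOpenImmersion r.left := inferInstanceAs (IsOpenImmersion (pullback.fst j.left j'.left))
  have hro' : IsOpenImmersion r'.left := inferInstanceAs (IsOpenImmersion (pullback.snd j.left j'.left))
  have hrj : IsOpenImmersion (r ≫ j).left := by rw [Over.comp_left]; infer_instance
  let g₀ : 𝟙_ (SchK k) ⟶ R := hR.lift u₀ u₀' h₀
  have hRne : Nonempty R.left := ⟨ev g₀⟩
  have hRi : IsIntegral R.left := isIntegral_of_isOpenImmersion (r ≫ j).left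
  have hRl : LocallyOfFiniteType R.hom := by
    rw [← Over.w (r ≫ j)]
    infer_instance
  have hs₁ : Sol v (r ≫ j) (r ≫ φ) := by
    intro w hw g q hq
    have := h₁ w hw (g ≫ r) (q ≫ r) (by simpa only [Category.assoc] using hq)
    simpa only [Category.assoc] using this
  have hs₂ : Sol v (r ≫ j) (r' ≫ φ') := by
    intro w hw g q hq
    have := h₂ w hw (g ≫ r') (q ≫ r') (by
      rw [hR.w] at hq
      simpa only [Category.assoc] using hq)
    simpa only [Category.assoc] using this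
  have key : r ≫ φ = r' ≫ φ' := by
    refine sol_unique v hv (r ≫ j) (r ≫ φ) (r' ≫ φ') hs₁ hs₂ g₀ ?_
    rw [← Category.assoc, hR.lift_fst, ← Category.assoc, hR.lift_snd, h₀']
  have h5 : u = hR.lift u u' hu ≫ r := (hR.lift_fst _ _ _).symm
  have h6 : u' = hR.lift u u' hu ≫ r' := (hR.lift_snd _ _ _).symm
  calc u ≫ φ = hR.lift u u' hu ≫ r ≫ φ := by rw [← Category.assoc, hR.lift_fst]
    _ = hR.lift u u' hu ≫ r' ≫ φ' := by rw [key]
    _ = u' ≫ φ' := by rw [← Category.assoc, hR.lift_snd]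

end LibHM79
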