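import Pool.Agent.LibHM79.B1
import Pool.Agent.LibHM79.B2

namespace LibHM79

open AlgebraicGeometry CategoryTheory MonoidalCategory CartesianMonoidalCategory MonObj Limits TopologicalSpace

variable {k : Type} [Field k] [IsAlgClosed k]

theorem common_pt {G Q Q' P : SchK k} [IrreducibleSpace P.left] [LocallyOfFiniteType P.hom]
    (jP : P ⟶ G) (j : Q ⟶ G) [IsOpenImmersion j.left] (j' : Q' ⟶ G) [IsOpenImmersion j'.left]
    (h h' : 𝟙_ (SchK k) ⟶ P) (e : 𝟙_ (SchK k) ⟶ Q) (e' : 𝟙_ (SchK k) ⟶ Q')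
    (he : e ≫ j = h ≫ jP) (he' : e' ≫ j' = h' ≫ jP) :
    ∃ (a : 𝟙_ (SchK k) ⟶ P) (u : 𝟙_ (SchK k) ⟶ Q) (u' : 𝟙_ (SchK k) ⟶ Q'),
      u ≫ j = a ≫ jP ∧ u' ≫ j' = a ≫ jP := by
  have hO : IsOpen (jP.left ⁻¹' Set.range j.left) :=
    (j.left.isOpenEmbedding.isOpen_range).preimage jP.left.continuous
  have hO' : IsOpen (jP.left ⁻¹' Set.range j'.left) :=
    (j'.left.isOpenEmbedding.isOpen_range).preimage jP.left.continuous
  have hne : (jP.left ⁻¹' Set.range j.left).Nonempty :=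
    ⟨ev h, by rw [Set.mem_preimage, ← ev_comp, ← he, ev_comp]; exact ⟨_, rfl⟩⟩
  have hne' : (jP.left ⁻¹' Set.range j'.left).Nonempty :=
    ⟨ev h', by rw [Set.mem_preimage, ← ev_comp, ← he', ev_comp]; exact ⟨_, rfl⟩⟩
  have hint := nonempty_preirreducible_inter hO hO' hne hne'
  obtain ⟨a, ha, ha'⟩ := exists_pt _ (hO.inter hO').isLocallyClosed hint
  have hpt : ∀ x : (𝟙_ (SchK k) : SchK k).left, (a ≫ jP).left x = jP.left (ev a) := by
    intro x
    have hx : x = IsLocalRing.closedPoint k := Subsingleton.elim (α := PrimeSpectrum k) _ _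
    rw [hx, ← ev_comp]
    rfl
  obtain ⟨u, hu⟩ := fac j (a ≫ jP) (fun x => by rw [hpt]; exact ha)
  obtain ⟨u', hu'⟩ := fac j' (a ≫ jP) (fun x => by rw [hpt]; exact ha')
  exact ⟨a, u, u', hu, hu'⟩

end LibHM79
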