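import Pool.Agent.LibHM79.B3
import Pool.Agent.LibHM79.G2
import Pool.Agent.LibHM79.G3

/-! G4 (MEDIUM, functor of points). A local solution is constant on the fibres of g ↦ g • x₀. Plan: s := (u₂ ≫ j)⁻¹ * (u₁ ≫ j) fixes x₀. j' := j * (toUnit ≫ s) (open immersion, sol_translate);
u₂ ≫ j' = u₁ ≫ j. Point h' : 𝟙_ ⟶ P with h' ≫ jP = (e ≫ j) * s: exists by hP since (e ≫ j) * s • x₀ = (e ≫ j) • x₀ = (h ≫ oP) ≫ i where e ≫ j = h ≫ jP.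
common_pt for (j, e, h) and (j', e, h') gives a, u, u' with u ≫ j = a ≫ jP, u' ≫ j' = a ≫ jP, i.e. (u' ≫ j) * s = a ≫ jP; so u' ≫ j = a' ≫ jP with a' : 𝟙_ ⟶ P (hP:
(a ≫ jP) * s⁻¹ • x₀ = (a ≫ jP) • x₀) and a' ≫ oP = a ≫ oP (i mono). hrel: u ≫ φ = a ≫ oP ≫ π = a' ≫ oP ≫ π = u' ≫ φ. compare (j, φ) with (j', φ) starting from
(u, u'): for (u₁, u₂): u₁ ≫ j = u₂ ≫ j' gives u₁ ≫ φ = u₂ ≫ φ. -/

namespace LibHM79

open AlgebraicGeometry CategoryTheory MonoidalCategory CartesianMonoidalCategory MonObj Limits TopologicalSpace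

variable {k : Type} [Field k] [IsAlgClosed k]

omit [IsAlgClosed k] in
private theorem G4_orb {G X : SchK k} [GrpObj G] [ModObj G X] (u : 𝟙_ (SchK k) ⟶ G)
    (x₀ : 𝟙_ (SchK k) ⟶ X) : u ≫ orb x₀ = u • x₀ := by
  rw [comp_orb, toUnit_unit, Category.id_comp]

theorem sol_invariant [CharZero k] {G X Y Z P Q : SchK k} [GrpObj G] [ModObj G X] [IsIntegral G.left]
    [LocallyOfFiniteType G.hom] [IsSeparated Z.hom] [LocallyOfFiniteType Z.hom] (i : Y ⟶ X)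
    [IsClosedImmersion i.left] (x₀ : 𝟙_ (SchK k) ⟶ X) (jP : P ⟶ G) (oP : P ⟶ Y)
    (hP : IsPullback jP oP (orb x₀) i) [IrreducibleSpace P.left] [LocallyOfFiniteType P.hom]
    (π : Y ⟶ Z) (v : (Dk k ⟶ G) → (Dk k ⊗ Z ⟶ Z))
    (hv : ∀ w, IsTan w → lift (toUnit Z ≫ zpt k) (𝟙 Z) ≫ v w = 𝟙 Z)
    (j : Q ⟶ G) [IsOpenImmersion j.left] (φ : Q ⟶ Z) (h : 𝟙_ (SchK k) ⟶ P)
    (e : 𝟙_ (SchK k) ⟶ Q) (he : e ≫ j = h ≫ jP) (hφ : Sol v j φ)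
    (hrel : ∀ (T : SchK k) (u : T ⟶ Q) (a : T ⟶ P), u ≫ j = a ≫ jP → u ≫ φ = a ≫ oP ≫ π)
    (u₁ u₂ : 𝟙_ (SchK k) ⟶ Q) (hu : u₁ ≫ j ≫ orb x₀ = u₂ ≫ j ≫ orb x₀) :
    u₁ ≫ φ = u₂ ≫ φ := by
  have hu' : (u₁ ≫ j) • x₀ = (u₂ ≫ j) • x₀ := by
    rw [← G4_orb, ← G4_orb, Category.assoc, Category.assoc, hu]
  obtain ⟨s, hs⟩ : ∃ s : 𝟙_ (SchK k) ⟶ G, s = (u₂ ≫ j)⁻¹ * (u₁ ≫ j) := ⟨_, rfl⟩
  have hsx : s • x₀ = x₀ := by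
    rw [hs, mul_smul, hu', inv_smul_smul]
  have hsx' : s⁻¹ • x₀ = x₀ := by
    rw [inv_smul_eq_iff, hsx]
  have hus : (u₂ ≫ j) * s = u₁ ≫ j := by
    rw [hs, mul_inv_cancel_left]
  have hj : ∀ u : 𝟙_ (SchK k) ⟶ Q, u ≫ (j * (toUnit Q ≫ s)) = (u ≫ j) * s := by
    intro u
    rw [MonObj.comp_mul, ← Category.assoc, comp_toUnit, toUnit_unit, Category.id_comp]
  have hj' := open_translate j s
  have hx : ((e ≫ j) * s) ≫ orb x₀ = (h ≫ oP) ≫ i := by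
    rw [G4_orb, mul_smul, hsx, ← G4_orb, he, Category.assoc, hP.w, Category.assoc]
  have hh' : hP.lift ((e ≫ j) * s) (h ≫ oP) hx ≫ jP = (e ≫ j) * s := hP.lift_fst _ _ _
  obtain ⟨a, u, u', h1, h2⟩ := common_pt jP j (j * (toUnit Q ≫ s)) h
    (hP.lift ((e ≫ j) * s) (h ≫ oP) hx) e e he (by rw [hh', hj])
  have hx' : ((a ≫ jP) * s⁻¹) ≫ orb x₀ = (a ≫ oP) ≫ i := by
    rw [G4_orb, mul_smul, hsx', ← G4_orb, Category.assoc, hP.w, Category.assoc]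
  have h3 : u' ≫ j = hP.lift ((a ≫ jP) * s⁻¹) (a ≫ oP) hx' ≫ jP := by
    rw [hP.lift_fst, ← h2, hj, mul_inv_cancel_right]
  have h4 : u ≫ φ = u' ≫ φ := by
    rw [hrel _ u a h1, hrel _ u' _ h3, ← Category.assoc (hP.lift _ _ _), hP.lift_snd, Category.assoc]
  exact compare v hv j (j * (toUnit Q ≫ s)) φ φ hφ (sol_translate v j φ hφ s) u u'
    (h1.trans h2.symm) h4 _ u₁ u₂ (by rw [hj, hus])

end LibHM79
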