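import Pool.Agent.LibHM79.B1
import Pool.Agent.LibHM79.B2

/-! G5 (MEDIUM/STRONG). Descent along a smooth map. Plan: o : Q ⟶ X smooth, so open; U := the open subscheme o(Q) of X, s : Q ⟶ U smooth surjective. The two pull backs of φ to
Q ×_U Q agree: Q ×_U Q is reduced (smooth over the integral / reduced Q: GeometricallyReduced or: Q smooth over k and Q ×_U Q → Q smooth so Q ×_U Q is smooth over k, hence
reduced: Mathlib AlgebraicGeometry.Morphisms.Smooth / Geometrically.Reduced), locally of finite type; pt_ext with hφ. s is an effective epimorphism: for a point y of U choose a quasi-compact (affine) open of Q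
mapping onto an affine neighbourhood (s is open: finitely many affines; or use Mathlib AlgebraicGeometry.Sites.Fpqc: flat, surjective, locally of finite presentation /
quasi-compact maps are effective epi; if only the quasi-compact version exists use that Q is quasi-compact: hypothesis QuasiCompact Q.hom below) so φ descends to f : U ⟶ Z. -/

namespace LibHM79

open AlgebraicGeometry CategoryTheory MonoidalCategory CartesianMonoidalCategory MonObj Limits TopologicalSpace

section Reduced

open TensorProduct Polynomial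

private theorem g5_const {K : Type} [Field K] (f : K[X]) (hf : IsIntegral K f) :
    ∃ c : K, f = C c := by
  have h : f.natDegree = 0 := by
    by_contra h
    exact Polynomial.transcendental f h (by
      rw [mem_nonZeroDivisors_iff_ne_zero]
      intro h0
      rw [Polynomial.leadingCoeff_eq_zero] at h0
      rw [h0] at h
      exact h natDegree_zero) hf.isAlgebraic
  exact ⟨_, Polynomial.eq_C_of_natDegree_eq_zero h⟩

private theorem g5_nilp {R A : Type} [CommRing R] [CommRing A] [Algebra R A] {x : A}
    (h : IsNilpotent x) : IsIntegral R x := by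
  obtain ⟨m, hm⟩ := h
  exact ⟨X ^ m, monic_X_pow m, by simp [hm]⟩

/-- a smooth algebra over a field is reduced: for `n` nilpotent the element `n X` of `S[X]` is
integral over `S`, so it lies in `S` because smooth base change commutes with integral closure -/
private theorem g5_reduced_ring (K S : Type) [Field K] [CommRing S] [Algebra K S]
    [Algebra.Smooth K S] : _root_.IsReduced S := by
  constructor
  intro n hn
  obtain ⟨m, hm⟩ := hn
  have hnil : IsNilpotent (n ⊗ₜ[K] (X : K[X])) := ⟨m, by
    rw [Algebra.TensorProduct.tmul_pow, hm, zero_tmul]⟩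
  have hint : IsIntegral S (n ⊗ₜ[K] (X : K[X])) := g5_nilp hnil
  obtain ⟨y, hy⟩ := (TensorProduct.toIntegralClosure_bijective_of_smooth
    (R := K) (S := S) (B := K[X])).2 ⟨_, hint⟩
  have hy' : Algebra.TensorProduct.map (AlgHom.id S S) (integralClosure K K[X]).val y
      = n ⊗ₜ[K] (X : K[X]) := congrArg Subtype.val hy
  have key : ∀ y : S ⊗[K] integralClosure K K[X], ∃ s : S,
      Algebra.TensorProduct.map (AlgHom.id S S) (integralClosure K K[X]).val y
        = s ⊗ₜ[K] (1 : K[X]) := by
    intro y
    induction y with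
    | zero => exact ⟨0, by simp⟩
    | add a b ha hb =>
      obtain ⟨s, hs⟩ := ha
      obtain ⟨t, ht⟩ := hb
      exact ⟨s + t, by rw [map_add, hs, ht, add_tmul]⟩
    | tmul a b =>
      obtain ⟨c, hc⟩ := g5_const b.1 b.2
      refine ⟨c • a, ?_⟩
      rw [Algebra.TensorProduct.map_tmul, AlgHom.id_apply, smul_tmul]
      congr 1
      rw [Subalgebra.val_apply, hc, Polynomial.smul_eq_C_mul, _root_.mul_one]
  obtain ⟨s, hs⟩ := key y
  rw [hy'] at hs
  have h1 := congrArg
    (fun z => TensorProduct.rid K S (LinearMap.lTensor S (Polynomial.lcoeff K 1) z)) hs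
  simpa [Polynomial.coeff_one] using h1

end Reduced

/-- a scheme smooth over a field is reduced -/
private theorem g5_reduced (K : Type) [Field K] (T : Scheme.{0})
    (f : T ⟶ Spec (CommRingCat.of K)) [Smooth f] : IsReduced T := by
  have key : ∀ i : T.affineCover.I₀, AlgebraicGeometry.IsReduced (T.affineCover.X i) := by
    intro i
    obtain ⟨ψ, hψ⟩ := Spec.map_surjective (T.affineCover.f i ≫ f)
    have h1 : Smooth (Spec.map ψ) := by
      rw [hψ]
      exact (inferInstance : Smooth (T.affineCover.f i ≫ f))
    have h2 : ψ.hom.Smooth := (HasRingHomProperty.Spec_iff (P := @Smooth)).mp h1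
    refine (affine_isReduced_iff _).mpr ?_
    algebraize [ψ.hom]
    exact g5_reduced_ring K _
  exact AlgebraicGeometry.IsReduced.of_openCover T T.affineCover

variable {k : Type} [Field k] [IsAlgClosed k]

theorem descend {Q X Z : SchK k} [IsIntegral Q.left] [Smooth Q.hom] [QuasiCompact Q.hom]
    [LocallyOfFiniteType X.hom] [IsSeparated X.hom] [IsSeparated Z.hom] [LocallyOfFiniteType Z.hom]
    (o : Q ⟶ X) [Smooth o.left] (φ : Q ⟶ Z)
    (hφ : ∀ u₁ u₂ : 𝟙_ (SchK k) ⟶ Q, u₁ ≫ o = u₂ ≫ o → u₁ ≫ φ = u₂ ≫ φ) :
    ∃ (U : SchK k) (jU : U ⟶ X) (f : U ⟶ Z) (s : Q ⟶ U), IsOpenImmersion jU.left ∧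
      Surjective s.left ∧ s ≫ jU = o ∧ s ≫ f = φ := by
  -- the relation scheme
  let W : SchK k := Over.mk (pullback.fst o.left o.left ≫ Q.hom)
  let p₁ : W ⟶ Q := Over.homMk (pullback.fst o.left o.left) rfl
  let p₂ : W ⟶ Q := Over.homMk (pullback.snd o.left o.left) (by
    change pullback.snd o.left o.left ≫ Q.hom = pullback.fst o.left o.left ≫ Q.hom
    rw [← Over.w o, ← Category.assoc, ← Category.assoc, pullback.condition])
  have hp : p₁ ≫ o = p₂ ≫ o := by
    ext1
    exact pullback.condition
  have hW : Smooth W.hom := by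
    change Smooth (pullback.fst o.left o.left ≫ Q.hom)
    infer_instance
  have hWr : IsReduced W.left := g5_reduced k W.left W.hom
  have hpφ : p₁ ≫ φ = p₂ ≫ φ := by
    refine pt_ext Set.univ isClosed_univ.isLocallyClosed dense_univ (fun t _ => ?_)
    rw [← Category.assoc, ← Category.assoc]
    exact hφ _ _ (by rw [Category.assoc, hp, Category.assoc])
  -- the image
  let V : X.left.Opens := ⟨Set.range o.left, o.left.isOpenMap.isOpen_range⟩
  let U : SchK k := Over.mk (V.ι ≫ X.hom)
  let jU : U ⟶ X := Over.homMk V.ι rfl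
  have hr : Set.range o.left ⊆ Set.range V.ι := by
    rw [Scheme.Opens.range_ι]
    exact subset_rfl
  let s : Q ⟶ U := Over.homMk (IsOpenImmersion.lift V.ι o.left hr) (by
    change IsOpenImmersion.lift V.ι o.left hr ≫ V.ι ≫ X.hom = Q.hom
    rw [IsOpenImmersion.lift_fac_assoc, Over.w])
  have hs : s ≫ jU = o := by
    ext1
    exact IsOpenImmersion.lift_fac _ _ _
  have hsl : s.left ≫ V.ι = o.left := IsOpenImmersion.lift_fac _ _ _
  have hsmooth : Smooth s.left := by
    have h1 : Smooth (s.left ≫ V.ι) := by rw [hsl]; infer_instance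
    exact MorphismProperty.of_postcomp @Smooth s.left V.ι (W' := @IsOpenImmersion) inferInstance h1
  have hsurj : Surjective s.left := by
    constructor
    intro x
    obtain ⟨q, hq⟩ := x.2
    refine ⟨q, ?_⟩
    apply V.ι.isOpenEmbedding.injective
    rw [← Scheme.Hom.comp_apply, hsl]
    exact hq
  have hkey : ∀ {T : Scheme.{0}} (g₁ g₂ : T ⟶ Q.left), g₁ ≫ s.left = g₂ ≫ s.left →
      g₁ ≫ φ.left = g₂ ≫ φ.left := by
    intro T g₁ g₂ hg
    have h1 : g₁ ≫ o.left = g₂ ≫ o.left := by
      rw [← hsl, ← Category.assoc, hg, Category.assoc]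
    have h2 := congrArg (fun m => m.left) hpφ
    have h3 : pullback.fst o.left o.left ≫ φ.left = pullback.snd o.left o.left ≫ φ.left := h2
    calc g₁ ≫ φ.left = pullback.lift g₁ g₂ h1 ≫ pullback.fst o.left o.left ≫ φ.left := by
          rw [pullback.lift_fst_assoc]
      _ = g₂ ≫ φ.left := by rw [h3, pullback.lift_snd_assoc]
  refine ⟨U, jU, Over.homMk (EffectiveEpi.desc s.left φ.left hkey) ?_, s, ?_, hsurj, hs, ?_⟩
  · have : Epi s.left := inferInstance
    rw [← cancel_epi s.left, EffectiveEpi.fac_assoc, Over.w, Over.w]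
  · change IsOpenImmersion V.ι
    infer_instance
  · ext1
    exact EffectiveEpi.fac s.left φ.left hkey

end LibHM79
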