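import Pool.Agent.LibHM79.B1
import Pool.Agent.LibHM79.B2

/-! G6 (MEDIUM). Gluing local extensions. (U_h, f_h), h : 𝟙_ ⟶ Y, open subschemes of the integral X with y_h ∈ U_h, f_h = π on Y meet U_h (in the form hf), and any two f's agree on a nonempty
open subset of U_h meet U_h' (in the form: hc). Plan: X integral, Z separated, so f_h = f_h' on U_h ×_X U_h' (pt_ext on a dense open). Glue over U := union of the opens range (jU h).left
(Scheme.Cover / RationalMap.toPartialMap / Scheme.OpenCover.glueMorphisms with index type 𝟙_ ⟶ Y); U contains i(y) for all closed y, so i⁻¹(U) is all of Y (Jacobson). v : Y ⟶ U by fac;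
v ≫ f = π by pt_ext on closed points y: hf with T = 𝟙_. -/

namespace LibHM79

open AlgebraicGeometry CategoryTheory MonoidalCategory CartesianMonoidalCategory MonObj Limits TopologicalSpace

variable {k : Type} [Field k] [IsAlgClosed k]

/-- the two maps agree on an overlap -/
private theorem g6_overlap {X Z V₁ V₂ : SchK k} [IsIntegral X.left] [LocallyOfFiniteType X.hom]
    [IsSeparated Z.hom] [LocallyOfFiniteType Z.hom] (j₁ : V₁ ⟶ X) (j₂ : V₂ ⟶ X)
    [IsOpenImmersion j₁.left] [IsOpenImmersion j₂.left] (f₁ : V₁ ⟶ Z) (f₂ : V₂ ⟶ Z)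
    (A : Set X.left) (hA : IsOpen A) (hne : A.Nonempty)
    (h : ∀ (c : 𝟙_ (SchK k) ⟶ V₁) (c' : 𝟙_ (SchK k) ⟶ V₂), c ≫ j₁ = c' ≫ j₂ →
      ev (c ≫ j₁) ∈ A → c ≫ f₁ = c' ≫ f₂)
    (W : Scheme.{0}) (p₁ : W ⟶ V₁.left) (p₂ : W ⟶ V₂.left) [IsOpenImmersion p₁]
    (hp : p₁ ≫ j₁.left = p₂ ≫ j₂.left) : p₁ ≫ f₁.left = p₂ ≫ f₂.left := by
  let W' : SchK k := Over.mk (p₁ ≫ V₁.hom)
  let q₁ : W' ⟶ V₁ := Over.homMk p₁ rfl
  let q₂ : W' ⟶ V₂ := Over.homMk p₂ (by
    change p₂ ≫ V₂.hom = p₁ ≫ V₁.hom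
    rw [← Over.w j₁, ← Over.w j₂, ← Category.assoc, ← Category.assoc, hp])
  have hq : q₁ ≫ j₁ = q₂ ≫ j₂ := by
    ext1
    exact hp
  have hopen : IsOpenImmersion (q₁ ≫ j₁).left := by
    change IsOpenImmersion (p₁ ≫ j₁.left)
    infer_instance
  have hred : IsReduced W'.left := isReduced_of_isOpenImmersion (q₁ ≫ j₁).left
  have hft : LocallyOfFiniteType W'.hom := by
    rw [← Over.w (q₁ ≫ j₁)]
    infer_instance
  have hkey : q₁ ≫ f₁ = q₂ ≫ f₂ := by
    refine pt_ext ((q₁ ≫ j₁).left ⁻¹' A)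
      (hA.preimage (q₁ ≫ j₁).left.continuous).isLocallyClosed ?_ (fun t ht => ?_)
    · rw [dense_iff_inter_open]
      rintro O hO ⟨x, hx⟩
      have h1 : IsOpen ((q₁ ≫ j₁).left '' O) :=
        (q₁ ≫ j₁).left.isOpenEmbedding.isOpenMap _ hO
      obtain ⟨_, ⟨y, hy, rfl⟩, hy'⟩ := nonempty_preirreducible_inter h1 hA ⟨_, x, hx, rfl⟩ hne
      exact ⟨y, hy, hy'⟩
    · rw [← Category.assoc, ← Category.assoc]
      refine h _ _ (by rw [Category.assoc, hq, Category.assoc]) ?_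
      rw [Category.assoc, ev_comp]
      exact ht
  have h2 := congrArg (fun m => m.left) hkey
  exact h2

theorem glue {X Y Z : SchK k} [IsIntegral X.left] [LocallyOfFiniteType X.hom]
    [IsReduced Y.left] [LocallyOfFiniteType Y.hom] [IsSeparated Z.hom]
    [LocallyOfFiniteType Z.hom] (i : Y ⟶ X) (π : Y ⟶ Z)
    (U : (𝟙_ (SchK k) ⟶ Y) → SchK k) (jU : ∀ y, U y ⟶ X) (f : ∀ y, U y ⟶ Z)
    (hj : ∀ y, IsOpenImmersion (jU y).left) (hy : ∀ y, ∃ c : 𝟙_ (SchK k) ⟶ U y, c ≫ jU y = y ≫ i)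
    (hf : ∀ (y y' : 𝟙_ (SchK k) ⟶ Y) (c : 𝟙_ (SchK k) ⟶ U y), c ≫ jU y = y' ≫ i →
      c ≫ f y = y' ≫ π)
    (hc : ∀ y y', ∃ A : Set X.left, IsOpen A ∧ A.Nonempty ∧
      ∀ (c : 𝟙_ (SchK k) ⟶ U y) (c' : 𝟙_ (SchK k) ⟶ U y'), c ≫ jU y = c' ≫ jU y' →
        ev (c ≫ jU y) ∈ A → c ≫ f y = c' ≫ f y') :
    ∃ (V : SchK k) (jV : V ⟶ X) (F : V ⟶ Z) (v : Y ⟶ V), IsOpenImmersion jV.left ∧
      v ≫ jV = i ∧ v ≫ F = π := by
  -- the union
  let V₀ : X.left.Opens := ⨆ y, (jU y).left.opensRange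
  let V : SchK k := Over.mk (V₀.ι ≫ X.hom)
  let jV : V ⟶ X := Over.homMk V₀.ι rfl
  have hjV : IsOpenImmersion jV.left := (inferInstance : IsOpenImmersion V₀.ι)
  have hle : ∀ y, Set.range (jU y).left ⊆ Set.range V₀.ι := by
    intro y
    rw [Scheme.Opens.range_ι]
    exact le_iSup (fun y => (jU y).left.opensRange) y
  let g : ∀ y, (U y).left ⟶ V₀.toScheme := fun y => IsOpenImmersion.lift V₀.ι (jU y).left (hle y)
  have hg : ∀ y, g y ≫ V₀.ι = (jU y).left := fun y => IsOpenImmersion.lift_fac _ _ _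
  have hgo : ∀ y, IsOpenImmersion (g y) := by
    intro y
    have h1 : IsOpenImmersion (g y ≫ V₀.ι) := by
      rw [hg]
      exact hj y
    exact IsOpenImmersion.of_comp (g y) V₀.ι
  let 𝒰 : Scheme.OpenCover V₀.toScheme :=
    { I₀ := 𝟙_ (SchK k) ⟶ Y
      X := fun y => (U y).left
      f := g
      mem₀ := by
        rw [Scheme.presieve₀_mem_precoverage_iff]
        refine ⟨fun x => ?_, hgo⟩
        have h1 : x.1 ∈ ⨆ y, (jU y).left.opensRange := x.2
        rw [Opens.mem_iSup] at h1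
        obtain ⟨y, u, hu⟩ := h1
        refine ⟨y, u, ?_⟩
        apply V₀.ι.isOpenEmbedding.injective
        rw [← Scheme.Hom.comp_apply]
        erw [hg y]
        exact hu }
  have hglue : ∀ y y', pullback.fst (𝒰.f y) (𝒰.f y') ≫ (f y).left
      = pullback.snd (𝒰.f y) (𝒰.f y') ≫ (f y').left := by
    intro y y'
    obtain ⟨A, hA, hne, h⟩ := hc y y'
    have := hj y
    have := hj y'
    have := hgo y'
    have h1 : IsOpenImmersion (pullback.fst (𝒰.f y) (𝒰.f y')) := inferInstance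
    refine g6_overlap (jU y) (jU y') (f y) (f y') A hA hne h _ _ _ ?_
    rw [← hg y, ← hg y', ← Category.assoc, ← Category.assoc]
    congr 1
    exact pullback.condition
  let F₀ : V₀.toScheme ⟶ Z.left := 𝒰.glueMorphisms (fun y => (f y).left) hglue
  have hF₀ : ∀ y, g y ≫ F₀ = (f y).left := fun y =>
    𝒰.ι_glueMorphisms (fun y => (f y).left) hglue y
  let F : V ⟶ Z := Over.homMk F₀ (by
    change F₀ ≫ Z.hom = V₀.ι ≫ X.hom
    refine 𝒰.hom_ext _ _ fun y => ?_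
    change g y ≫ F₀ ≫ Z.hom = g y ≫ V₀.ι ≫ X.hom
    rw [← Category.assoc, hF₀, ← Category.assoc, hg, Over.w, Over.w])
  let G : ∀ y, U y ⟶ V := fun y => Over.homMk (g y) (by
    change g y ≫ V₀.ι ≫ X.hom = (U y).hom
    rw [← Category.assoc, hg, Over.w])
  have hGj : ∀ y, G y ≫ jV = jU y := by
    intro y
    ext1
    exact hg y
  have hGF : ∀ y, G y ≫ F = f y := by
    intro y
    ext1
    exact hF₀ y
  -- the map to the union
  have hmem : ∀ a : Y.left, i.left a ∈ Set.range jV.left := by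
    by_contra hcon
    push Not at hcon
    obtain ⟨a, ha⟩ := hcon
    obtain ⟨t, ht⟩ := exists_pt (T := Y) (i.left ⁻¹' (Set.range jV.left))ᶜ
      ((jV.left.isOpenEmbedding.isOpen_range.preimage
        i.left.continuous).isClosed_compl.isLocallyClosed) ⟨a, ha⟩
    apply ht
    obtain ⟨c, hc'⟩ := hy t
    rw [Set.mem_preimage, ← ev_comp, ← hc', ← hGj t, ← Category.assoc, ev_comp]
    exact ⟨_, rfl⟩
  obtain ⟨v, hv⟩ := fac jV i hmem
  refine ⟨V, jV, F, v, hjV, hv, ?_⟩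
  refine pt_ext Set.univ isClosed_univ.isLocallyClosed dense_univ (fun t _ => ?_)
  obtain ⟨c, hc'⟩ := hy t
  have h1 : t ≫ v = c ≫ G t := by
    rw [← cancel_mono jV, Category.assoc, hv, Category.assoc, hGj, hc']
  rw [← Category.assoc, h1, Category.assoc, hGF]
  exact hf t t c hc'

end LibHM79
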