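import Pool.Agent.LibHM79.E4
import Pool.Agent.LibHM79.E1
import Pool.Agent.LibHM79.G1
import Pool.Agent.LibHM79.G4
import Pool.Agent.LibHM79.G5
import Pool.Agent.LibHM79.G6
import Pool.Agent.LibHM79.D7

/-! G7 (MEDIUM/STRONG). Extension to a neighbourhood of Y. Plan: alpha_exists, exists_v, first_order = hE; for y : 𝟙_ ⟶ Y choose h : 𝟙_ ⟶ P with h ≫ oP = y (lift_pt) and local_sol:
(Q_y, j_y, φ_y), e_y. Q_y is an open subscheme of G: integral (nonempty), smooth, quasi-compact (G noetherian). descend with o := j_y ≫ orb x₀ (smooth: open immersion then smooth) and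
hφ := sol_invariant: (U_y, jU_y, f_y, s_y). glue: hy: c := e_y ≫ s_y. hf: c : 𝟙_ ⟶ U_y with c ≫ jU = y' ≫ i: lift c to u : 𝟙_ ⟶ Q_y (s_y surjective); u ≫ j_y maps under orb to y' ≫ i so comes from
a : 𝟙_ ⟶ P with a ≫ jP = u ≫ j_y, a ≫ oP = y'; c ≫ f_y = u ≫ φ_y = a ≫ oP ≫ π. hc: common_pt gives a point of P in Q_y and Q_y', where both are oP ≫ π; compare: φ_y = φ_y' on Q_y ×_G Q_y';
A := the image in X of the open range j_y meet range j_y' of G under the open map orb x₀; for c, c' over a point of A: the point is orb of a point u of the intersection (closed point of the fibre: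
exists_pt), c ≫ f_y = u ≫ φ_y (both u ≫ s_y and c have the same image in X, jU mono) etc. -/

namespace LibHM79

open AlgebraicGeometry CategoryTheory MonoidalCategory CartesianMonoidalCategory MonObj Limits TopologicalSpace

private theorem G7_loft {k : Type} [Field k] {G X Y P : SchK k} [LocallyOfFiniteType G.hom] (i : Y ⟶ X)
    [IsClosedImmersion i.left] (o : G ⟶ X) (jP : P ⟶ G) (oP : P ⟶ Y)
    (hP : IsPullback jP oP o i) : LocallyOfFiniteType P.hom := by
  have h1 : IsPullback jP.left oP.left o.left i.left := hP.map (Over.forget _)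
  have h2 : IsClosedImmersion jP.left :=
    MorphismProperty.of_isPullback h1.flip (inferInstanceAs (IsClosedImmersion i.left))
  rw [← Over.w jP]
  infer_instance

private theorem G7_loftc {k : Type} [Field k] {Q G : SchK k} [LocallyOfFiniteType G.hom] (j : Q ⟶ G)
    [IsOpenImmersion j.left] : LocallyOfFiniteType Q.hom := by
  rw [← Over.w j]
  infer_instance

private theorem G7_smooth {k : Type} [Field k] {Q G : SchK k} [Smooth G.hom] (j : Q ⟶ G)
    [IsOpenImmersion j.left] : Smooth Q.hom := by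
  rw [← Over.w j]
  infer_instance

private theorem G7_qc {k : Type} [Field k] {Q G : SchK k} [LocallyOfFiniteType G.hom] [QuasiCompact G.hom] (j : Q ⟶ G)
    [IsOpenImmersion j.left] : QuasiCompact Q.hom := by
  have h : IsLocallyNoetherian G.left := LocallyOfFiniteType.isLocallyNoetherian G.hom
  rw [← Over.w j]
  infer_instance

private theorem G7_smooth_comp {k : Type} [Field k] {Q G X : SchK k} (j : Q ⟶ G) (o : G ⟶ X)
    [IsOpenImmersion j.left] [Smooth o.left] : Smooth (j ≫ o).left := by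
  rw [Over.comp_left]
  infer_instance

private theorem G7_integral {k : Type} [Field k] {Q G : SchK k} [IsIntegral G.left] (j : Q ⟶ G)
    [IsOpenImmersion j.left] (e : 𝟙_ (SchK k) ⟶ Q) : IsIntegral Q.left := by
  have : Nonempty Q.left := ⟨ev e⟩
  exact isIntegral_of_isOpenImmersion j.left

private theorem G7_facpt {k : Type} [Field k] {Q G : SchK k} (j : Q ⟶ G) [IsOpenImmersion j.left]
    (t : 𝟙_ (SchK k) ⟶ G) (h : ev t ∈ Set.range j.left) : ∃ u : 𝟙_ (SchK k) ⟶ Q, u ≫ j = t := by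
  apply fac
  intro a
  have : a = IsLocalRing.closedPoint k := by
    exact Subsingleton.elim (α := PrimeSpectrum k) a _
  rw [this]
  exact h

/-- the local extension attached to a point of `Y` -/
private theorem G7_chart {k : Type} [Field k] [IsAlgClosed k] [CharZero k] {G X Y Z P Ω : SchK k}
    [GrpObj G] [ModObj G X] [IsIntegral G.left] [Smooth G.hom]
    [QuasiCompact G.hom] [IsSeparated X.hom] [LocallyOfFiniteType X.hom]
    [LocallyOfFiniteType Y.hom] [IsSeparated Z.hom] [LocallyOfFiniteType Z.hom]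
    [LocallyOfFiniteType P.hom] [LocallyOfFiniteType G.hom]
    (i : Y ⟶ X) [IsClosedImmersion i.left] (x₀ : 𝟙_ (SchK k) ⟶ X)
    [Smooth (orb x₀ : G ⟶ X).left] (jP : P ⟶ G) (oP : P ⟶ Y)
    (hP : IsPullback jP oP (orb x₀) i) [Surjective oP.left] [IsIntegral P.left]
    (π : Y ⟶ Z) (jΩ : Ω ⟶ G ⊗ Z) (α : Ω ⟶ Z) (hα : AlphaData jP (oP ≫ π) Ω jΩ α)
    (v : (Dk k ⟶ G) → (Dk k ⊗ Z ⟶ Z))
    (hv : ∀ w, IsTan w → lift (toUnit Z ≫ zpt k) (𝟙 Z) ≫ v w = 𝟙 Z)
    (hE : ∀ (g : 𝟙_ (SchK k) ⟶ G) (z : 𝟙_ (SchK k) ⟶ Z) (w : Dk k ⟶ G), IsTan w →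
      ∀ (c : 𝟙_ (SchK k) ⟶ Ω), c ≫ jΩ = lift g z → ∀ q : Dk k ⟶ Ω,
      q ≫ jΩ = lift (w * (toUnit (Dk k) ≫ g)) (toUnit (Dk k) ≫ z) →
      q ≫ α = lift (𝟙 (Dk k)) (toUnit (Dk k) ≫ c ≫ α) ≫ v w)
    (y : 𝟙_ (SchK k) ⟶ Y) :
    ∃ (Q U : SchK k) (j : Q ⟶ G) (φ : Q ⟶ Z) (jU : U ⟶ X) (f : U ⟶ Z) (s : Q ⟶ U)
      (h : 𝟙_ (SchK k) ⟶ P) (e : 𝟙_ (SchK k) ⟶ Q),
      IsOpenImmersion j.left ∧ IsOpenImmersion jU.left ∧ Surjective s.left ∧
      e ≫ j = h ≫ jP ∧ h ≫ oP = y ∧ Sol v j φ ∧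
      (∀ (T : SchK k) (u : T ⟶ Q) (a : T ⟶ P), u ≫ j = a ≫ jP → u ≫ φ = a ≫ oP ≫ π) ∧
      s ≫ jU = j ≫ orb x₀ ∧ s ≫ f = φ := by
  obtain ⟨h, hh⟩ := lift_pt oP y
  obtain ⟨Q, j, φ, hj, ⟨e, he⟩, hsol, hrel⟩ := local_sol jP (oP ≫ π) jΩ α hα v hE h
  have i1 : IsIntegral Q.left := G7_integral j e
  have i2 : Smooth Q.hom := G7_smooth j
  have i3 : QuasiCompact Q.hom := G7_qc j
  have i4 : Smooth (j ≫ orb x₀).left := G7_smooth_comp j (orb x₀)
  obtain ⟨U, jU, f, s, hU, hs, hsj, hsf⟩ := descend (j ≫ orb x₀) φ (by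
    intro u₁ u₂ hu
    exact sol_invariant i x₀ jP oP hP π v hv j φ h e he hsol hrel u₁ u₂ hu)
  exact ⟨Q, U, j, φ, jU, f, s, h, e, hj, hU, hs, he, hh, hsol, hrel, hsj, hsf⟩

theorem nhd {k : Type} [Field k] [IsAlgClosed k] [CharZero k] {G X Y Z P : SchK k}
    [GrpObj G] [ModObj G X] [IsIntegral G.left] [Smooth G.hom] [IsSeparated G.hom]
    [QuasiCompact G.hom] [IsIntegral X.left] [IsSeparated X.hom] [LocallyOfFiniteType X.hom]
    [IsIntegral Y.left] [IsProper Y.hom] [IsIntegral Z.left] [IsProper Z.hom]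
    (hZ : ∀ z : Z.left, IsIntegrallyClosed (Z.left.presheaf.stalk z))
    (i : Y ⟶ X) [IsClosedImmersion i.left] (x₀ : 𝟙_ (SchK k) ⟶ X)
    [Smooth (orb x₀ : G ⟶ X).left] (jP : P ⟶ G) (oP : P ⟶ Y)
    (hP : IsPullback jP oP (orb x₀) i) [Surjective oP.left] [IsIntegral P.left]
    (r : ℕ)
    (hY1 : ∀ T : Set X.left, IsClosed T → IsIrreducible T →
      (r : WithBot ℕ∞) ≤ topologicalKrullDim T → (T ∩ Set.range i.left).Nonempty)
    (hY2 : ∀ T : Set X.left, IsClosed T → IsIrreducible T →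
      ((r + 1 : ℕ) : WithBot ℕ∞) ≤ topologicalKrullDim T →
        _root_.IsPreconnected (T ∩ Set.range i.left))
    (hSp : ∀ T : Set Y.left, IsClosed T → T.Infinite →
      ∀ (U : G.left.Opens) (f : Γ(G.left, U)), ev (1 : 𝟙_ (SchK k) ⟶ G) ∈ U →
      (∀ y : 𝟙_ (SchK k) ⟶ Y, ev y ∈ T → ∀ w : Dk k ⟶ G, IsTan w → TanTo i y w →
        DerZero w U f) → ∀ w : Dk k ⟶ G, IsTan w → DerZero w U f)
    (π : Y ⟶ Z) [Surjective π.left]
    (hπ : ∀ V : Z.left.Opens, (V : Set Z.left).Nonempty →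
      ∃ z ∈ V, IsClosed {z} ∧ IsIrreducible (π.left ⁻¹' {z}))
    (hdim : topologicalKrullDim Z.left + r < topologicalKrullDim Y.left) :
    ∃ (V : SchK k) (jV : V ⟶ X) (F : V ⟶ Z) (v : Y ⟶ V), IsOpenImmersion jV.left ∧
      v ≫ jV = i ∧ v ≫ F = π := by
  have i1 : LocallyOfFiniteType G.hom := inferInstance
  have i2 : LocallyOfFiniteType P.hom := G7_loft i (orb x₀) jP oP hP
  have i3 : LocallyOfFiniteType Y.hom := inferInstance
  have i4 : LocallyOfFiniteType Z.hom := inferInstance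
  have i5 : IsSeparated Z.hom := inferInstance
  have i6 : Surjective (oP ≫ π).left := by
    rw [Over.comp_left]
    infer_instance
  obtain ⟨Ω, jΩ, α, hα⟩ := alpha_exists hZ i x₀ jP oP hP r hY1 hY2 π hπ hdim
  obtain ⟨v, hv⟩ := exists_v jP (oP ≫ π) jΩ α hα
  have hv1 : ∀ w, IsTan w → lift (toUnit Z ≫ zpt k) (𝟙 Z) ≫ v w = 𝟙 Z := fun w hw => (hv w hw).1
  have hE := first_order i x₀ jP oP hP r hY1 hY2 hSp π hdim jΩ α hα v hv
  have hchart := G7_chart i x₀ jP oP hP π jΩ α hα v hv1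
    (fun g z w hw c hc q hq => hE g z w hw c hc q hq)
  choose Q U j φ jU f s h e hj hU hs he hh hsol hrel hsj hsf using hchart
  have hQl : ∀ y, LocallyOfFiniteType (Q y).hom := fun y => G7_loftc (j y)
  have hUl : ∀ y, LocallyOfFiniteType (U y).hom := fun y => G7_loftc (jU y)
  refine glue i π U jU f hU ?_ ?_ ?_
  · intro y
    refine ⟨e y ≫ s y, ?_⟩
    rw [Category.assoc, hsj, ← Category.assoc, he, Category.assoc, hP.w, ← Category.assoc, hh]
  · intro y y' c hc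
    obtain ⟨u, hu⟩ := lift_pt (s y) c
    have h1 : (u ≫ j y) ≫ orb x₀ = y' ≫ i := by
      rw [Category.assoc, ← hsj, ← Category.assoc, hu, hc]
    have h2 := hrel y _ u (hP.lift (u ≫ j y) y' h1) (hP.lift_fst _ _ h1).symm
    rw [← hu, Category.assoc, hsf, h2, ← Category.assoc, hP.lift_snd]
  · intro y y'
    obtain ⟨a, u, u', hu, hu'⟩ := common_pt jP (j y) (j y') (h y) (h y') (e y) (e y') (he y) (he y')
    have hcmp := compare v hv1 (j y) (j y') (φ y) (φ y') (hsol y) (hsol y') u u' (hu.trans hu'.symm)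
      ((hrel y _ u a hu).trans (hrel y' _ u' a hu').symm)
    refine ⟨(orb x₀ : G ⟶ X).left '' (Set.range (j y).left ∩ Set.range (j y').left), ?_, ?_, ?_⟩
    · have ho : IsOpenMap (orb x₀ : G ⟶ X).left := Scheme.Hom.isOpenMap _
      exact ho _ (((j y).left.isOpenEmbedding.isOpen_range).inter
        ((j y').left.isOpenEmbedding.isOpen_range))
    · refine ⟨_, ev (a ≫ jP), ⟨?_, ?_⟩, rfl⟩
      · rw [← hu, ev_comp]
        exact ⟨_, rfl⟩
      · rw [← hu', ev_comp]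
        exact ⟨_, rfl⟩
    · rintro c c' hcc ⟨g, ⟨hg1, hg2⟩, hg3⟩
      obtain ⟨t, ht⟩ := exists_pt (T := G) ((Set.range (j y).left ∩ Set.range (j y').left) ∩
        (orb x₀ : G ⟶ X).left ⁻¹' {ev (c ≫ jU y)}) (by
          refine IsLocallyClosed.inter ?_ ?_
          · exact (((j y).left.isOpenEmbedding.isOpen_range).inter
              ((j y').left.isOpenEmbedding.isOpen_range)).isLocallyClosed
          · exact ((ev_closed (c ≫ jU y)).preimage
              (orb x₀ : G ⟶ X).left.continuous).isLocallyClosed) ⟨g, ⟨hg1, hg2⟩, hg3⟩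
      obtain ⟨u1, hu1⟩ := G7_facpt (j y) t ht.1.1
      obtain ⟨u2, hu2⟩ := G7_facpt (j y') t ht.1.2
      have ho : t ≫ orb x₀ = c ≫ jU y := by
        apply ev_inj
        rw [ev_comp]
        exact ht.2
      have hc1 : u1 ≫ s y = c := by
        rw [← cancel_mono (jU y), Category.assoc, hsj, ← Category.assoc, hu1, ho]
      have hc2 : u2 ≫ s y' = c' := by
        rw [← cancel_mono (jU y'), Category.assoc, hsj, ← Category.assoc, hu2, ho, hcc]
      rw [← hc1, ← hc2, Category.assoc, Category.assoc, hsf, hsf]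
      exact hcmp _ u1 u2 (hu1.trans hu2.symm)

end LibHM79
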