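import Mathlib

/-! N1 (MEDIUM/STRONG, algebra, ONLY MATHLIB). An algebra which is étale over a normal domain R and a domain is normal.
Plan: K := Frac R. Mathlib TensorProduct.toIntegralClosure_bijective_of_smooth (RingTheory.Smooth.IntegralClosure)
with B := K : S ⊗[R] integralClosure R K = S ⊗[R] R → integralClosure S (S ⊗[R] K) is bijective, i.e. S is
integrally closed in S ⊗[R] K. R → S is flat; S ⊗[R] K is the localization of S at the nonzero
elements of R (injective because S is a domain and flat, R → S injective: a nonzero r is a non zero divisor on S, and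
if some r ≠ 0 goes to 0 then flatness makes S = 0); it is a domain étale over the field K, so a finite
product of fields which is a domain: a field (Algebra.FormallyUnramified / Algebra.Etale over a field:
Mathlib Algebra.Etale.iff_exists_algEquiv_prod or finite dimensional: Algebra.FormallyUnramified.finite_of_free,
IsIntegral over a field domain is a field), hence Frac S. -/

namespace LibHM79

open TensorProduct nonZeroDivisors

private theorem N1_inj {R S : Type} [CommRing R] [IsDomain R] [CommRing S] [IsDomain S]
    [Algebra R S] [Module.Flat R S] (r : R) (hr : r ≠ 0) : algebraMap R S r ≠ 0 := by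
  intro h0
  have h1 : IsSMulRegular S r :=
    Module.Flat.isSMulRegular_of_nonZeroDivisors (mem_nonZeroDivisors_of_ne_zero hr)
  have h2 : r • (1 : S) = r • (0 : S) := by
    rw [Algebra.smul_def, h0, zero_mul, smul_zero]
  exact one_ne_zero (h1 h2)

private theorem N1_desc {R S : Type} [CommRing R] [IsDomain R] [IsIntegrallyClosed R] [CommRing S]
    [Algebra R S] (y : S ⊗[R] integralClosure R (FractionRing R)) :
    ∃ s : S, (TensorProduct.toIntegralClosure R S (FractionRing R) y : S ⊗[R] FractionRing R) =
      algebraMap S (S ⊗[R] FractionRing R) s := by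
  induction y with
  | zero => exact ⟨0, by simp⟩
  | tmul s b =>
    obtain ⟨r, hr⟩ := (isIntegrallyClosed_iff (FractionRing R)).1 ‹_› b.2
    refine ⟨r • s, ?_⟩
    change s ⊗ₜ[R] (b : FractionRing R) = (r • s) ⊗ₜ[R] (1 : FractionRing R)
    rw [← hr, TensorProduct.smul_tmul, Algebra.smul_def, mul_one]
  | add x y hx hy =>
    obtain ⟨s, hs⟩ := hx
    obtain ⟨t, ht⟩ := hy
    exact ⟨s + t, by rw [map_add, map_add, ← hs, ← ht]; rfl⟩

theorem etale_normal {R S : Type} [CommRing R] [IsDomain R] [IsIntegrallyClosed R] [CommRing S]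
    [IsDomain S] [Algebra R S] [Algebra.Etale R S] : IsIntegrallyClosed S := by
  have hM : Algebra.algebraMapSubmonoid S R⁰ ≤ S⁰ := by
    rintro _ ⟨r, hr, rfl⟩
    exact mem_nonZeroDivisors_of_ne_zero (N1_inj r (nonZeroDivisors.ne_zero hr))
  have hdom : IsDomain (S ⊗[R] FractionRing R) :=
    IsLocalization.isDomain_of_le_nonZeroDivisors (M := Algebra.algebraMapSubmonoid S R⁰) _ hM
  have hinj : Function.Injective (algebraMap S (S ⊗[R] FractionRing R)) :=
    IsLocalization.injective (M := Algebra.algebraMapSubmonoid S R⁰) _ hM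
  let e : S ⊗[R] FractionRing R ≃ₐ[R] FractionRing R ⊗[R] S :=
    Algebra.TensorProduct.comm R S (FractionRing R)
  have hdom' : IsDomain (FractionRing R ⊗[R] S) := e.symm.toMulEquiv.isDomain _
  have hfin : Module.Finite (FractionRing R) (FractionRing R ⊗[R] S) :=
    Algebra.FormallyUnramified.finite_of_free _ _
  have hf' : IsField (FractionRing R ⊗[R] S) :=
    isField_of_isIntegral_of_isField' (R := FractionRing R) (Field.toIsField _)
  have hf : IsField (S ⊗[R] FractionRing R) := e.toMulEquiv.isField hf'
  have hfr : IsFractionRing S (S ⊗[R] FractionRing R) := by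
    refine IsLocalization.of_le (Algebra.algebraMapSubmonoid S R⁰) S⁰ hM fun s hs => ?_
    have h1 : algebraMap S (S ⊗[R] FractionRing R) s ≠ 0 := by
      intro h0
      exact nonZeroDivisors.ne_zero hs (hinj (h0.trans (map_zero _).symm))
    obtain ⟨b, hb⟩ := hf.mul_inv_cancel h1
    exact IsUnit.of_mul_eq_one _ hb
  refine (isIntegrallyClosed_iff (S ⊗[R] FractionRing R)).2 fun {x} hx => ?_
  obtain ⟨y, hy⟩ := (TensorProduct.toIntegralClosure_bijective_of_smooth (R := R) (S := S)
    (B := FractionRing R)).2 ⟨x, hx⟩
  obtain ⟨s, hs⟩ := N1_desc y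
  exact ⟨s, by rw [← hs, hy]⟩

end LibHM79
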