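import Pool.Agent.LibMX2.S8
import Pool.Agent.LibMX2.S9
import Pool.Agent.LibMX2.S11
import Pool.Agent.LibMX2.S12

/-! HM79: the extension from a neighbourhood (LibMX2) and uniqueness, in the form used here. -/

namespace LibHM79

open AlgebraicGeometry CategoryTheory TopologicalSpace

theorem ne_ext (k : Type) [Field k] [IsAlgClosed k] (X Y Z Zbar : Scheme.{0})
    (sX : X ⟶ Spec (.of k)) (sZ : Zbar ⟶ Spec (.of k)) (i : Y ⟶ X) (j : Z ⟶ Zbar)
    [IsIntegral X] [IsProper sX] [IsProper sZ] [Nonempty Y] [IsClosedImmersion i]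
    [IsOpenImmersion j] (r : ℕ)
    (hX : ∀ x : X, UniqueFactorizationMonoid (X.presheaf.stalk x))
    (hY : ∀ W : Set X, IsClosed W → IsIrreducible W →
      (r : WithBot ℕ∞) ≤ topologicalKrullDim W → (W ∩ Set.range i).Nonempty)
    (hdim : topologicalKrullDim Zbar + r < topologicalKrullDim X)
    (U : Scheme.{0}) (u : U ⟶ X) [IsOpenImmersion u] (v : Y ⟶ U) (hv : v ≫ u = i)
    (f : U ⟶ Z) (hf : f ≫ j ≫ sZ = u ≫ sX) :
    ∃! g : X ⟶ Z, g ≫ j ≫ sZ = sX ∧ u ≫ g = f := by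
  have hY' : ∀ w : X, (r : WithBot ℕ∞) ≤ topologicalKrullDim (closure {w} : Set X) →
      (closure {w} ∩ Set.range i).Nonempty := fun w hw =>
    hY _ isClosed_closure isIrreducible_singleton.closure hw
  have hiu : ∀ y : Y, i y ∈ u.opensRange := by
    intro y
    refine ⟨v y, ?_⟩
    rw [← hv]; rfl
  obtain ⟨y₀⟩ := (inferInstance : Nonempty Y)
  let f' : (u.opensRange : X.Opens).toScheme ⟶ Zbar := u.isoOpensRange.inv ≫ f ≫ j
  have hf' : f' ≫ sZ = (u.opensRange : X.Opens).ι ≫ sX := by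
    simp only [f', Category.assoc]
    rw [hf, ← Category.assoc, Scheme.Hom.isoOpensRange_inv_comp]
  obtain ⟨ζ, hζ, hExt, hglob⟩ := LibMX2.ext_glob X Zbar sX sZ u.opensRange ⟨i y₀, hiu y₀⟩ f' hf'
  have hall : ∀ x, LibMX2.Ext X Zbar ζ x := by
    intro x
    refine LibMX2.ext_pt X Zbar sX sZ ζ hζ r hdim x (hX x) (fun w _ hw => ?_)
    obtain ⟨_, hy, ⟨y, rfl⟩⟩ := hY' w hw
    refine hExt w ?_
    exact (specializes_iff_mem_closure.mpr hy).mem_open u.opensRange.2 (hiu y)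
  obtain ⟨g', hg', hug'⟩ := hglob hall
  have hug : u ≫ g' = f ≫ j := by
    have h1 : u = u.isoOpensRange.hom ≫ (u.opensRange : X.Opens).ι := by
      rw [Scheme.Hom.isoOpensRange_hom_ι]
    calc u ≫ g' = (u.isoOpensRange.hom ≫ (u.opensRange : X.Opens).ι) ≫ g' := by rw [← h1]
      _ = u.isoOpensRange.hom ≫ f' := by rw [Category.assoc, hug']
      _ = f ≫ j := by simp [f']
  have hrange : Set.range g' ⊆ Set.range j := by
    rw [LibMX2.image_eq X Zbar sX sZ r hdim (Set.range i) i.isClosedEmbedding.isClosed_range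
      hY' g' hg']
    rintro _ ⟨_, ⟨y, rfl⟩, rfl⟩
    refine ⟨f (v y), ?_⟩
    have h2 : v ≫ f ≫ j = i ≫ g' := by rw [← hv, Category.assoc, hug]
    have h3 := congrArg (fun (h : Y ⟶ Zbar) => h y) h2
    exact h3
  have hdom : IsDominant u := by
    have h1 : IsDominant (u.opensRange : X.Opens).ι :=
      Opens.isDominant_ι (u.opensRange.2.dense ⟨i y₀, hiu y₀⟩)
    rw [← Scheme.Hom.isoOpensRange_hom_ι u]
    infer_instance
  refine ⟨IsOpenImmersion.lift j g' hrange, ⟨?_, ?_⟩, ?_⟩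
  · rw [IsOpenImmersion.lift_fac_assoc, hg']
  · rw [← cancel_mono j, Category.assoc, IsOpenImmersion.lift_fac, hug]
  · rintro g₂ ⟨h1, h2⟩
    refine ext_of_isDominant_of_isSeparated (j ≫ sZ) ?_ u ?_
    · rw [h1, IsOpenImmersion.lift_fac_assoc, hg']
    · rw [h2, ← cancel_mono j, Category.assoc, IsOpenImmersion.lift_fac, hug]

theorem ue_ext (k : Type) [Field k] [IsAlgClosed k] (X Y Z : Scheme.{0})
    (sX : X ⟶ Spec (.of k)) (sZ : Z ⟶ Spec (.of k)) (i : Y ⟶ X)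
    [IsIntegral X] [IsProper sX] [IsSeparated sZ] [LocallyOfFiniteType sZ] (r : ℕ)
    (hY : ∀ W : Set X, IsClosed W → IsIrreducible W →
      (r : WithBot ℕ∞) ≤ topologicalKrullDim W → (W ∩ Set.range i).Nonempty)
    (hdim : topologicalKrullDim Z + r < topologicalKrullDim X)
    (g₁ g₂ : X ⟶ Z) (h₁ : g₁ ≫ sZ = sX) (h₂ : g₂ ≫ sZ = sX)
    (hg : ∀ y : Y, g₁ (i y) = g₂ (i y)) : g₁ = g₂ := by
  have hloc : LocallyOfFiniteType (g₁ ≫ sZ) := by rw [h₁]; infer_instance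
  refine ext_of_apply_eq (K := k) sZ (Set.univ : Set X) isClosed_univ.isLocallyClosed
    dense_univ (fun x _ hx => ?_) (h₁.trans h₂.symm)
  refine LibMX2.uniq_pt X Z sX sZ r hdim (Set.range i) (fun w hw => ?_) g₁ g₂ h₁ h₂ ?_ x hx
  · exact hY _ isClosed_closure isIrreducible_singleton.closure hw
  · rintro _ ⟨y, rfl⟩
    exact hg y

end LibHM79
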