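import Pool.Agent.LibHM79.G7
import Pool.Agent.LibHM79.NE

namespace LibHM79

open AlgebraicGeometry CategoryTheory MonoidalCategory CartesianMonoidalCategory MonObj Limits TopologicalSpace

theorem main (k : Type) [Field k] [IsAlgClosed k] [CharZero k] (G X Y Z : SchK k)
    [GrpObj G] [ModObj G X] [IsIntegral G.left] [Smooth G.hom] [IsSeparated G.hom]
    [QuasiCompact G.hom] [IsIntegral X.left] [IsProper X.hom]
    (hX : ∀ x : X.left, UniqueFactorizationMonoid (X.left.presheaf.stalk x))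
    (i : Y ⟶ X) [IsClosedImmersion i.left] [IsIntegral Y.left] (x₀ : 𝟙_ (SchK k) ⟶ X)
    [Smooth (orb x₀ : G ⟶ X).left]
    [GeometricallyIntegral (pullback.snd (orb x₀ : G ⟶ X).left i.left)]
    (r : ℕ)
    (hY1 : ∀ T : Set X.left, IsClosed T → IsIrreducible T →
      (r : WithBot ℕ∞) ≤ topologicalKrullDim T → (T ∩ Set.range i.left).Nonempty)
    (hY2 : ∀ T : Set X.left, IsClosed T → IsIrreducible T →
      ((r + 1 : ℕ) : WithBot ℕ∞) ≤ topologicalKrullDim T →
        _root_.IsPreconnected (T ∩ Set.range i.left))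
    (hSp : ∀ T : Set Y.left, IsClosed T → T.Infinite →
      ∀ (U : G.left.Opens) (f : Γ(G.left, U)), ev (1 : 𝟙_ (SchK k) ⟶ G) ∈ U →
      (∀ y : 𝟙_ (SchK k) ⟶ Y, ev y ∈ T → ∀ w : Dk k ⟶ G, IsTan w → TanTo i y w →
        DerZero w U f) → ∀ w : Dk k ⟶ G, IsTan w → DerZero w U f)
    [IsIntegral Z.left] [IsProper Z.hom]
    (hZ : ∀ z : Z.left, IsIntegrallyClosed (Z.left.presheaf.stalk z))
    (π : Y ⟶ Z) [Surjective π.left]
    (hπ : ∀ V : Z.left.Opens, (V : Set Z.left).Nonempty →
      ∃ z ∈ V, IsClosed {z} ∧ IsIrreducible (π.left ⁻¹' {z}))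
    (hdim : topologicalKrullDim Z.left + r < topologicalKrullDim Y.left) :
    ∃! f : X ⟶ Z, i ≫ f = π := by
  let p₁ : pullback (orb x₀ : G ⟶ X).left i.left ⟶ G.left := pullback.fst _ _
  let p₂ : pullback (orb x₀ : G ⟶ X).left i.left ⟶ Y.left := pullback.snd _ _
  let P : SchK k := Over.mk (p₁ ≫ G.hom)
  let jP : P ⟶ G := Over.homMk p₁ rfl
  have hw : p₂ ≫ Y.hom = p₁ ≫ G.hom := by
    rw [← Over.w i, ← Category.assoc, ← pullback.condition, Category.assoc, Over.w]
  let oP : P ⟶ Y := Over.homMk p₂ hw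
  have hP : IsPullback jP oP (orb x₀) i := by
    refine IsPullback.of_map (Over.forget _) ?_ ?_
    · ext1
      exact pullback.condition
    · exact IsPullback.of_hasPullback _ _
  have hYp : IsProper Y.hom := by
    rw [← Over.w i]; infer_instance
  have hSurj : Surjective oP.left := by
    show Surjective p₂
    infer_instance
  have hPi : IsIntegral P.left := by
    show IsIntegral (pullback (orb x₀ : G ⟶ X).left i.left)
    have : IsLocallyNoetherian Y.left := LocallyOfFiniteType.isLocallyNoetherian Y.hom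
    exact GeometricallyIntegral.isIntegral_of_isLocallyNoetherian p₂
  obtain ⟨V, jV, F, v, hjV, hv₁, hv₂⟩ := nhd hZ i x₀ jP oP hP r hY1 hY2 hSp π hπ hdim
  have hle : topologicalKrullDim Y.left ≤ topologicalKrullDim X.left :=
    (i.left.isClosedEmbedding.isInducing).topologicalKrullDim_le
  have hdim' := hdim.trans_le hle
  have hVY : v.left ≫ jV.left = i.left := by rw [← Over.comp_left, hv₁]
  obtain ⟨g, ⟨hg₁, hg₂⟩, -⟩ := ne_ext k X.left Y.left Z.left Z.left X.hom Z.hom i.left (𝟙 _) r hX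
    hY1 hdim' V.left jV.left v.left hVY F.left (by rw [Category.id_comp, Over.w, Over.w])
  rw [Category.id_comp] at hg₁
  refine ⟨Over.homMk g hg₁, ?_, ?_⟩
  · show i ≫ Over.homMk g hg₁ = π
    ext1
    show i.left ≫ g = π.left
    rw [← hVY, Category.assoc, hg₂, ← Over.comp_left, hv₂]
  · intro f hf
    ext1
    show f.left = g
    refine ue_ext k X.left Y.left Z.left X.hom Z.hom i.left r hY1 hdim' f.left g (Over.w f) hg₁ ?_
    intro y
    have h1 : i.left ≫ f.left = π.left := by rw [← Over.comp_left, hf]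
    have h2 : i.left ≫ g = π.left := by
      rw [← hVY, Category.assoc, hg₂, ← Over.comp_left, hv₂]
    rw [← Scheme.Hom.comp_apply, ← Scheme.Hom.comp_apply, h1, h2]

end LibHM79
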